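import Pool.Agent.MUW.Uni

/-!
# MUW: the action of the group on the vectors

`vc c x = ∑ a, (j (a 0) ⊗ ⋯ ⊗ j (a (n - 1))) ⊗ x a` (compare `MUT.Jm`). The map `x ↦ vc c x` is linear (`vc_lin`) and
injective (`vc_inj`, by functionals dual to the `j`), and the group acts through `kv` up to a scalar (`vc_act`).
Over an algebraically closed field the matrices may be normalised to determinant one (`exists_sl`).
-/

set_option linter.unusedSectionVars false
set_option linter.unusedVariables false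

namespace Pool.Agent.MUW

open CategoryTheory MonoidalCategory Limits TensorProduct Pool.Agent.KTT Pool.Agent.MUT

universe v u w w'

variable {C : Type u} [Category.{v} C] [MonoidalCategory C]
  {F : Type w} [Field F] (H : C ⥤ ModuleCat.{w} F) [H.Monoidal]
  {l : ℕ} {r : Fin l → ℕ} {V : Fin l → C}
  (b : ∀ i, Module.Basis (Fin (r i)) F (H.obj (V i))) {U L : C} (inc : ∀ i, V i ⟶ U)

/-- `∑ a, (j (a 0) ⊗ ⋯ ⊗ j (a (n - 1))) ⊗ x a` -/
noncomputable def vc {n : ℕ} (c : Fin n → Fin l) (x : D r c → H.obj L) : H.obj (pw U n ⊗ L) :=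
  ∑ a, tm H (ml H n fun t => jj H b inc (c t) (a t)) (x a)

/-- `tm` with a fixed first factor as a linear map -/
private noncomputable def act_tmR {X Y : C} (x : H.obj X) : H.obj Y →ₗ[F] H.obj (X ⊗ Y) where
  toFun y := tm H x y
  map_add' y y' := tm_add_right H x y y'
  map_smul' c y := tm_smul_right H c x y

/-- `tm` with a fixed second factor as a linear map -/
private noncomputable def act_tmL {X Y : C} (y : H.obj Y) : H.obj X →ₗ[F] H.obj (X ⊗ Y) where
  toFun x := tm H x y
  map_add' x x' := tm_add_left H x x' y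
  map_smul' c x := tm_smul_left H c x y

private theorem act_dual {V : Type*} [AddCommGroup V] [Module F V] {r : ℕ} {e : Fin r → V}
    (he : LinearIndependent F e) (a₀ : Fin r) :
    ∃ θ : V →ₗ[F] F, ∀ a, θ (e a) = if a = a₀ then 1 else 0 := by
  classical
  obtain ⟨g, hg⟩ := LinearMap.exists_leftInverse_of_injective (Finsupp.linearCombination F e)
    (LinearMap.ker_eq_bot.2 he)
  refine ⟨(Finsupp.lapply a₀) ∘ₗ g, fun a => ?_⟩
  have h1 : g (e a) = Finsupp.single a (1 : F) := by
    have := LinearMap.congr_fun hg (Finsupp.single a (1 : F))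
    simpa using this
  rw [LinearMap.comp_apply, h1, Finsupp.lapply_apply, Finsupp.single_apply]

private theorem act_fun2 {X Y : C} (f : H.obj X →ₗ[F] F) (g : H.obj Y →ₗ[F] F) :
    ∃ Θ : H.obj (X ⊗ Y) →ₗ[F] F, ∀ x y, Θ (tm H x y) = f x * g y := by
  refine ⟨LinearMap.mul' F F ∘ₗ TensorProduct.map f g ∘ₗ (Functor.OplaxMonoidal.δ H X Y).hom,
    fun x y => ?_⟩
  have h : (Functor.OplaxMonoidal.δ H X Y).hom (tm H x y) = x ⊗ₜ[F] y :=
    LinearMap.congr_fun (congrArg ModuleCat.Hom.hom (Functor.Monoidal.μ_δ H X Y)) (x ⊗ₜ[F] y)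
  rw [LinearMap.comp_apply, LinearMap.comp_apply]
  refine Eq.trans (congrArg (fun z => LinearMap.mul' F F (TensorProduct.map f g z)) h) ?_
  show LinearMap.mul' F F (TensorProduct.map f g (x ⊗ₜ[F] y)) = f x * g y
  rw [TensorProduct.map_tmul, LinearMap.mul'_apply]

private theorem act_funn {U : C} (n : ℕ) (θ : Fin n → (H.obj U →ₗ[F] F)) :
    ∃ Θ : H.obj (pw U n) →ₗ[F] F, ∀ x, Θ (ml H n x) = ∏ t, θ t (x t) := by
  induction n with
  | zero =>
    refine ⟨(Functor.OplaxMonoidal.η H).hom, fun x => ?_⟩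
    have h : (Functor.OplaxMonoidal.η H).hom ((Functor.LaxMonoidal.ε H).hom (1 : F)) = (1 : F) :=
      LinearMap.congr_fun (congrArg ModuleCat.Hom.hom (Functor.Monoidal.ε_η H)) (1 : F)
    rw [Fin.prod_univ_zero]
    exact h
  | succ n ih =>
    obtain ⟨Θ', h'⟩ := ih fun t => θ t.succ
    obtain ⟨Θ, h⟩ := act_fun2 H (θ 0) Θ'
    refine ⟨Θ, fun x => ?_⟩
    rw [Fin.prod_univ_succ, ← h', ← h]
    rfl

theorem vc_lin {n : ℕ} (c : Fin n → Fin l) :
    ∃ φ : (D r c → H.obj L) →ₗ[F] H.obj (pw U n ⊗ L), ∀ x, φ x = vc H b inc c x := by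
  refine ⟨{ toFun := fun x => vc H b inc c x
            map_add' := fun x y => ?_
            map_smul' := fun a x => ?_ }, fun x => rfl⟩
  · simp only [vc, Pi.add_apply, tm_add_right, Finset.sum_add_distrib]
  · simp only [vc, Pi.smul_apply, tm_smul_right, Finset.smul_sum, RingHom.id_apply]

theorem vc_inj (hi : ∀ i, Function.Injective (H.map (inc i)).hom) {n : ℕ} (c : Fin n → Fin l)
    (x : D r c → H.obj L) (h : vc H b inc c x = 0) : x = 0 := by
  classical
  funext a₀
  rw [Pi.zero_apply, ← Module.forall_dual_apply_eq_zero_iff F]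
  intro ψ
  have hj : ∀ i, LinearIndependent F (jj H b inc i) := fun i =>
    (b i).linearIndependent.map' (H.map (inc i)).hom (LinearMap.ker_eq_bot.2 (hi i))
  choose θ hθ using fun s : Fin n => act_dual (hj (c s)) (a₀ s)
  obtain ⟨A, hA⟩ := act_funn H n θ
  obtain ⟨Θ, hΘ⟩ := act_fun2 H A ψ
  have h1 : Θ (vc H b inc c x) = 0 := by rw [h, map_zero]
  unfold vc at h1
  rw [map_sum, Finset.sum_eq_single a₀] at h1
  · rw [hΘ, hA] at h1
    have h2 : ∏ s, θ s (jj H b inc (c s) (a₀ s)) = 1 := by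
      refine Finset.prod_eq_one fun s _ => ?_
      rw [hθ, if_pos rfl]
    rw [h2, one_mul] at h1
    exact h1
  · intro a _ ha
    obtain ⟨s, hs⟩ := Function.ne_iff.1 ha
    have h2 : ∏ s, θ s (jj H b inc (c s) (a s)) = 0 := by
      refine Finset.prod_eq_zero (Finset.mem_univ s) ?_
      rw [hθ, if_neg hs]
    rw [hΘ, hA, h2, zero_mul]
  · intro h
    exact absurd (Finset.mem_univ _) h

private theorem act_expand {ι : Type} [Fintype ι] [DecidableEq ι] {V W : Type*} [AddCommGroup V]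
    [Module F V] [AddCommGroup W] [Module F W] (M : MultilinearMap F (fun _ : ι => V) W)
    {ρ : ι → ℕ} (e : ∀ s, Fin (ρ s) → V) (h : ∀ s, Fin (ρ s) → F) (a : ι → F) :
    M (fun s => a s • ∑ y, h s y • e s y) =
      (∏ s, a s) • ∑ y : (s : ι) → Fin (ρ s), (∏ s, h s (y s)) • M (fun s => e s (y s)) := by
  rw [M.map_smul_univ]
  congr 1
  rw [M.map_sum]
  exact Finset.sum_congr rfl fun y _ => M.map_smul_univ _ _

private theorem act_jj {τ : H ⟶ H} {h : Tup F r} {t : Fin l → F}
    (hg : ∀ i x, (τ.app (V i)).hom (b i x) = t i • ∑ y, h i y x • b i y) (i : Fin l)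
    (x : Fin (r i)) :
    (τ.app U).hom (jj H b inc i x) = t i • ∑ y, h i y x • jj H b inc i y := by
  have h1 : (τ.app U).hom ((H.map (inc i)).hom (b i x)) =
      (H.map (inc i)).hom ((τ.app (V i)).hom (b i x)) := by
    rw [← LinearMap.comp_apply, ← LinearMap.comp_apply, ← ModuleCat.hom_comp,
      ← ModuleCat.hom_comp, τ.naturality]
  unfold jj
  rw [h1, hg, map_smul, map_sum]
  simp only [map_smul]

theorem vc_act {G : Type w'} [Group G] (ρ : G →* Aut H) (ht : ∀ g, NatTrans.IsMonoidal (ρ g).hom)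
    {g : G} {h : Tup F r} {t : Fin l → F}
    (hg : ∀ i x, ((ρ g).hom.app (V i)).hom (b i x) = t i • ∑ y, h i y x • b i y) {n : ℕ}
    (c : Fin n → Fin l) (x : D r c → H.obj L) :
    ((ρ g).hom.app (pw U n ⊗ L)).hom (vc H b inc c x) =
      (∏ s, t (c s)) • vc H b inc c (kv c h fun a => ((ρ g).hom.app L).hom (x a)) := by
  classical
  have := ht g
  obtain ⟨M, hM⟩ := ml_multi H U n
  have h2 : ∀ a : D r c, ((ρ g).hom.app (pw U n ⊗ L)).hom
      (tm H (ml H n fun s => jj H b inc (c s) (a s)) (x a)) =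
      (∏ s, t (c s)) • ∑ z : D r c, (∏ s, h (c s) (z s) (a s)) •
        tm H (ml H n fun s => jj H b inc (c s) (z s)) (((ρ g).hom.app L).hom (x a)) := by
    intro a
    rw [nat_tm, nat_ml]
    have h3 : (fun s : Fin n => ((ρ g).hom.app U).hom (jj H b inc (c s) (a s))) =
        fun s => t (c s) • ∑ z, h (c s) z (a s) • jj H b inc (c s) z := by
      funext s
      exact act_jj H b inc hg _ _
    rw [h3, ← hM, act_expand M (fun s : Fin n => jj H b inc (c s)) (fun s z => h (c s) z (a s))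
      (fun s => t (c s)), tm_smul_left]
    congr 1
    have h4 : ∀ y : H.obj (pw U n),
        tm H y (((ρ g).hom.app L).hom (x a)) =
          act_tmL H (((ρ g).hom.app L).hom (x a)) y := fun _ => rfl
    rw [h4, map_sum]
    refine Finset.sum_congr rfl fun z _ => ?_
    rw [map_smul, hM]
    rfl
  unfold vc
  rw [map_sum]
  simp only [h2]
  rw [← Finset.smul_sum]
  congr 1
  rw [Finset.sum_comm]
  refine Finset.sum_congr rfl fun z _ => ?_
  have h5 : ∀ y : H.obj L, tm H (ml H n fun s => jj H b inc (c s) (z s)) y =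
      act_tmR H (ml H n fun s => jj H b inc (c s) (z s)) y := fun _ => rfl
  rw [h5]
  unfold kv
  rw [map_sum]
  refine Finset.sum_congr rfl fun a _ => ?_
  rw [map_smul]
  rfl

theorem exists_sl [IsAlgClosed F] {G : Type w'} [Group G] (ρ : G →* Aut H) (g : G) :
    ∃ (h : Tup F r) (t : Fin l → F), Sl h ∧ (∀ i, t i ≠ 0) ∧
      ∀ i x, ((ρ g).hom.app (V i)).hom (b i x) = t i • ∑ y, h i y x • b i y := by
  classical
  have key : ∀ i, ∃ (h : Matrix (Fin (r i)) (Fin (r i)) F) (t : F), h.det = 1 ∧ t ≠ 0 ∧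
      ∀ x, ((ρ g).hom.app (V i)).hom (b i x) = t • ∑ y, h y x • b i y := by
    intro i
    set f : H.obj (V i) →ₗ[F] H.obj (V i) := ((ρ g).hom.app (V i)).hom with hf
    set f' : H.obj (V i) →ₗ[F] H.obj (V i) := ((ρ g).inv.app (V i)).hom with hf'
    have hff : f ∘ₗ f' = LinearMap.id :=
      congrArg ModuleCat.Hom.hom (Iso.inv_hom_id_app (α := (ρ g : H ≅ H)) (V i))
    set M : Matrix (Fin (r i)) (Fin (r i)) F := LinearMap.toMatrix (b i) (b i) f with hM
    have hdet : M.det ≠ 0 := by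
      intro h0
      have h1 : M * LinearMap.toMatrix (b i) (b i) f' = 1 := by
        rw [hM, ← LinearMap.toMatrix_comp, hff, LinearMap.toMatrix_id]
      have h2 := congrArg Matrix.det h1
      rw [Matrix.det_mul, h0, zero_mul, Matrix.det_one] at h2
      exact zero_ne_one h2
    have hexp : ∀ x, f (b i x) = ∑ y, M y x • b i y := by
      intro x
      rw [← (b i).sum_repr (f (b i x))]
      refine Finset.sum_congr rfl fun y _ => ?_
      rw [hM, LinearMap.toMatrix_apply]
    obtain ⟨t, ht0, ht⟩ : ∃ t : F, t ≠ 0 ∧ t ^ r i = M.det := by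
      rcases Nat.eq_zero_or_pos (r i) with h0 | h0
      · refine ⟨1, one_ne_zero, ?_⟩
        have : IsEmpty (Fin (r i)) := by
          rw [h0]
          infer_instance
        rw [one_pow, Matrix.det_isEmpty]
      · obtain ⟨t, ht⟩ := IsAlgClosed.exists_pow_nat_eq M.det h0
        refine ⟨t, fun h1 => hdet ?_, ht⟩
        rw [← ht, h1, zero_pow h0.ne']
    refine ⟨t⁻¹ • M, t, ?_, ht0, fun x => ?_⟩
    · rw [Matrix.det_smul, Fintype.card_fin, inv_pow, ht, inv_mul_cancel₀ hdet]
    · rw [hexp, Finset.smul_sum]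
      refine Finset.sum_congr rfl fun y _ => ?_
      rw [Matrix.smul_apply, smul_smul, smul_eq_mul, mul_inv_cancel_left₀ ht0]
  choose h t h1 h2 h3 using key
  exact ⟨h, t, h1, h2, h3⟩

end Pool.Agent.MUW
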