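import Pool.Agent.MUW.Brd
import Pool.Agent.MUT.PermU
import Pool.Agent.MUT.Flat

/-!
# MUW: the dual of an object with a determinant

The antisymmetrisation `f'' = f' ∘ ∑ sgn(σ) σ` satisfies `f'' (b_(a 1) ⊗ ⋯ ⊗ b_(a n)) = sgn(a) e`. The maps
`D ⊗ Xᘁ → X^(⊗ (n - 1))` (contraction of `f d = dv b` with `ξ`) and `X^(⊗ (n - 1)) → D ⊗ Xᘁ` (coevaluation, exchange
and `f''`) are algebraic and their composition is a nonzero scalar. The unit is a retract of `Dᘁ ⊗ D`.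
-/

set_option linter.unusedSectionVars false
set_option linter.unusedVariables false

namespace Pool.Agent.MUW

open CategoryTheory MonoidalCategory Limits TensorProduct Pool.Agent.KTT Pool.Agent.MUT

universe v u w w'

variable {C : Type u} [Category.{v} C] [MonoidalCategory C] [RightRigidCategory C]
  [BraidedCategory C] {F : Type w} [Field F] [CharZero F] (H : C ⥤ ModuleCat.{w} F) [H.Monoidal]

private theorem alt_comp {X Y Z : C} (f : X ⟶ Y) (g : Y ⟶ Z) (x : H.obj X) :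
    (H.map (f ≫ g)).hom x = (H.map g).hom ((H.map f).hom x) := by
  rw [H.map_comp]
  rfl

private theorem alt_wr {X Y : C} (f : X ⟶ Y) (Z : C) (x : H.obj X) (z : H.obj Z) :
    (H.map (f ▷ Z)).hom (tm H x z) = tm H ((H.map f).hom x) z := by
  rw [← tensorHom_id, map_tm, H.map_id]
  rfl

private theorem alt_wl {X Y : C} (Z : C) (f : X ⟶ Y) (z : H.obj Z) (x : H.obj X) :
    (H.map (Z ◁ f)).hom (tm H z x) = tm H z ((H.map f).hom x) := by
  rw [← id_tensorHom, map_tm, H.map_id]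
  rfl

private theorem alt_inv_hom {X Y : C} (f : X ≅ Y) (x : H.obj X) :
    (H.map f.inv).hom ((H.map f.hom).hom x) = x := by
  rw [← alt_comp, Iso.hom_inv_id, H.map_id]
  rfl

/-- `tm` as a bilinear map -/
private noncomputable def altT (X Y : C) : H.obj X →ₗ[F] H.obj Y →ₗ[F] H.obj (X ⊗ Y) :=
  LinearMap.mk₂ F (fun x y => tm H x y) (fun x x' y => tm_add_left H x x' y)
    (fun c x y => tm_smul_left H c x y) (fun x y y' => tm_add_right H x y y')
    (fun c x y => tm_smul_right H c x y)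

private theorem altT_apply {X Y : C} (x : H.obj X) (y : H.obj Y) :
    altT H X Y x y = tm H x y := rfl

private noncomputable def altU : H.obj (𝟙_ C) →ₗ[F] F := (Functor.OplaxMonoidal.η H).hom

private theorem altU_un (w : H.obj (𝟙_ C)) : w = altU H w • un H := by
  have h1 := congrArg (fun f => f.hom w) (Functor.Monoidal.η_ε H)
  have h2 : (Functor.LaxMonoidal.ε H).hom ((Functor.OplaxMonoidal.η H).hom w) = w := h1
  have h3 : (Functor.LaxMonoidal.ε H).hom (((Functor.OplaxMonoidal.η H).hom w : F) • (1 : F)) =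
      ((Functor.OplaxMonoidal.η H).hom w : F) • (Functor.LaxMonoidal.ε H).hom (1 : F) :=
    map_smul _ _ _
  rw [smul_eq_mul, mul_one] at h3
  exact h2.symm.trans h3

/-- the pairing -/
private noncomputable def altP (Y : C) : H.obj Yᘁ →ₗ[F] H.obj Y →ₗ[F] F :=
  (altT H Yᘁ Y).compr₂ (altU H ∘ₗ (H.map (ε_ Y Yᘁ)).hom)

private theorem altP_spec (Y : C) (ξ : H.obj Yᘁ) (y : H.obj Y) :
    (H.map (ε_ Y Yᘁ)).hom (tm H ξ y) = altP H Y ξ y • un H := altU_un H _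

private theorem alt_zig1 (Y : C) (ξ : H.obj Yᘁ) :
    (H.map ((α_ Yᘁ Y Yᘁ).inv ≫ ε_ Y Yᘁ ▷ Yᘁ ≫ (λ_ Yᘁ).hom)).hom
      (tm H ξ ((H.map (η_ Y Yᘁ)).hom (un H))) = ξ := by
  have h := ExactPairing.coevaluation_evaluation Y Yᘁ
  have h1 : Yᘁ ◁ η_ Y Yᘁ ≫ ((α_ Yᘁ Y Yᘁ).inv ≫ ε_ Y Yᘁ ▷ Yᘁ ≫ (λ_ Yᘁ).hom) =
      (ρ_ Yᘁ).hom := by
    have h2 := congrArg (fun f => f ≫ (λ_ Yᘁ).hom) h
    simp only [Category.assoc, Iso.inv_hom_id, Category.comp_id] at h2
    exact h2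
  have h3 : (H.map (Yᘁ ◁ η_ Y Yᘁ ≫ ((α_ Yᘁ Y Yᘁ).inv ≫ ε_ Y Yᘁ ▷ Yᘁ ≫ (λ_ Yᘁ).hom))).hom
      (tm H ξ (un H)) = (H.map (ρ_ Yᘁ).hom).hom (tm H ξ (un H)) := by rw [h1]
  rw [alt_comp, alt_wl, right_tm] at h3
  exact h3

private theorem alt_zig2 (Y : C) (y : H.obj Y) :
    (H.map ((α_ Y Yᘁ Y).hom ≫ Y ◁ ε_ Y Yᘁ ≫ (ρ_ Y).hom)).hom
      (tm H ((H.map (η_ Y Yᘁ)).hom (un H)) y) = y := by
  have h := ExactPairing.evaluation_coevaluation Y Yᘁ
  have h1 : η_ Y Yᘁ ▷ Y ≫ ((α_ Y Yᘁ Y).hom ≫ Y ◁ ε_ Y Yᘁ ≫ (ρ_ Y).hom) = (λ_ Y).hom := by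
    have h2 := congrArg (fun f => f ≫ (ρ_ Y).hom) h
    simp only [Category.assoc, Iso.inv_hom_id, Category.comp_id] at h2
    exact h2
  have h3 : (H.map (η_ Y Yᘁ ▷ Y ≫ ((α_ Y Yᘁ Y).hom ≫ Y ◁ ε_ Y Yᘁ ≫ (ρ_ Y).hom))).hom
      (tm H (un H) y) = (H.map (λ_ Y).hom).hom (tm H (un H) y) := by rw [h1]
  rw [alt_comp, alt_wr, left_tm] at h3
  exact h3

private theorem alt_dec {X Y : C} {ι : Type} [Fintype ι] (b : Module.Basis ι F (H.obj X))
    (t : H.obj (X ⊗ Y)) : ∃ β : ι → H.obj Y, t = ∑ a, tm H (b a) (β a) := by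
  obtain ⟨Φ, hΦ⟩ : ∃ Φ : (ι → H.obj Y) →ₗ[F] H.obj (X ⊗ Y), ∀ β,
      Φ β = ∑ a, tm H (b a) (β a) := by
    refine ⟨∑ a, (altT H X Y (b a)) ∘ₗ LinearMap.proj a, fun β => ?_⟩
    rw [LinearMap.sum_apply]
    rfl
  have h1 : (LinearMap.range Φ).mkQ = 0 := by
    refine tm_ext H fun x y => ?_
    rw [LinearMap.zero_apply, Submodule.mkQ_apply, Submodule.Quotient.mk_eq_zero]
    refine ⟨fun a => b.repr x a • y, ?_⟩
    rw [hΦ]
    have h2 : tm H x y = altT H X Y (∑ a, b.repr x a • b a) y := by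
      rw [b.sum_repr]
      rfl
    rw [h2, map_sum, LinearMap.sum_apply]
    refine Finset.sum_congr rfl fun a _ => ?_
    rw [map_smul, LinearMap.smul_apply, altT_apply, tm_smul_right]
  have h2 : t ∈ LinearMap.range Φ := by
    rw [← Submodule.ker_mkQ (LinearMap.range Φ), h1]
    trivial
  obtain ⟨β, hβ⟩ := h2
  exact ⟨β, by rw [← hΦ, hβ]⟩

/-- the dual basis -/
private theorem alt_dual (Y : C) {ι : Type} [Fintype ι] [DecidableEq ι]
    (b : Module.Basis ι F (H.obj Y)) : ∃ β : ι → H.obj Yᘁ,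
      (H.map (η_ Y Yᘁ)).hom (un H) = ∑ a, tm H (b a) (β a) ∧
      (∀ ξ, ∑ a, altP H Y ξ (b a) • β a = ξ) := by
  obtain ⟨β, hβ⟩ := alt_dec H b ((H.map (η_ Y Yᘁ)).hom (un H))
  refine ⟨β, hβ, fun ξ => ?_⟩
  have h1 := alt_zig1 H Y ξ
  rw [hβ] at h1
  have h2 : tm H ξ (∑ a, tm H (b a) (β a)) = ∑ a, tm H ξ (tm H (b a) (β a)) := by
    rw [← altT_apply, map_sum]
    rfl
  rw [h2, map_sum] at h1
  conv_rhs => rw [← h1]
  refine Finset.sum_congr rfl fun a _ => ?_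
  rw [alt_comp, assoc_inv_tm, alt_comp, alt_wr, altP_spec, tm_smul_left, map_smul, left_tm]

theorem unit_ret {D : C} (hD : Module.finrank F (H.obj D) = 1) : Ret H (𝟙_ C) (Dᘁ ⊗ D) := by
  classical
  let b : Module.Basis Unit F (H.obj D) := Module.basisUnique Unit hD
  obtain ⟨β, hβ, hβ'⟩ := alt_dual H D b
  simp only [Finset.univ_unique, Finset.sum_singleton] at hβ hβ'
  obtain ⟨d, hd⟩ : ∃ d, d = b (default : Unit) := ⟨_, rfl⟩
  obtain ⟨δ, hδ⟩ : ∃ δ, δ = β (default : Unit) := ⟨_, rfl⟩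
  rw [← hd, ← hδ] at hβ
  rw [← hd, ← hδ] at hβ'
  have hd0 : d ≠ 0 := by
    rw [hd]
    exact b.ne_zero _
  have hall : ∀ z : H.obj (Dᘁ ⊗ D), z = altU H ((H.map (ε_ D Dᘁ)).hom z) • tm H δ d := by
    have h1 : (LinearMap.id : H.obj (Dᘁ ⊗ D) →ₗ[F] H.obj (Dᘁ ⊗ D)) =
        LinearMap.smulRight (altU H ∘ₗ (H.map (ε_ D Dᘁ)).hom) (tm H δ d) := by
      refine tm_ext H fun ξ y => ?_
      obtain ⟨r, hr⟩ := (finrank_eq_one_iff_of_nonzero' d hd0).1 hD y
      have h2 : (LinearMap.smulRight (altU H ∘ₗ (H.map (ε_ D Dᘁ)).hom) (tm H δ d)) (tm H ξ y) =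
          altP H D ξ y • tm H δ d := rfl
      rw [h2, LinearMap.id_apply, ← hr, map_smul, tm_smul_right]
      conv_lhs => rw [← hβ' ξ]
      rw [tm_smul_left, smul_smul, smul_eq_mul]
    intro z
    exact LinearMap.congr_fun h1 z
  obtain ⟨z, hz⟩ : ∃ z, z = (H.map (β_ D Dᘁ).hom).hom (tm H d δ) := ⟨_, rfl⟩
  obtain ⟨c, hc⟩ : ∃ c, c = altU H ((H.map (ε_ D Dᘁ)).hom z) := ⟨_, rfl⟩
  have hc0 : c ≠ 0 := by
    intro h0
    have h1 := hall z
    rw [← hc, h0, zero_smul] at h1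
    have h2 : tm H d δ = 0 := by
      rw [← alt_inv_hom H (β_ D Dᘁ) (tm H d δ), ← hz, h1, map_zero]
    have h3 := alt_zig2 H D d
    rw [hβ, h2] at h3
    have h4 : tm H (0 : H.obj (D ⊗ Dᘁ)) d = 0 := by
      rw [← altT_apply, map_zero, LinearMap.zero_apply]
    rw [h4, map_zero] at h3
    exact hd0 h3.symm
  refine ⟨c⁻¹ • (H.map (η_ D Dᘁ ≫ (β_ D Dᘁ).hom)).hom, Submodule.smul_mem _ _ (ah_map H _),
    (H.map (ε_ D Dᘁ)).hom, ah_map H _, fun v => ?_⟩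
  rw [altU_un H v, map_smul, map_smul, LinearMap.smul_apply, map_smul, alt_comp, hβ, ← hz,
    altU_un H ((H.map (ε_ D Dᘁ)).hom z), ← hc, smul_smul, smul_smul, mul_assoc,
    inv_mul_cancel₀ hc0, mul_one]

/-- exchange of `Q` and `R` -/
private theorem alt_exch {Q R : C} (h : Br H Q R) :
    (∃ E ∈ ah H (Q ⊗ R) (R ⊗ Q), ∀ x y, E (tm H x y) = tm H y x) ∧
      ∃ E ∈ ah H (R ⊗ Q) (Q ⊗ R), ∀ x y, E (tm H y x) = tm H x y := by
  obtain ⟨s, hs, h1⟩ := h
  have hs2 : s * s = 1 := by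
    rcases hs with rfl | rfl <;> norm_num
  refine ⟨⟨s • (H.map (β_ Q R).hom).hom, Submodule.smul_mem _ _ (ah_map H _), fun x y => ?_⟩,
    s • (H.map (β_ Q R).inv).hom, Submodule.smul_mem _ _ (ah_map H _), fun x y => ?_⟩
  · rw [LinearMap.smul_apply, h1, smul_smul, hs2, one_smul]
  · rw [LinearMap.smul_apply, ← map_smul, ← h1, alt_inv_hom]

/-- antisymmetrisation -/
private theorem alt_anti {X D : C} (n : ℕ) (b : Fin n → H.obj X) (hX : Br H X X)
    (f' : H.obj (pw X n) →ₗ[F] H.obj D) (hf' : f' ∈ ah H (pw X n) D) :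
    ∃ g ∈ ah H (pw X n) D, (∀ σ : Equiv.Perm (Fin n),
      g (ml H n fun t => b (σ t)) = ((Equiv.Perm.sign σ : ℤ) : F) • f' (dv H b)) ∧
      ∀ a : Fin n → Fin n, ¬ Function.Injective a → g (ml H n fun t => b (a t)) = 0 := by
  classical
  choose P hP hP' using perm_ml H hX n
  have hA : ∀ a : Fin n → Fin n, (f' ∘ₗ ∑ σ, ((Equiv.Perm.sign σ : ℤ) : F) • P σ)
      (ml H n fun t => b (a t)) =
      f' (∑ σ : Equiv.Perm (Fin n), ((Equiv.Perm.sign σ : ℤ) : F) •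
        ml H n fun t => b (a (σ t))) := by
    intro a
    rw [LinearMap.comp_apply, LinearMap.sum_apply]
    congr 1
    refine Finset.sum_congr rfl fun σ _ => ?_
    rw [LinearMap.smul_apply, hP']
    rfl
  refine ⟨f' ∘ₗ ∑ σ, ((Equiv.Perm.sign σ : ℤ) : F) • P σ, ah_comp H
    (Submodule.sum_mem _ fun σ _ => Submodule.smul_mem _ _ (hP σ)) hf', fun τ => ?_,
    fun a ha => ?_⟩
  · rw [hA, ← map_smul]
    congr 1
    unfold dv
    rw [Finset.smul_sum]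
    conv_rhs => rw [← Equiv.sum_comp (Equiv.mulLeft τ)]
    refine Finset.sum_congr rfl fun σ _ => ?_
    rw [Equiv.coe_mulLeft, Equiv.Perm.sign_mul, Units.val_mul, Int.cast_mul, smul_smul,
      ← mul_assoc]
    have h1 : ((Equiv.Perm.sign τ : ℤ) : F) * ((Equiv.Perm.sign τ : ℤ) : F) = 1 := by
      rcases Int.units_eq_one_or (Equiv.Perm.sign τ) with h | h <;> rw [h] <;> norm_num
    rw [h1, one_mul]
    rfl
  · rw [hA]
    have h0 : ∑ σ : Equiv.Perm (Fin n), ((Equiv.Perm.sign σ : ℤ) : F) •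
        (ml H n fun t => b (a (σ t))) = 0 := by
      obtain ⟨i, j, hij, hne⟩ : ∃ i j, a i = a j ∧ i ≠ j := by
        unfold Function.Injective at ha
        push Not at ha
        exact ha
      refine Finset.sum_involution (fun σ _ => Equiv.swap i j * σ) (fun σ _ => ?_)
        (fun σ _ _ => ?_) (fun σ _ => Finset.mem_univ _) (fun σ _ => ?_)
      · rw [Equiv.Perm.sign_mul, Equiv.Perm.sign_swap hne]
        have h2 : (fun t => b (a ((Equiv.swap i j * σ) t))) = fun t => b (a (σ t)) := by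
          funext t
          congr 1
          rw [Equiv.Perm.mul_apply]
          by_cases h3 : σ t = i
          · rw [h3, Equiv.swap_apply_left, hij]
          · by_cases h4 : σ t = j
            · rw [h4, Equiv.swap_apply_right, hij]
            · rw [Equiv.swap_apply_of_ne_of_ne h3 h4]
        rw [h2, ← add_smul]
        have h3 : ((Equiv.Perm.sign σ : ℤ) : F) + ((((-1 : ℤˣ) * Equiv.Perm.sign σ : ℤˣ) : ℤ) : F) =
            0 := by
          push_cast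
          ring
        rw [h3, zero_smul]
      · intro h2
        have h3 : Equiv.swap i j = 1 := mul_eq_right.1 h2
        exact hne (Equiv.swap_eq_one_iff.1 h3)
      · rw [← mul_assoc, Equiv.swap_mul_self, one_mul]
    rw [h0, map_zero]

/-- the contraction -/
private noncomputable def altK (X W : C) : H.obj (Xᘁ ⊗ (X ⊗ W)) →ₗ[F] H.obj W :=
  (H.map ((α_ Xᘁ X W).inv ≫ ε_ X Xᘁ ▷ W ≫ (λ_ W).hom)).hom

private theorem altK_tm (X W : C) (ξ : H.obj Xᘁ) (x : H.obj X) (w : H.obj W) :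
    altK H X W (tm H ξ (tm H x w)) = altP H X ξ x • w := by
  unfold altK
  rw [alt_comp, assoc_inv_tm, alt_comp, alt_wr, altP_spec, tm_smul_left, map_smul, left_tm]

/-- the insertion of the coevaluation -/
private theorem altJ {X W : C} (h : Br H Xᘁ W) {ι : Type} [Fintype ι]
    (b : ι → H.obj X) (β : ι → H.obj Xᘁ)
    (hβ : (H.map (η_ X Xᘁ)).hom (un H) = ∑ a, tm H (b a) (β a)) :
    ∃ J ∈ ah H W ((X ⊗ W) ⊗ Xᘁ), ∀ w, J w = ∑ a, tm H (tm H (b a) w) (β a) := by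
  obtain ⟨⟨E, hE, hE'⟩, _⟩ := alt_exch H h
  refine ⟨(H.map (α_ X W Xᘁ).inv).hom ∘ₗ tl H LinearMap.id E ∘ₗ
    (H.map ((λ_ W).inv ≫ (η_ X Xᘁ ▷ W) ≫ (α_ X Xᘁ W).hom)).hom,
    ah_comp H (ah_comp H (ah_map H _) (ah_tl H (ah_id H _) hE)) (ah_map H _), fun w => ?_⟩
  rw [LinearMap.comp_apply, LinearMap.comp_apply, alt_comp, left_inv_tm, alt_comp, alt_wr, hβ]
  have h2 : tm H (∑ a, tm H (b a) (β a)) w = ∑ a, tm H (tm H (b a) (β a)) w := by
    rw [← altT_apply, map_sum, LinearMap.sum_apply]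
    rfl
  rw [h2, map_sum, map_sum, map_sum]
  refine Finset.sum_congr rfl fun a _ => ?_
  rw [assoc_tm, tl_tm, hE', LinearMap.id_apply, assoc_inv_tm]

private theorem alt_main {X D : C} (m : ℕ) (b : Module.Basis (Fin (m + 1)) F (H.obj X))
    (hX : Br H X X) (hD : Module.finrank F (H.obj D) = 1)
    (f : H.obj D →ₗ[F] H.obj (pw X (m + 1)))
    (hf : f ∈ ah H D (pw X (m + 1))) (d : H.obj D) (hd : f d = dv H b)
    (f' : H.obj (pw X (m + 1)) →ₗ[F] H.obj D) (hf' : f' ∈ ah H (pw X (m + 1)) D)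
    (hne : f' (dv H b) ≠ 0) : Ret H (D ⊗ Xᘁ) (pw X m) := by
  classical
  obtain ⟨g, hg, hg1, hg2⟩ := alt_anti H (m + 1) b hX f' hf'
  obtain ⟨e, he⟩ : ∃ e, e = f' (dv H b) := ⟨_, rfl⟩
  rw [← he] at hne
  rw [← he] at hg1
  obtain ⟨β, hβ, hβ'⟩ := alt_dual H X b
  obtain ⟨_, E, hE, hE'⟩ := alt_exch H (br_pw H (br_dual H hX) (m + 1))
  obtain ⟨J, hJ, hJ'⟩ : ∃ J ∈ ah H (pw X m) (pw X (m + 1) ⊗ Xᘁ), ∀ x : Fin m → H.obj X,
      J (ml H m x) = ∑ a, tm H (ml H (m + 1) (Fin.cons (b a) x)) (β a) := by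
    obtain ⟨J, hJ, hJ'⟩ := altJ H (br_pw H (br_dual H hX) m) b β hβ
    exact ⟨J, hJ, fun x => hJ' (ml H m x)⟩
  obtain ⟨K, hK, hK'⟩ : ∃ K ∈ ah H (Xᘁ ⊗ pw X (m + 1)) (pw X m),
      ∀ (ξ : H.obj Xᘁ) (x : Fin (m + 1) → H.obj X),
        K (tm H ξ (ml H (m + 1) x)) = altP H X ξ (x 0) • ml H m fun k => x k.succ :=
    ⟨altK H X (pw X m), ah_map H _, fun ξ x =>
      altK_tm H X (pw X m) ξ (x 0) (ml H m fun k => x k.succ)⟩
  have hd0 : d ≠ 0 := by
    intro h0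
    rw [h0, map_zero] at hd
    rw [← hd, map_zero] at he
    exact hne he
  obtain ⟨c, hc⟩ := (finrank_eq_one_iff_of_nonzero' d hd0).1 hD e
  have hc0 : c ≠ 0 := by
    intro h0
    rw [h0, zero_smul] at hc
    exact hne hc.symm
  obtain ⟨N, hN⟩ : ∃ N : F, N = ((Fintype.card (Equiv.Perm (Fin m)) : ℕ) : F) := ⟨_, rfl⟩
  have hN0 : N ≠ 0 := by
    rw [hN]
    exact Nat.cast_ne_zero.2 Fintype.card_ne_zero
  have hal : ∀ ξ : H.obj Xᘁ, (K ∘ₗ E ∘ₗ tl H f LinearMap.id) (tm H d ξ) =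
      ∑ σ : Equiv.Perm (Fin (m + 1)), ((Equiv.Perm.sign σ : ℤ) : F) •
        altP H X ξ (b (σ 0)) • ml H m fun k => b (σ k.succ) := by
    intro ξ
    rw [LinearMap.comp_apply, LinearMap.comp_apply, tl_tm, LinearMap.id_apply, hd, hE']
    unfold dv
    have h2 : tm H ξ (∑ σ : Equiv.Perm (Fin (m + 1)), ((Equiv.Perm.sign σ : ℤ) : F) •
        ml H (m + 1) fun t => b (σ t)) = ∑ σ : Equiv.Perm (Fin (m + 1)),
          ((Equiv.Perm.sign σ : ℤ) : F) • tm H ξ (ml H (m + 1) fun t => b (σ t)) := by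
      rw [← altT_apply, map_sum]
      refine Finset.sum_congr rfl fun σ _ => ?_
      rw [map_smul, altT_apply]
    rw [h2, map_sum]
    refine Finset.sum_congr rfl fun σ _ => ?_
    rw [map_smul, hK']
  have hg3 : ∀ (σ : Equiv.Perm (Fin (m + 1))) (a : Fin (m + 1)),
      g (ml H (m + 1) (Fin.cons (b a) fun k : Fin m => b (σ k.succ))) =
        if a = σ 0 then ((Equiv.Perm.sign σ : ℤ) : F) • e else 0 := by
    intro σ a
    have h1 : (Fin.cons (b a) fun k : Fin m => b (σ k.succ)) = fun t : Fin (m + 1) =>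
        b ((Fin.cons a (fun k : Fin m => σ k.succ) : Fin (m + 1) → Fin (m + 1)) t) := by
      funext t
      refine Fin.cases ?_ (fun k => ?_) t
      · rfl
      · rfl
    rw [h1]
    split_ifs with h2
    · have h3 : (Fin.cons a (fun k : Fin m => σ k.succ) : Fin (m + 1) → Fin (m + 1)) = σ := by
        funext t
        rw [h2]
        refine Fin.cases ?_ (fun k => ?_) t
        · rfl
        · rfl
      rw [h3]
      exact hg1 σ
    · apply hg2
      intro h3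
      obtain ⟨t, ht⟩ := σ.surjective a
      rcases Fin.eq_zero_or_eq_succ t with h4 | ⟨k, rfl⟩
      · rw [h4] at ht
        exact h2 ht.symm
      · have h5 : (Fin.cons a (fun k : Fin m => σ k.succ) : Fin (m + 1) → Fin (m + 1)) 0 =
            (Fin.cons a (fun k : Fin m => σ k.succ) : Fin (m + 1) → Fin (m + 1)) k.succ := by
          rw [Fin.cons_zero, Fin.cons_succ, ht]
        exact absurd (h3 h5) (Fin.succ_ne_zero k).symm
  have hbe : ∀ σ : Equiv.Perm (Fin (m + 1)),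
      (tl H g LinearMap.id ∘ₗ J) (ml H m fun k => b (σ k.succ)) =
        ((Equiv.Perm.sign σ : ℤ) : F) • tm H e (β (σ 0)) := by
    intro σ
    rw [LinearMap.comp_apply, hJ', map_sum]
    simp only [tl_tm, hg3, LinearMap.id_apply]
    rw [Finset.sum_eq_single (σ 0)]
    · rw [if_pos rfl, tm_smul_left]
    · intro a _ ha
      rw [if_neg ha, ← altT_apply, map_zero, LinearMap.zero_apply]
    · intro h
      exact absurd (Finset.mem_univ _) h
  refine ⟨K ∘ₗ E ∘ₗ tl H f LinearMap.id, ?_,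
    (N * c)⁻¹ • (tl H g LinearMap.id ∘ₗ J), ?_, fun v => ?_⟩
  · exact ah_comp H (ah_comp H (ah_tl H hf (ah_id H _)) hE) hK
  · exact Submodule.smul_mem _ _ (ah_comp H hJ (ah_tl H hg (ah_id H _)))
  · have key : ((N * c)⁻¹ • (tl H g LinearMap.id ∘ₗ J)) ∘ₗ
        (K ∘ₗ E ∘ₗ tl H f LinearMap.id) = LinearMap.id := by
      refine tm_ext H fun y ξ => ?_
      obtain ⟨r, hr⟩ := (finrank_eq_one_iff_of_nonzero' d hd0).1 hD y
      rw [← hr, tm_smul_left, map_smul, map_smul]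
      congr 1
      rw [LinearMap.comp_apply, hal, LinearMap.id_apply, map_sum]
      have h1 : ∀ σ : Equiv.Perm (Fin (m + 1)),
          ((N * c)⁻¹ • (tl H g LinearMap.id ∘ₗ J)) (((Equiv.Perm.sign σ : ℤ) : F) •
            altP H X ξ (b (σ 0)) • ml H m fun k => b (σ k.succ)) =
          (N * c)⁻¹ • altP H X ξ (b (σ 0)) • tm H e (β (σ 0)) := by
        intro σ
        rw [map_smul, map_smul, LinearMap.smul_apply, hbe]
        have h2 : ((Equiv.Perm.sign σ : ℤ) : F) * ((Equiv.Perm.sign σ : ℤ) : F) = 1 := by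
          rcases Int.units_eq_one_or (Equiv.Perm.sign σ) with h | h <;> rw [h] <;> norm_num
        simp only [smul_smul]
        congr 1
        linear_combination ((N * c)⁻¹ * altP H X ξ (b (σ 0))) * h2
      rw [Finset.sum_congr rfl fun σ _ => h1 σ]
      rw [← Equiv.sum_comp (Equiv.Perm.decomposeFin).symm, Fintype.sum_prod_type]
      have h3 : ∀ p : Fin (m + 1), ∑ q : Equiv.Perm (Fin m), (N * c)⁻¹ •
          altP H X ξ (b ((Equiv.Perm.decomposeFin.symm (p, q)) 0)) •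
            tm H e (β ((Equiv.Perm.decomposeFin.symm (p, q)) 0)) =
          (N * (N * c)⁻¹) • (altP H X ξ (b p) • tm H e (β p)) := by
        intro p
        simp only [Equiv.Perm.decomposeFin_symm_apply_zero]
        rw [Finset.sum_const, Finset.card_univ, ← Nat.cast_smul_eq_nsmul F, ← hN, smul_smul]
      rw [Finset.sum_congr rfl fun p _ => h3 p, ← Finset.smul_sum]
      have h4 : ∑ p, altP H X ξ (b p) • tm H e (β p) = tm H e ξ := by
        conv_rhs => rw [← hβ' ξ, ← altT_apply, map_sum]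
        refine Finset.sum_congr rfl fun p _ => ?_
        rw [map_smul, altT_apply]
      rw [h4, ← hc, tm_smul_left, smul_smul]
      have h5 : N * (N * c)⁻¹ * c = 1 := by
        field_simp
      rw [h5, one_smul]
    exact LinearMap.congr_fun key v

theorem ret_alt {X D : C} (n : ℕ) (b : Module.Basis (Fin n) F (H.obj X)) (hX : Br H X X)
    (hD : Module.finrank F (H.obj D) = 1) (f : H.obj D →ₗ[F] H.obj (pw X n))
    (hf : f ∈ ah H D (pw X n)) (d : H.obj D) (hd : f d = dv H b)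
    (f' : H.obj (pw X n) →ₗ[F] H.obj D) (hf' : f' ∈ ah H (pw X n) D) (hne : f' (dv H b) ≠ 0) :
    Ret H Xᘁ (pw X (n - 1) ⊗ Dᘁ) := by
  cases n with
  | zero =>
    obtain ⟨β, hβ, hβ'⟩ := alt_dual H X b
    refine ⟨0, Submodule.zero_mem _, 0, Submodule.zero_mem _, fun v => ?_⟩
    rw [LinearMap.zero_apply, ← hβ' v, Finset.univ_eq_empty, Finset.sum_empty]
  | succ m =>
    have h1 := alt_main H m b hX hD f hf d hd f' hf' hne
    have hr : ∀ Y : C, Ret H Y Y := fun Y => ret_iso H (Iso.refl Y)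
    have h2 : Ret H Xᘁ (𝟙_ C ⊗ Xᘁ) := ret_iso H (λ_ Xᘁ).symm
    have h3 : Ret H (𝟙_ C ⊗ Xᘁ) ((Dᘁ ⊗ D) ⊗ Xᘁ) := ret_tensor H (unit_ret H hD) (hr _)
    have h4 : Ret H ((Dᘁ ⊗ D) ⊗ Xᘁ) (Dᘁ ⊗ (D ⊗ Xᘁ)) := ret_iso H (α_ Dᘁ D Xᘁ)
    have h5 : Ret H (Dᘁ ⊗ (D ⊗ Xᘁ)) (Dᘁ ⊗ pw X m) := ret_tensor H (hr _) h1
    have h6 : Ret H (Dᘁ ⊗ pw X m) (pw X m ⊗ Dᘁ) := ret_iso H (β_ Dᘁ (pw X m))
    exact ret_trans H h2 (ret_trans H h3 (ret_trans H h4 (ret_trans H h5 h6)))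

end Pool.Agent.MUW
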