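import Pool.Agent.MUW.Tate
import Pool.Agent.MUW.Alt
import Pool.Agent.KTT.Closure

/-!
# MUW: the Tate property for all tensor words in an object of Weil type
-/

set_option linter.unusedSectionVars false
set_option linter.unusedVariables false

namespace Pool.Agent.MUW

open CategoryTheory MonoidalCategory Limits TensorProduct Pool.Agent.KTT Pool.Agent.MUT

universe v u w w'

variable {C : Type u} [Category.{v} C] [Preadditive C] [HasBinaryBiproducts C]
  [MonoidalCategory C] [MonoidalPreadditive C] [RightRigidCategory C] [BraidedCategory C]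
  {F : Type w} [Field F] [CharZero F] [IsAlgClosed F] {H : C ⥤ ModuleCat.{w} F} [H.Additive]
  [H.Monoidal] {G : Type w'} [Group G] {ρ : G →* Aut H} {B : C}

private theorem main_br (M : WeilType H ρ B) (i : Fin M.l) : Br H (M.V i) (M.V i) := by
  obtain ⟨s, hs, h⟩ := M.braid
  exact ⟨s, hs, fun x y => h i i x y⟩

theorem weil_words (M : WeilType H ρ B) {W : C} (h : Word B W) :
    fixed H ρ W ≤ alg H W ∧ Semisimple H ρ W := by
  have hV : ∀ i, Nf H M.V M.R (M.V i)ᘁ := by
    intro i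
    obtain ⟨D, hD, h1, ⟨f, hf, d, hd⟩, f', hf', hne⟩ := M.det i
    refine ⟨M.r i - 1, fun _ => i, Dᘁ, M.dual D hD, ?_⟩
    rw [pv_const]
    exact ret_alt H (M.r i) (M.b i) (main_br M i) h1 f hf d hd f' hf' hne
  refine ths_induction (fun X => M.R X ∨ ∃ i, X = M.V i)
    (fun W => fixed H ρ W ≤ alg H W ∧ Semisimple H ρ W) ⟨𝟙_ C, Or.inl M.unit⟩ ?_ ?_ ?_ W
    (ths_word h M.gen)
  · intro Z hZ
    obtain ⟨n, c, L, hL, hr⟩ := nf_word H M.V M.R M.unit M.tensor M.dual hV hZ
    exact ⟨ret_tate H ρ hr (pv_tate M n c L hL), ret_ss H ρ hr (pv_ss M n c L hL)⟩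
  · exact fun X Y hX hY => ⟨tate_sum H ρ X Y hX.1 hY.1, semisimple_sum H ρ X Y hX.2 hY.2⟩
  · exact fun X Y i p hip hY => ⟨tate_retract H ρ X Y i p hip hY.1,
      semisimple_retract H ρ X Y i p hip hY.2⟩

end Pool.Agent.MUW
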