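import Pool.Agent.MUW.Ret
import Pool.Agent.MUT.Hom

/-!
# MUW: the braiding of a dual

Naturality of the braiding with `U` for the evaluation `Xᘁ ⊗ X ⟶ 𝟙_ C` and the hexagon: if `β (ξ ⊗ u) = ∑ u_k ⊗ ξ_k` then `s ∑ ⟨ξ_k, x⟩ u_k = ⟨ξ, x⟩ u` for all `x`
(`s` the sign of `(X, U)`), so `β (ξ ⊗ u) = s u ⊗ ξ`, because the pairing of `H(Xᘁ)` and `H(X)` is perfect.
-/

set_option linter.unusedSectionVars false
set_option linter.unusedVariables false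

namespace Pool.Agent.MUW

open CategoryTheory MonoidalCategory Limits TensorProduct Pool.Agent.KTT Pool.Agent.MUT

universe v u w w'

private theorem brd_hz {C : Type u} [Category.{v} C] [MonoidalCategory C] {D : Type*}
    [Category* D] [MonoidalCategory D] (H : C ⥤ D) [H.Monoidal] (X Y : C) [ExactPairing X Y] :
    H.obj Y ◁ (Functor.LaxMonoidal.ε H ≫ H.map (η_ X Y) ≫ Functor.OplaxMonoidal.δ H X Y) ≫
      (α_ (H.obj Y) (H.obj X) (H.obj Y)).inv ≫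
      (Functor.LaxMonoidal.μ H Y X ≫ H.map (ε_ X Y) ≫ Functor.OplaxMonoidal.η H) ▷ H.obj Y =
      (ρ_ (H.obj Y)).hom ≫ (λ_ (H.obj Y)).inv := by
  have h := congrArg H.map (ExactPairing.coevaluation_evaluation X Y)
  rw [H.map_comp, H.map_comp, H.map_comp, Functor.Monoidal.map_whiskerLeft,
    Functor.Monoidal.map_whiskerRight, Functor.Monoidal.map_associator_inv,
    Functor.Monoidal.map_rightUnitor, Functor.Monoidal.map_leftUnitor_inv] at h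
  simp only [Category.assoc, Functor.Monoidal.μ_δ_assoc] at h
  have h2 := congrArg (fun f => (H.obj Y ◁ Functor.LaxMonoidal.ε H ≫
    Functor.LaxMonoidal.μ H Y (𝟙_ C)) ≫ f ≫
    (Functor.OplaxMonoidal.δ H (𝟙_ C) Y ≫ Functor.OplaxMonoidal.η H ▷ H.obj Y)) h
  simp only [Category.assoc, Functor.Monoidal.μ_δ_assoc, Functor.Monoidal.whiskerLeft_ε_η_assoc,
    Functor.Monoidal.whiskerRight_ε_η, Category.comp_id] at h2
  simp only [MonoidalCategory.whiskerLeft_comp, comp_whiskerRight, Category.assoc]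
  exact h2

/-- the contraction `V ⊗ W → W` with the first factor, given by `y` -/
private noncomputable def brd_ct {F : Type w} [Field F] {V W : ModuleCat.{w} F}
    (e : W ⊗ V ⟶ 𝟙_ (ModuleCat.{w} F)) (y : W) : (V ⊗[F] W) →ₗ[F] W :=
  TensorProduct.lift ((LinearMap.lsmul F W).comp (e.hom.comp (TensorProduct.mk F W V y)))

private theorem brd_zig {F : Type w} [Field F] (V W : ModuleCat.{w} F)
    (c : 𝟙_ (ModuleCat.{w} F) ⟶ V ⊗ W) (e : W ⊗ V ⟶ 𝟙_ (ModuleCat.{w} F))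
    (h : W ◁ c ≫ (α_ W V W).inv ≫ e ▷ W = (ρ_ W).hom ≫ (λ_ W).inv) (y : W) :
    brd_ct e y (c.hom (1 : F)) = y := by
  have key : ∀ t : (V ⊗ W : ModuleCat.{w} F),
      (λ_ W).hom.hom ((e ▷ W).hom ((α_ W V W).inv.hom (y ⊗ₜ[F] t))) = brd_ct e y t := by
    intro t
    induction t using TensorProduct.induction_on with
    | zero => rw [TensorProduct.tmul_zero, map_zero, map_zero, map_zero, map_zero]
    | tmul a b => rfl
    | add s t hs ht => rw [TensorProduct.tmul_add, map_add, map_add, map_add, map_add, hs, ht]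
  have h4 := congrArg (fun f => (λ_ W).hom.hom (f.hom (y ⊗ₜ[F] (1 : F)))) h
  have h5 : (W ◁ c ≫ (α_ W V W).inv ≫ e ▷ W).hom (y ⊗ₜ[F] (1 : F)) =
      (e ▷ W).hom ((α_ W V W).inv.hom (y ⊗ₜ[F] (c.hom (1 : F)))) := rfl
  have h6 : (λ_ W).hom.hom (((ρ_ W).hom ≫ (λ_ W).inv).hom (y ⊗ₜ[F] (1 : F))) = y := by
    have h7 : (λ_ W).hom.hom (((ρ_ W).hom ≫ (λ_ W).inv).hom (y ⊗ₜ[F] (1 : F))) =
      (((ρ_ W).hom ≫ (λ_ W).inv) ≫ (λ_ W).hom).hom (y ⊗ₜ[F] (1 : F)) := rfl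
    rw [h7, Category.assoc, Iso.inv_hom_id, Category.comp_id]
    exact one_smul F y
  rw [← key]
  exact h4.trans h6

section aux

variable {C : Type u} [Category.{v} C] [MonoidalCategory C]
  {F : Type w} [Field F] {H : C ⥤ ModuleCat.{w} F} [H.Monoidal]

/-- the map `f_v` -/
private noncomputable def brd_f (H : C ⥤ ModuleCat.{w} F) [H.Monoidal] (X Y : C)
    [HasRightDual Y] : H.obj (X ⊗ Yᘁ) →ₗ[F] H.obj Y →ₗ[F] H.obj X :=
  (TensorProduct.mk F (H.obj (X ⊗ Yᘁ)) (H.obj Y)).compr₂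
    ((H.map ((α_ X Yᘁ Y).hom ≫ X ◁ ε_ Y Yᘁ ≫ (ρ_ X).hom)).hom ∘ₗ
      (Functor.LaxMonoidal.μ H (X ⊗ Yᘁ) Y).hom)

private theorem brd_f_apply (X Y : C) [HasRightDual Y] (v : H.obj (X ⊗ Yᘁ)) (y : H.obj Y) :
    brd_f H X Y v y = (H.map ((α_ X Yᘁ Y).hom ≫ X ◁ ε_ Y Yᘁ ≫ (ρ_ X).hom)).hom (tm H v y) :=
  rfl

/-- the pairing -/
private noncomputable def brd_e (H : C ⥤ ModuleCat.{w} F) [H.Monoidal] (Y : C)
    [HasRightDual Y] : H.obj Yᘁ ⊗ H.obj Y ⟶ 𝟙_ (ModuleCat.{w} F) :=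
  Functor.LaxMonoidal.μ H Yᘁ Y ≫ H.map (ε_ Y Yᘁ) ≫ Functor.OplaxMonoidal.η H

private noncomputable def brd_c (H : C ⥤ ModuleCat.{w} F) [H.Monoidal] (Y : C)
    [HasRightDual Y] : 𝟙_ (ModuleCat.{w} F) ⟶ H.obj Y ⊗ H.obj Yᘁ :=
  Functor.LaxMonoidal.ε H ≫ H.map (η_ Y Yᘁ) ≫ Functor.OplaxMonoidal.δ H Y Yᘁ

private theorem brd_un (w : H.obj (𝟙_ C)) :
    w = ((Functor.OplaxMonoidal.η H).hom w : F) • un H := by
  have h1 := congrArg (fun f => f.hom w) (Functor.Monoidal.η_ε H)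
  have h2 : (Functor.LaxMonoidal.ε H).hom ((Functor.OplaxMonoidal.η H).hom w) = w := h1
  have h3 : (Functor.LaxMonoidal.ε H).hom (((Functor.OplaxMonoidal.η H).hom w : F) • (1 : F)) =
      ((Functor.OplaxMonoidal.η H).hom w : F) • (Functor.LaxMonoidal.ε H).hom (1 : F) :=
    map_smul _ _ _
  rw [smul_eq_mul, mul_one] at h3
  exact h2.symm.trans h3

private theorem brd_f_tm (X Y : C) [HasRightDual Y] (x : H.obj X) (y' : H.obj Yᘁ)
    (a : H.obj Y) : brd_f H X Y (tm H x y') a = ((brd_e H Y).hom (y' ⊗ₜ[F] a) : F) • x := by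
  rw [brd_f_apply, H.map_comp, H.map_comp]
  have h1 : (H.map (α_ X Yᘁ Y).hom ≫ H.map (X ◁ ε_ Y Yᘁ) ≫ H.map (ρ_ X).hom).hom
      (tm H (tm H x y') a) = (H.map (ρ_ X).hom).hom ((H.map (X ◁ ε_ Y Yᘁ)).hom
        ((H.map (α_ X Yᘁ Y).hom).hom (tm H (tm H x y') a))) := rfl
  rw [h1, assoc_tm, ← id_tensorHom, map_tm, H.map_id]
  have h2 : (brd_e H Y).hom (y' ⊗ₜ[F] a) =
      (Functor.OplaxMonoidal.η H).hom ((H.map (ε_ Y Yᘁ)).hom (tm H y' a)) := rfl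
  rw [h2]
  have h3 := brd_un ((H.map (ε_ Y Yᘁ)).hom (tm H y' a))
  rw [h3, tm_smul_right, map_smul, ← h3]
  have h4 : (H.map (ρ_ X).hom).hom (tm H ((𝟙 (H.obj X) : H.obj X ⟶ H.obj X).hom x) (un H)) = x :=
    right_tm H x
  rw [h4]

/-- the map `f ↦ (f ⊗ 1) (η 1)` -/
private noncomputable def brd_p (H : C ⥤ ModuleCat.{w} F) [H.Monoidal] (X Y : C)
    [HasRightDual Y] : (H.obj Y →ₗ[F] H.obj X) →ₗ[F] H.obj (X ⊗ Yᘁ) :=
  (Functor.LaxMonoidal.μ H X Yᘁ).hom ∘ₗ (LinearMap.applyₗ ((brd_c H Y).hom (1 : F))) ∘ₗ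
    LinearMap.rTensorHom (H.obj Yᘁ)

private theorem brd_p_apply (X Y : C) [HasRightDual Y] (f : H.obj Y →ₗ[F] H.obj X) :
    brd_p H X Y f = (Functor.LaxMonoidal.μ H X Yᘁ).hom
      (LinearMap.rTensor (H.obj Yᘁ) f ((brd_c H Y).hom (1 : F))) := rfl

private theorem brd_pf (X Y : C) [HasRightDual Y] (v : H.obj (X ⊗ Yᘁ)) :
    brd_p H X Y (brd_f H X Y v) = v := by
  have h1 : brd_p H X Y ∘ₗ brd_f H X Y = LinearMap.id := by
    apply tm_ext H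
    intro x y'
    have key : ∀ t : (H.obj Y ⊗[F] H.obj Yᘁ), (Functor.LaxMonoidal.μ H X Yᘁ).hom
        (LinearMap.rTensor (H.obj Yᘁ) (brd_f H X Y (tm H x y')) t) =
        tm H x (brd_ct (brd_e H Y) y' t) := by
      intro t
      induction t using TensorProduct.induction_on with
      | zero =>
        rw [map_zero, map_zero, map_zero]
        exact ((tm_smul_right H 0 x 0).symm.trans (by rw [zero_smul])).symm ▸ (by simp [tm])
      | tmul a b =>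
        have h2 : (Functor.LaxMonoidal.μ H X Yᘁ).hom
          (LinearMap.rTensor (H.obj Yᘁ) (brd_f H X Y (tm H x y')) (a ⊗ₜ[F] b)) =
          tm H (brd_f H X Y (tm H x y') a) b := rfl
        have h3 : brd_ct (brd_e H Y) y' (a ⊗ₜ[F] b) =
          ((brd_e H Y).hom (y' ⊗ₜ[F] a) : F) • b := rfl
        rw [h2, h3, brd_f_tm, tm_smul_left, tm_smul_right]
      | add s t hs ht => rw [map_add, map_add, map_add, tm_add_right, hs, ht]
    change brd_p H X Y (brd_f H X Y (tm H x y')) = tm H x y'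
    rw [brd_p_apply, key]
    congr 1
    exact brd_zig (H.obj Y) (H.obj Yᘁ) (brd_c H Y) (brd_e H Y)
      (brd_hz H Y Yᘁ) y'
  exact congrArg (fun f => f v) h1

private theorem brd_inj (X Y : C) [HasRightDual Y] {v v' : H.obj (X ⊗ Yᘁ)}
    (h : ∀ y, brd_f H X Y v y = brd_f H X Y v' y) : v = v' := by
  rw [← brd_pf X Y v, ← brd_pf X Y v', LinearMap.ext h]

end aux

variable {C : Type u} [Category.{v} C] [MonoidalCategory C] [BraidedCategory C]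
  {F : Type w} [Field F] (H : C ⥤ ModuleCat.{w} F) [H.Monoidal]

private theorem brd_comp3 {X Y Z W : C} (f : X ⟶ Y) (g : Y ⟶ Z) (h : Z ⟶ W) (x : H.obj X) :
    (H.map (f ≫ g ≫ h)).hom x = (H.map h).hom ((H.map g).hom ((H.map f).hom x)) := by
  rw [H.map_comp, H.map_comp]
  rfl

private theorem brd_comp {X Y Z : C} (f : X ⟶ Y) (g : Y ⟶ Z) (x : H.obj X) :
    (H.map (f ≫ g)).hom x = (H.map g).hom ((H.map f).hom x) := by
  rw [H.map_comp]
  rfl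

private theorem brd_cat (X U : C) [HasRightDual X] :
    (α_ Xᘁ X U).inv ≫ ε_ X Xᘁ ▷ U ≫ (λ_ U).hom =
      (Xᘁ ◁ (β_ X U).hom ≫ (α_ Xᘁ U X).inv ≫ (β_ Xᘁ U).hom ▷ X) ≫
        ((α_ U Xᘁ X).hom ≫ U ◁ ε_ X Xᘁ ≫ (ρ_ U).hom) := by
  have h1 := BraidedCategory.hexagon_reverse Xᘁ X U
  have h2 : (β_ (Xᘁ ⊗ X) U).hom ≫ U ◁ ε_ X Xᘁ = ε_ X Xᘁ ▷ U ≫ (β_ (𝟙_ C) U).hom :=
    (BraidedCategory.braiding_naturality_left (ε_ X Xᘁ) U).symm
  have h3 : (β_ (𝟙_ C) U).hom ≫ (ρ_ U).hom = (λ_ U).hom := braiding_rightUnitor U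
  rw [← h1]
  simp only [Category.assoc, Iso.inv_hom_id_assoc]
  rw [← Category.assoc (β_ (Xᘁ ⊗ X) U).hom, h2, Category.assoc, h3]

theorem br_dual {X U : C} [HasRightDual X] (h : Br H X U) : Br H Xᘁ U := by
  obtain ⟨s, hs, hb⟩ := h
  refine ⟨s, hs, fun ξ u => ?_⟩
  apply brd_inj U X
  intro x
  have hss : s * s = 1 := by
    rcases hs with rfl | rfl
    · exact one_mul 1
    · rw [neg_mul_neg, one_mul]
  have key := congrArg (fun f => (H.map f).hom (tm H ξ (tm H x u))) (brd_cat X U)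
  rw [brd_comp3 H (α_ Xᘁ X U).inv, assoc_inv_tm, brd_comp H (Xᘁ ◁ (β_ X U).hom ≫ _) _,
    brd_comp3 H (Xᘁ ◁ (β_ X U).hom)] at key
  have e1 : (H.map (Xᘁ ◁ (β_ X U).hom)).hom (tm H ξ (tm H x u)) = s • tm H ξ (tm H u x) := by
    rw [← id_tensorHom, map_tm, H.map_id, hb, tm_smul_right]
    rfl
  have e2 : ∀ w : H.obj (Xᘁ ⊗ U), (H.map ((β_ Xᘁ U).hom ▷ X)).hom (tm H w x) =
      tm H ((H.map (β_ Xᘁ U).hom).hom w) x := by
    intro w
    rw [← tensorHom_id, map_tm, H.map_id]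
    rfl
  have e3 : (H.map (λ_ U).hom).hom ((H.map (ε_ X Xᘁ ▷ U)).hom (tm H (tm H ξ x) u)) =
      ((brd_e H X).hom (ξ ⊗ₜ[F] x) : F) • u := by
    rw [← tensorHom_id, map_tm, H.map_id]
    have h3 := brd_un ((H.map (ε_ X Xᘁ)).hom (tm H ξ x))
    have h2 : (brd_e H X).hom (ξ ⊗ₜ[F] x) =
        (Functor.OplaxMonoidal.η H).hom ((H.map (ε_ X Xᘁ)).hom (tm H ξ x)) := rfl
    rw [h2]
    rw [h3, tm_smul_left, map_smul, ← h3]
    have h4 : (H.map (λ_ U).hom).hom (tm H (un H) ((𝟙 (H.obj U) : H.obj U ⟶ H.obj U).hom u)) = u :=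
      left_tm H u
    rw [h4]
  rw [e1, map_smul, assoc_inv_tm, map_smul, e2, map_smul, e3] at key
  rw [map_smul, LinearMap.smul_apply, brd_f_tm, brd_f_apply, key, smul_smul, hss, one_smul]

end Pool.Agent.MUW
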