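import Pool.Agent.MUW.Defs

/-!
# MUW: from a Zariski dense set to the product of the groups `SL`
-/

set_option linter.unusedSectionVars false
set_option linter.unusedVariables false

namespace Pool.Agent.MUW

universe w

variable {F : Type w} [Field F] {l : ℕ} {r : Fin l → ℕ}

/-- the entries of `kr c h` are polynomials in the coordinates of `h` -/
theorem kr_poly {S : Type} [Fintype S] (c : S → Fin l) (a b : D r c) :
    ∃ p : MvPolynomial (Crd r) F, ∀ h : Tup F r,
      MvPolynomial.eval (crd h) p = kr c h a b := by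
  refine ⟨∏ s, MvPolynomial.X ⟨c s, (a s, b s)⟩, fun h => ?_⟩
  rw [map_prod]
  change _ = ∏ s, h (c s) (a s) (b s)
  refine Finset.prod_congr rfl fun s _ => ?_
  rw [MvPolynomial.eval_X]
  rfl

theorem kr_mul {S : Type} [Fintype S] [DecidableEq S] (c : S → Fin l) (h h' : Tup F r) :
    kr c (fun i => h i * h' i) = kr c h * kr c h' := by
  ext a b
  rw [Matrix.mul_apply]
  change ∏ s, (h (c s) * h' (c s)) (a s) (b s) =
    ∑ x : D r c, (∏ s, h (c s) (a s) (x s)) * ∏ s, h' (c s) (x s) (b s)
  simp only [Matrix.mul_apply]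
  rw [Finset.prod_univ_sum, Fintype.piFinset_univ]
  refine Finset.sum_congr rfl fun x _ => ?_
  rw [Finset.prod_mul_distrib]

theorem kr_one {S : Type} [Fintype S] [DecidableEq S] (c : S → Fin l) :
    kr c (fun i => (1 : Matrix (Fin (r i)) (Fin (r i)) F)) = 1 := by
  ext a b
  change ∏ s, (1 : Matrix (Fin (r (c s))) (Fin (r (c s))) F) (a s) (b s) = _
  by_cases hab : a = b
  · subst hab
    rw [Matrix.one_apply_eq]
    exact Finset.prod_eq_one fun s _ => Matrix.one_apply_eq _
  · rw [Matrix.one_apply_ne hab]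
    obtain ⟨s, hs⟩ : ∃ s, a s ≠ b s := by
      by_contra hcon
      push Not at hcon
      exact hab (funext hcon)
    exact Finset.prod_eq_zero (Finset.mem_univ s) (Matrix.one_apply_ne hs)

variable {P : Type*} [AddCommGroup P] [Module F P]

theorem inv_sl {Γ : Set (Tup F r)} (hΓ : Dense Γ) {S : Type} [Fintype S] [DecidableEq S]
    (c : S → Fin l) (x : D r c → P) (hx : ∀ h ∈ Γ, kv c h x = x) (h : Tup F r)
    (hh : Sl h) : kv c h x = x := by
  choose p hp using fun (a b : D r c) => kr_poly (F := F) c a b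
  funext a
  rw [← sub_eq_zero]
  rw [← Module.forall_dual_apply_eq_zero_iff F]
  intro φ
  have key : ∀ k : Tup F r, φ (kv c k x a - x a) =
      MvPolynomial.eval (crd k) (∑ b, p a b * MvPolynomial.C (φ (x b)) - MvPolynomial.C (φ (x a))) := by
    intro k
    rw [map_sub, map_sub, map_sum, MvPolynomial.eval_C]
    change φ (∑ b, kr c k a b • x b) - φ (x a) = _
    rw [map_sum]
    refine congrArg (fun t => t - φ (x a)) (Finset.sum_congr rfl fun b _ => ?_)
    rw [map_smul, map_mul, hp, MvPolynomial.eval_C, smul_eq_mul]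
  rw [key]
  refine hΓ _ (fun k hk => ?_) h hh
  rw [← key, hx k hk, sub_self, map_zero]

theorem stab_sl {Γ : Set (Tup F r)} (hΓ : Dense Γ) {S : Type} [Fintype S] [DecidableEq S]
    (c : S → Fin l) (W : Submodule F (D r c → P))
    (hW : ∀ h ∈ Γ, ∀ v ∈ W, kv c h v ∈ W) (h : Tup F r) (hh : Sl h) :
    ∀ v ∈ W, kv c h v ∈ W := by
  choose p hp using fun (a b : D r c) => kr_poly (F := F) c a b
  intro v hv
  rw [← Submodule.Quotient.mk_eq_zero, ← Submodule.mkQ_apply]
  rw [← Module.forall_dual_apply_eq_zero_iff F]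
  intro φ
  have key : ∀ k : Tup F r, φ (W.mkQ (kv c k v)) =
      MvPolynomial.eval (crd k)
        (∑ a, ∑ b, p a b * MvPolynomial.C (φ (W.mkQ (Pi.single a (v b))))) := by
    intro k
    have h1 : kv c k v = ∑ a, ∑ b, kr c k a b • (Pi.single a (v b) : D r c → P) := by
      funext x
      change ∑ b, kr c k x b • v b = _
      rw [Finset.sum_apply]
      refine Eq.symm ((Finset.sum_eq_single x ?_ ?_).trans ?_)
      · intro y _ hy
        rw [Finset.sum_apply]
        refine Finset.sum_eq_zero fun b _ => ?_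
        rw [Pi.smul_apply, Pi.single_eq_of_ne (Ne.symm hy), smul_zero]
      · intro hx
        exact absurd (Finset.mem_univ x) hx
      · rw [Finset.sum_apply]
        refine Finset.sum_congr rfl fun b _ => ?_
        rw [Pi.smul_apply, Pi.single_eq_same]
    rw [h1, map_sum, map_sum, map_sum]
    refine Finset.sum_congr rfl fun a _ => ?_
    rw [map_sum, map_sum, map_sum]
    refine Finset.sum_congr rfl fun b _ => ?_
    rw [map_smul, map_smul, map_mul, hp, MvPolynomial.eval_C, smul_eq_mul]
  rw [key]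
  refine hΓ _ (fun k hk => ?_) h hh
  rw [← key]
  have h2 : W.mkQ (kv c k v) = 0 := by
    rw [Submodule.mkQ_apply, Submodule.Quotient.mk_eq_zero]
    exact hW k hk v hv
  rw [h2, map_zero]

end Pool.Agent.MUW
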