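import Pool.Agent.MUW.Schur
import Pool.Agent.MUW.Inv

/-!
# MUW: semisimplicity of `V ⊗ P`

Over an algebraically closed field the tensor product of simple modules over two algebras is simple (Schur's lemma and the
density theorem), so a tensor product of semisimple modules is semisimple. `V = D r c → F` is semisimple for the
`kr c h`, `Sl h` (`compl_dense`), `V ⊗ P` consists of the functions `D r c → P`.
-/

set_option linter.unusedSectionVars false
set_option linter.unusedVariables false

namespace Pool.Agent.MUW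

universe w

variable {F : Type w} [Field F] {l : ℕ} {r : Fin l → ℕ}

section General

variable {E : Type*} [Field E] {M : Type*} [AddCommGroup M] [Module E M]

/-- a stable subspace as a submodule over the algebra generated by a set of maps -/
private def cvR (s : Set (Module.End E M)) (W : Submodule E M) (h : ∀ f ∈ s, ∀ v ∈ W, f v ∈ W) :
    Submodule (Algebra.adjoin E s) M where
  carrier := W
  add_mem' := W.add_mem
  zero_mem' := W.zero_mem
  smul_mem' := by
    rintro ⟨r, hr⟩ v hv
    have key : ∀ v ∈ W, r v ∈ W := by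
      induction hr using Algebra.adjoin_induction with
      | mem x hx => exact h x hx
      | algebraMap c => exact fun v hv => W.smul_mem c hv
      | add x y _ _ hx hy => exact fun v hv => W.add_mem (hx v hv) (hy v hv)
      | mul x y _ _ hx hy => exact fun v hv => hx _ (hy v hv)
    exact key v hv

/-- a submodule over the algebra as a subspace -/
private def cvF (s : Set (Module.End E M)) (N : Submodule (Algebra.adjoin E s) M) :
    Submodule E M where
  carrier := N
  add_mem' := N.add_mem
  zero_mem' := N.zero_mem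
  smul_mem' := fun c v hv => N.smul_mem (algebraMap E (Algebra.adjoin E s) c) hv

private theorem cvF_stable (s : Set (Module.End E M)) (N : Submodule (Algebra.adjoin E s) M) :
    ∀ f ∈ s, ∀ v ∈ cvF s N, f v ∈ cvF s N :=
  fun f hf v hv => N.smul_mem (⟨f, Algebra.subset_adjoin hf⟩ : Algebra.adjoin E s) hv

private theorem cv_ss (s : Set (Module.End E M))
    (H : ∀ W : Submodule E M, (∀ f ∈ s, ∀ v ∈ W, f v ∈ W) →
      ∃ W' : Submodule E M, (∀ f ∈ s, ∀ v ∈ W', f v ∈ W') ∧ IsCompl W W') :
    IsSemisimpleModule (Algebra.adjoin E s) M := by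
  rw [isSemisimpleModule_iff]
  refine ⟨fun N => ?_⟩
  obtain ⟨W', hW', hc⟩ := H (cvF s N) (cvF_stable s N)
  refine ⟨cvR s W' hW', ?_, ?_⟩
  · rw [Submodule.disjoint_def]
    intro x hx hx'
    exact (Submodule.disjoint_def.1 hc.disjoint) x hx hx'
  · rw [codisjoint_iff, eq_top_iff]
    intro x _
    have hx : x ∈ cvF s N ⊔ W' := by
      rw [codisjoint_iff.1 hc.codisjoint]
      trivial
    obtain ⟨y, hy, z, hz, rfl⟩ := Submodule.mem_sup.1 hx
    exact Submodule.mem_sup.2 ⟨y, hy, z, hz, rfl⟩

private theorem cv_compl (s : Set (Module.End E M)) (hs : IsSemisimpleModule (Algebra.adjoin E s) M)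
    (W : Submodule E M) (h : ∀ f ∈ s, ∀ v ∈ W, f v ∈ W) :
    ∃ W' : Submodule E M, (∀ f ∈ s, ∀ v ∈ W', f v ∈ W') ∧ IsCompl W W' := by
  obtain ⟨N, hN⟩ := exists_isCompl (cvR s W h)
  refine ⟨cvF s N, cvF_stable s N, ?_, ?_⟩
  · rw [Submodule.disjoint_def]
    intro x hx hx'
    exact (Submodule.disjoint_def.1 hN.disjoint) x hx hx'
  · rw [codisjoint_iff, eq_top_iff]
    intro x _
    have hx : x ∈ cvR s W h ⊔ N := by
      rw [codisjoint_iff.1 hN.codisjoint]
      trivial
    obtain ⟨y, hy, z, hz, rfl⟩ := Submodule.mem_sup.1 hx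
    exact Submodule.mem_sup.2 ⟨y, hy, z, hz, rfl⟩

end General

section Ten

variable {E : Type*} [Field E] {I : Type*} [Fintype I] [DecidableEq I] {P : Type*}
  [AddCommGroup P] [Module E P]

/-- `v ⊗ p` -/
private def tp (v : I → E) (p : P) : I → P := fun a => v a • p

private theorem cv_coord (T : Module.End E (I → E)) (v : I → E) (a : I) :
    T v a = ∑ c, v c * T (Pi.single c 1) a := by
  have h : T v = ∑ c, v c • T (Pi.single c 1) := by
    conv_lhs => rw [← Finset.univ_sum_single v]
    rw [map_sum]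
    refine Finset.sum_congr rfl fun c _ => ?_
    rw [← map_smul, ← Pi.single_smul', smul_eq_mul, mul_one]
  rw [h, Finset.sum_apply]
  rfl

/-- `T ⊗ 1` -/
private def tL : Module.End E (I → E) →ₐ[E] Module.End E (I → P) where
  toFun T :=
    { toFun := fun x a => ∑ b, T (Pi.single b 1) a • x b
      map_add' := fun x y => by
        funext a
        simp only [Pi.add_apply, smul_add, Finset.sum_add_distrib]
      map_smul' := fun c x => by
        funext a
        simp only [Pi.smul_apply, RingHom.id_apply, Finset.smul_sum]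
        exact Finset.sum_congr rfl fun b _ => smul_comm _ _ _ }
  map_one' := by
    refine LinearMap.ext fun x => ?_
    funext a
    change ∑ b, (Pi.single b 1 : I → E) a • x b = x a
    rw [Finset.sum_eq_single a]
    · rw [Pi.single_eq_same, one_smul]
    · intro b _ hb
      rw [Pi.single_eq_of_ne (Ne.symm hb), zero_smul]
    · intro h
      exact absurd (Finset.mem_univ a) h
  map_mul' T T' := by
    refine LinearMap.ext fun x => ?_
    funext a
    change ∑ b, T (T' (Pi.single b 1)) a • x b =
      ∑ c, T (Pi.single c 1) a • ∑ b, T' (Pi.single b 1) c • x b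
    have h1 : ∀ b, T (T' (Pi.single b 1)) a • x b =
        ∑ c, T (Pi.single c 1) a • T' (Pi.single b 1) c • x b := by
      intro b
      rw [cv_coord T, Finset.sum_smul]
      exact Finset.sum_congr rfl fun c _ => by rw [smul_smul, mul_comm]
    rw [Finset.sum_congr rfl fun b _ => h1 b, Finset.sum_comm]
    exact Finset.sum_congr rfl fun c _ => Finset.smul_sum.symm
  map_zero' := by
    refine LinearMap.ext fun x => ?_
    funext a
    change ∑ b, (0 : E) • x b = 0
    simp
  map_add' T T' := by
    refine LinearMap.ext fun x => ?_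
    funext a
    change ∑ b, (T (Pi.single b 1) a + T' (Pi.single b 1) a) • x b =
      (∑ b, T (Pi.single b 1) a • x b) + ∑ b, T' (Pi.single b 1) a • x b
    simp only [add_smul, Finset.sum_add_distrib]
  commutes' c := by
    refine LinearMap.ext fun x => ?_
    funext a
    change ∑ b, (c • (Pi.single b 1 : I → E)) a • x b = c • x a
    rw [Finset.sum_eq_single a]
    · rw [Pi.smul_apply, Pi.single_eq_same, smul_eq_mul, mul_one]
    · intro b _ hb
      rw [Pi.smul_apply, Pi.single_eq_of_ne (Ne.symm hb), smul_zero, zero_smul]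
    · intro h
      exact absurd (Finset.mem_univ a) h

private theorem tL_tp (T : Module.End E (I → E)) (v : I → E) (p : P) :
    tL T (tp v p) = tp (T v) p := by
  funext a
  change ∑ b, T (Pi.single b 1) a • v b • p = T v a • p
  rw [cv_coord T v a, Finset.sum_smul]
  exact Finset.sum_congr rfl fun c _ => by rw [smul_smul, mul_comm]

/-- `1 ⊗ T` -/
private def tRt (I : Type*) : Module.End E P →ₐ[E] Module.End E (I → P) where
  toFun T :=
    { toFun := fun x a => T (x a)
      map_add' := fun x y => by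
        funext a
        exact map_add T _ _
      map_smul' := fun c x => by
        funext a
        exact map_smul T c _ }
  map_one' := rfl
  map_mul' _ _ := rfl
  map_zero' := rfl
  map_add' _ _ := rfl
  commutes' _ := rfl

private theorem tRt_tp (T : Module.End E P) (v : I → E) (p : P) :
    tRt I T (tp v p) = tp v (T p) := by
  funext a
  exact map_smul T _ _

end Ten

section Simple

variable {E : Type*} [Field E] {V : Type*} [AddCommGroup V] [Module E V] {P : Type*}
  [AddCommGroup P] [Module E P] {T : Type*} [AddCommGroup T] [Module E T]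

/-- all maps `v ↦ φ v • v₀` of a simple module are given by elements of the algebra -/
private theorem cv_burn [IsAlgClosed E] [FiniteDimensional E V] (s : Set (Module.End E V))
    (V₁ : Submodule (Algebra.adjoin E s) V) (h : IsSimpleModule (Algebra.adjoin E s) V₁)
    {v₀ : V} (hv₀ : v₀ ∈ V₁) (φ : V →ₗ[E] E) :
    ∃ r ∈ Algebra.adjoin E s, ∀ v ∈ V₁, r v = φ v • v₀ := by
  classical
  have hfin : FiniteDimensional E V₁ :=
    Module.Finite.of_injective (V₁.subtype.restrictScalars E) Subtype.val_injective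
  have hsch := IsSimpleModule.algebraMap_end_bijective_of_isAlgClosed
    (A := Algebra.adjoin E s) (V := V₁) E
  let f : Module.End (Module.End (Algebra.adjoin E s) V₁) V₁ :=
    { toFun := fun v => φ (v : V) • (⟨v₀, hv₀⟩ : V₁)
      map_add' := fun v w => by
        rw [← add_smul, ← map_add]
        rfl
      map_smul' := fun ψ v => by
        obtain ⟨c, rfl⟩ := hsch.2 ψ
        rw [RingHom.id_apply]
        change φ (c • (v : V)) • (⟨v₀, hv₀⟩ : V₁) = c • (φ (v : V) • (⟨v₀, hv₀⟩ : V₁))
        rw [map_smul, smul_eq_mul, mul_smul] }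
  let b := Module.finBasis E (cvF s V₁)
  let b' : Fin (Module.finrank E (cvF s V₁)) → V₁ := fun i => ⟨(b i : V), (b i).2⟩
  obtain ⟨r, hr⟩ := jacobson_density f (Finset.univ.image b')
  refine ⟨r, r.2, ?_⟩
  let f₁ : cvF s V₁ →ₗ[E] V := (LinearMap.toSpanSingleton E V v₀ ∘ₗ φ) ∘ₗ (cvF s V₁).subtype
  let f₂ : cvF s V₁ →ₗ[E] V := (r : Module.End E V) ∘ₗ (cvF s V₁).subtype
  have h1 : f₂ = f₁ := by
    refine b.ext fun i => ?_
    have h2 := congrArg Subtype.val
      (hr (b' i) (Finset.mem_image_of_mem _ (Finset.mem_univ i)))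
    exact h2.symm
  intro v hv
  exact LinearMap.congr_fun h1 ⟨v, hv⟩

/-- the data of a tensor product -/
private structure TD (E V P T : Type*) [Field E] [AddCommGroup V] [Module E V] [AddCommGroup P]
    [Module E P] [AddCommGroup T] [Module E T] where
  t : V → P → T
  t_add : ∀ v v' p, t (v + v') p = t v p + t v' p
  t_add' : ∀ v p p', t v (p + p') = t v p + t v p'
  t_zero : ∀ p, t 0 p = 0
  t_zero' : ∀ v, t v 0 = 0
  L : Module.End E V →ₐ[E] Module.End E T
  R : Module.End E P →ₐ[E] Module.End E T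
  hL : ∀ f v p, L f (t v p) = t (f v) p
  hR : ∀ f v p, R f (t v p) = t v (f p)
  I : Type
  lam : I → V →ₗ[E] E
  mu : I → T →ₗ[E] P
  hmu : ∀ a v p, mu a (t v p) = lam a v • p
  t_smul : ∀ (c : E) v p, t v (c • p) = c • t v p
  t_smul' : ∀ (c : E) v p, t (c • v) p = c • t v p
  sepV : ∀ v, (∀ a, lam a v = 0) → v = 0
  sepT : ∀ y, (∀ a, mu a y = 0) → y = 0
  span : ∀ N : AddSubgroup T, (∀ v p, t v p ∈ N) → N = ⊤

variable (d : TD E V P T)

/-- `V₁ ⊗ P₁` -/
private def tU (V₁ : Set V) (P₁ : Set P) : Submodule E T :=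
  Submodule.span E {y | ∃ v ∈ V₁, ∃ p ∈ P₁, y = d.t v p}

variable (s : Set (Module.End E V)) (s' : Set (Module.End E P))

/-- the maps `f ⊗ 1`, `1 ⊗ g` -/
private def tS : Set (Module.End E T) := (d.L '' s) ∪ (d.R '' s')

private theorem tL_mem {r : Module.End E V} (hr : r ∈ Algebra.adjoin E s) :
    d.L r ∈ Algebra.adjoin E (tS d s s') := by
  have h1 : d.L r ∈ (Algebra.adjoin E s).map d.L := ⟨r, hr, rfl⟩
  rw [AlgHom.map_adjoin] at h1
  exact Algebra.adjoin_mono Set.subset_union_left h1

private theorem tRt_mem {r : Module.End E P} (hr : r ∈ Algebra.adjoin E s') :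
    d.R r ∈ Algebra.adjoin E (tS d s s') := by
  have h1 : d.R r ∈ (Algebra.adjoin E s').map d.R := ⟨r, hr, rfl⟩
  rw [AlgHom.map_adjoin] at h1
  exact Algebra.adjoin_mono Set.subset_union_right h1

private theorem tU_stable (V₁ : Submodule (Algebra.adjoin E s) V)
    (P₁ : Submodule (Algebra.adjoin E s') P) :
    ∀ f ∈ tS d s s', ∀ y ∈ tU d (V₁ : Set V) (P₁ : Set P), f y ∈
      tU d (V₁ : Set V) (P₁ : Set P) := by
  intro f hf y hy
  have h1 : tU d (V₁ : Set V) (P₁ : Set P) ≤
      (tU d (V₁ : Set V) (P₁ : Set P)).comap f := by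
    refine Submodule.span_le.2 ?_
    rintro _ ⟨v, hv, p, hp, rfl⟩
    rcases hf with ⟨g, hg, rfl⟩ | ⟨g, hg, rfl⟩
    · rw [SetLike.mem_coe, Submodule.mem_comap, d.hL]
      exact Submodule.subset_span ⟨_, cvF_stable s V₁ g hg v hv, p, hp, rfl⟩
    · rw [SetLike.mem_coe, Submodule.mem_comap, d.hR]
      exact Submodule.subset_span ⟨v, hv, _, cvF_stable s' P₁ g hg p hp, rfl⟩
  exact h1 hy

private theorem tU_mu (V₁ : Submodule (Algebra.adjoin E s) V)
    (P₁ : Submodule (Algebra.adjoin E s') P) {y : T}
    (hy : y ∈ tU d (V₁ : Set V) (P₁ : Set P)) (a : d.I) : d.mu a y ∈ P₁ := by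
  have h1 : tU d (V₁ : Set V) (P₁ : Set P) ≤ (cvF s' P₁).comap (d.mu a) := by
    refine Submodule.span_le.2 ?_
    rintro _ ⟨v, hv, p, hp, rfl⟩
    rw [SetLike.mem_coe, Submodule.mem_comap, d.hmu]
    exact (cvF s' P₁).smul_mem _ hp
  exact h1 hy

private theorem tU_simple [IsAlgClosed E] [FiniteDimensional E V]
    (V₁ : Submodule (Algebra.adjoin E s) V)
    (hV : IsSimpleModule (Algebra.adjoin E s) V₁)
    (P₁ : Submodule (Algebra.adjoin E s') P) (hP : IsSimpleModule (Algebra.adjoin E s') P₁) :
    IsSimpleModule (Algebra.adjoin E (tS d s s'))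
      (cvR (tS d s s') (tU d (V₁ : Set V) (P₁ : Set P)) (tU_stable d s s' V₁ P₁)) := by
  rw [isSimpleModule_iff_isAtom]
  refine ⟨fun h => ?_, fun Y hY => ?_⟩
  · obtain ⟨v, hv, hv0⟩ := Submodule.exists_mem_ne_zero_of_ne_bot
      ((isSimpleModule_iff_isAtom.1 hV).1)
    obtain ⟨p, hp, hp0⟩ := Submodule.exists_mem_ne_zero_of_ne_bot
      ((isSimpleModule_iff_isAtom.1 hP).1)
    have h1 : d.t v p ∈ (⊥ : Submodule (Algebra.adjoin E (tS d s s')) T) := by
      rw [← h]
      exact Submodule.subset_span ⟨v, hv, p, hp, rfl⟩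
    rw [Submodule.mem_bot] at h1
    apply hv0
    refine d.sepV v fun a => ?_
    have h2 := d.hmu a v p
    rw [h1, map_zero] at h2
    exact (smul_eq_zero.1 h2.symm).resolve_right hp0
  · by_contra hne
    obtain ⟨y, hy, hy0⟩ := Submodule.exists_mem_ne_zero_of_ne_bot hne
    have hyU : y ∈ tU d (V₁ : Set V) (P₁ : Set P) := hY.le hy
    obtain ⟨a, ha⟩ : ∃ a, d.mu a y ≠ 0 := by
      by_contra hcon
      push Not at hcon
      exact hy0 (d.sepT y hcon)
    have hya : d.mu a y ∈ P₁ := tU_mu d s s' V₁ P₁ hyU a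
    refine absurd hY (not_lt_of_ge ?_)
    have key : tU d (V₁ : Set V) (P₁ : Set P) ≤ cvF (tS d s s') Y := by
      refine Submodule.span_le.2 ?_
      rintro _ ⟨v₀, hv₀, p, hp, rfl⟩
      obtain ⟨r, hr, hrv⟩ := cv_burn s V₁ hV hv₀ (d.lam a)
      have h1 : d.L r y = d.t v₀ (d.mu a y) := by
        refine Submodule.span_induction (p := fun y _ => d.L r y = d.t v₀ (d.mu a y))
          ?_ ?_ ?_ ?_ hyU
        · rintro _ ⟨v, hv, p, hp, rfl⟩
          rw [d.hL, d.hmu, hrv v hv, d.t_smul, d.t_smul']
        · rw [map_zero, map_zero, d.t_zero']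
        · intro x y _ _ hx hy
          rw [map_add, map_add, d.t_add', hx, hy]
        · intro c x _ hx
          rw [map_smul, map_smul, d.t_smul, hx]
      have h3 : d.t v₀ (d.mu a y) ∈ Y := by
        rw [← h1]
        exact Y.smul_mem (⟨d.L r, tL_mem d s s' hr⟩ : Algebra.adjoin E (tS d s s')) hy
      have h4 : Submodule.span (Algebra.adjoin E s') {d.mu a y} = P₁ := by
        rcases (isSimpleModule_iff_isAtom.1 hP).le_iff.1
          ((Submodule.span_singleton_le_iff_mem _ _).2 hya) with h | h
        · exact absurd (Submodule.span_singleton_eq_bot.1 h) ha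
        · exact h
      have hp' : p ∈ P₁ := hp
      rw [← h4] at hp'
      obtain ⟨g, hg⟩ := Submodule.mem_span_singleton.1 hp'
      have h5 : (g : Module.End E P) (d.mu a y) = p := hg
      rw [← h5, ← d.hR]
      exact Y.smul_mem (⟨d.R g, tRt_mem d s s' g.2⟩ : Algebra.adjoin E (tS d s s')) h3
    exact key

private theorem ten_ss [IsAlgClosed E] [FiniteDimensional E V]
    (hV : IsSemisimpleModule (Algebra.adjoin E s) V)
    (hP : IsSemisimpleModule (Algebra.adjoin E s') P) :
    IsSemisimpleModule (Algebra.adjoin E (tS d s s')) T := by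
  let J := {V₁ : Submodule (Algebra.adjoin E s) V // IsSimpleModule (Algebra.adjoin E s) V₁} ×
    {P₁ : Submodule (Algebra.adjoin E s') P // IsSimpleModule (Algebra.adjoin E s') P₁}
  let N : J → Submodule (Algebra.adjoin E (tS d s s')) T := fun j =>
    cvR (tS d s s') (tU d (j.1.1 : Set V) (j.2.1 : Set P)) (tU_stable d s s' j.1.1 j.2.1)
  refine isSemisimpleModule_of_isSemisimpleModule_submodule' (p := N) (fun j => ?_) ?_
  · have := tU_simple d s s' j.1.1 j.1.2 j.2.1 j.2.2
    infer_instance
  · have h1 : (⨆ j, N j).toAddSubgroup = ⊤ := by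
      refine d.span _ fun v p => ?_
      have hv : v ∈ sSup {m : Submodule (Algebra.adjoin E s) V |
          IsSimpleModule (Algebra.adjoin E s) m} := by
        rw [IsSemisimpleModule.sSup_simples_eq_top (Algebra.adjoin E s) V]
        trivial
      have hp : p ∈ sSup {m : Submodule (Algebra.adjoin E s') P |
          IsSimpleModule (Algebra.adjoin E s') m} := by
        rw [IsSemisimpleModule.sSup_simples_eq_top (Algebra.adjoin E s') P]
        trivial
      rw [sSup_eq_iSup'] at hv hp
      refine Submodule.iSup_induction _ (motive := fun v => d.t v p ∈ ⨆ j, N j) hv ?_ ?_ ?_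
      · intro V₁ v hv
        refine Submodule.iSup_induction _ (motive := fun p => d.t v p ∈ ⨆ j, N j) hp ?_ ?_ ?_
        · intro P₁ p hp
          exact Submodule.mem_iSup_of_mem (p := N) (V₁, P₁)
            (Submodule.subset_span ⟨v, hv, p, hp, rfl⟩)
        · rw [d.t_zero']
          exact zero_mem _
        · intro x y hx hy
          rw [d.t_add']
          exact add_mem hx hy
      · rw [d.t_zero]
        exact zero_mem _
      · intro x y hx hy
        rw [d.t_add]
        exact add_mem hx hy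
    rw [eq_top_iff]
    intro x _
    have h2 : x ∈ (⨆ j, N j).toAddSubgroup := by
      rw [h1]
      trivial
    exact h2

end Simple

/-- the functions with values in `P` -/
private def cvD (E : Type*) [Field E] (I : Type) [Fintype I] [DecidableEq I] (P : Type*)
    [AddCommGroup P] [Module E P] : TD E (I → E) P (I → P) where
  t := tp
  t_add v v' p := by
    funext a
    exact add_smul _ _ _
  t_add' v p p' := by
    funext a
    exact smul_add _ _ _
  t_zero p := by
    funext a
    exact zero_smul _ _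
  t_zero' v := by
    funext a
    exact smul_zero _
  L := tL
  R := tRt I
  hL := tL_tp
  hR := tRt_tp
  I := I
  lam a := LinearMap.proj a
  mu a := LinearMap.proj a
  hmu _ _ _ := rfl
  t_smul c v p := by
    funext a
    exact smul_comm _ _ _
  t_smul' c v p := by
    funext a
    exact mul_smul _ _ _
  sepV v h := funext h
  sepT y h := funext h
  span N hN := by
    rw [eq_top_iff]
    intro x _
    have h1 : x = ∑ a, tp (Pi.single a (1 : E)) (x a) := by
      funext b
      rw [Finset.sum_apply, Finset.sum_eq_single b]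
      · change x b = (Pi.single b 1 : I → E) b • x b
        rw [Pi.single_eq_same, one_smul]
      · intro a _ ha
        change (Pi.single a 1 : I → E) b • x a = 0
        rw [Pi.single_eq_of_ne (Ne.symm ha), zero_smul]
      · intro h
        exact absurd (Finset.mem_univ b) h
    rw [h1]
    exact N.sum_mem fun a _ => hN _ _

theorem compl_vec [CharZero F] [IsAlgClosed F] {S : Type} [Fintype S] [DecidableEq S]
    (c : S → Fin l) {P : Type*} [AddCommGroup P] [Module F P] [FiniteDimensional F P] {G : Type*}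
    (τ : G → P →ₗ[F] P)
    (hP : ∀ W : Submodule F P, (∀ g, ∀ v ∈ W, τ g v ∈ W) →
      ∃ W' : Submodule F P, (∀ g, ∀ v ∈ W', τ g v ∈ W') ∧ IsCompl W W')
    (X : Submodule F (D r c → P)) (hX : ∀ h : Tup F r, Sl h → ∀ x ∈ X, kv c h x ∈ X)
    (hG : ∀ g, ∀ x ∈ X, (fun a => τ g (x a)) ∈ X) :
    ∃ X' : Submodule F (D r c → P), (∀ h : Tup F r, Sl h → ∀ x ∈ X', kv c h x ∈ X') ∧
      (∀ g, ∀ x ∈ X', (fun a => τ g (x a)) ∈ X') ∧ IsCompl X X' := by
  let s : Set (Module.End F (D r c → F)) := {f | ∃ h : Tup F r, Sl h ∧ f = (kr c h).mulVecLin}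
  let s' : Set (Module.End F P) := Set.range τ
  have hs : IsSemisimpleModule (Algebra.adjoin F s) (D r c → F) := by
    refine cv_ss s fun W hW => ?_
    obtain ⟨W', h1, h2⟩ := compl_dense (Γ := {h : Tup F r | Sl h}) (fun p hp h hh => hp h hh) c W
      (fun h hh v hv => hW _ ⟨h, hh, rfl⟩ v hv)
    refine ⟨W', ?_, h2⟩
    rintro _ ⟨h, hh, rfl⟩ v hv
    exact h1 h hh v hv
  have hs' : IsSemisimpleModule (Algebra.adjoin F s') P := by
    refine cv_ss s' fun W hW => ?_
    obtain ⟨W', h1, h2⟩ := hP W fun g v hv => hW _ ⟨g, rfl⟩ v hv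
    refine ⟨W', ?_, h2⟩
    rintro _ ⟨g, rfl⟩ v hv
    exact h1 g v hv
  have hss := ten_ss (cvD F (D r c) P) s s' hs hs'
  have hkv : ∀ (h : Tup F r) (x : D r c → P),
      (cvD F (D r c) P).L (kr c h).mulVecLin x = kv c h x := by
    intro h x
    funext a
    change ∑ b, (kr c h).mulVec (Pi.single b 1) a • x b = ∑ b, kr c h a b • x b
    refine Finset.sum_congr rfl fun b _ => ?_
    rw [Matrix.mulVec_single_one]
    rfl
  obtain ⟨X', h1, h2⟩ := cv_compl (tS (cvD F (D r c) P) s s') hss X (by
    rintro _ (⟨_, ⟨h, hh, rfl⟩, rfl⟩ | ⟨_, ⟨g, rfl⟩, rfl⟩) x hx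
    · rw [hkv]
      exact hX h hh x hx
    · exact hG g x hx)
  refine ⟨X', fun h hh x hx => ?_, fun g x hx => ?_, h2⟩
  · rw [← hkv]
    exact h1 _ (Or.inl ⟨_, ⟨h, hh, rfl⟩, rfl⟩) x hx
  · exact h1 _ (Or.inr ⟨_, ⟨g, rfl⟩, rfl⟩) x hx

end Pool.Agent.MUW
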