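import Mathlib

/-!
# MUW: words in spaces `V_1, …, V_l` of dimensions `r 1, …, r l`

`D r c` is the index set of the basis of `V_{c(s_1)} ⊗ V_{c(s_2)} ⊗ ⋯` (`s ∈ S`), `V_i = F^(r i)`.
-/

set_option linter.unusedSectionVars false
set_option linter.unusedVariables false

namespace Pool.Agent.MUW

universe w

variable {F : Type w} [Field F] {l : ℕ} {r : Fin l → ℕ}

/-- Matrices `h_1, …, h_l`, `h_i` of size `r i`. -/
abbrev Tup (F : Type w) {l : ℕ} (r : Fin l → ℕ) := (i : Fin l) → Matrix (Fin (r i)) (Fin (r i)) F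

/-- The labels of the basis of the tensor product of the `V_{c(s)}`, `s ∈ S`. -/
abbrev D {S : Type} {l : ℕ} (r : Fin l → ℕ) (c : S → Fin l) := (s : S) → Fin (r (c s))

/-- The matrix of the tensor product of the `h_{c(s)}`, `s ∈ S`. -/
def kr {S : Type} [Fintype S] (c : S → Fin l) (h : Tup F r) : Matrix (D r c) (D r c) F :=
  Matrix.of fun a b => ∏ s, h (c s) (a s) (b s)

/-- All matrices have determinant one. -/
def Sl (h : Tup F r) : Prop := ∀ i, (h i).det = 1

/-- The index set of the coordinates of `h_1, …, h_l`. -/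
abbrev Crd {l : ℕ} (r : Fin l → ℕ) := (i : Fin l) × (Fin (r i) × Fin (r i))

/-- The coordinates of `h_1, …, h_l`. -/
def crd (h : Tup F r) : Crd r → F := fun x => h x.1 x.2.1 x.2.2

/-- Every polynomial in the coordinates which vanishes on `Γ` vanishes on
`SL_(r 1)(F) × ⋯ × SL_(r l)(F)`. -/
def Dense (Γ : Set (Tup F r)) : Prop :=
  ∀ p : MvPolynomial (Crd r) F, (∀ h ∈ Γ, MvPolynomial.eval (crd h) p = 0) →
    ∀ h, Sl h → MvPolynomial.eval (crd h) p = 0

/-- Transport of labels along a bijection of the slots which preserves the colours. -/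
def act {S S' : Type} {c : S → Fin l} {c' : S' → Fin l} (φ : S' ≃ S)
    (e : ∀ s, c (φ s) = c' s) (a : D r c) : D r c' := fun s => Fin.cast (congrArg r (e s)) (a (φ s))

theorem act_val {S S' : Type} {c : S → Fin l} {c' : S' → Fin l} (φ : S' ≃ S)
    (e : ∀ s, c (φ s) = c' s) (a : D r c) (s : S') : (act φ e a s : ℕ) = a (φ s) := rfl

/-- The operator of a bijection of the slots which preserves the colours. -/
def pm {S S' : Type} {c : S → Fin l} {c' : S' → Fin l} (φ : S' ≃ S)
    (e : ∀ s, c (φ s) = c' s) : (D r c' → F) →ₗ[F] (D r c → F) := LinearMap.funLeft F F (act φ e)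

theorem pm_apply {S S' : Type} {c : S → Fin l} {c' : S' → Fin l} (φ : S' ≃ S)
    (e : ∀ s, c (φ s) = c' s) (x : D r c' → F) (a : D r c) : pm φ e x a = x (act φ e a) := rfl

theorem kr_act {S S' : Type} [Fintype S] [Fintype S'] {c : S → Fin l} {c' : S' → Fin l}
    (φ : S' ≃ S) (e : ∀ s, c (φ s) = c' s) (h : Tup F r) (a b : D r c) :
    kr c' h (act φ e a) (act φ e b) = kr c h a b := by
  have h1 : ∀ (i j : Fin l) (e : i = j) (x y : Fin (r i)),
      h j (Fin.cast (congrArg r e) x) (Fin.cast (congrArg r e) y) = h i x y := by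
    rintro i _ rfl x y
    rfl
  show (∏ s, h (c' s) (act φ e a s) (act φ e b s)) = ∏ s, h (c s) (a s) (b s)
  rw [← Equiv.prod_comp φ fun s => h (c s) (a s) (b s)]
  exact Finset.prod_congr rfl fun s _ => h1 _ _ (e s) _ _

theorem act_act {S S' S'' : Type} {c : S → Fin l} {c' : S' → Fin l} {c'' : S'' → Fin l} (φ : S' ≃ S)
    (e : ∀ s, c (φ s) = c' s) (ψ : S'' ≃ S') (e' : ∀ s, c' (ψ s) = c'' s) (a : D r c) :
    act ψ e' (act φ e a) = act (ψ.trans φ) (fun s => (e (ψ s)).trans (e' s)) a := by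
  funext s
  apply Fin.ext
  rfl

theorem act_refl {S : Type} {c : S → Fin l} (a : D r c) :
    act (Equiv.refl S) (fun _ => rfl) a = a := rfl

/-- `act φ e` as a bijection. -/
def actE {S S' : Type} {c : S → Fin l} {c' : S' → Fin l} (φ : S' ≃ S)
    (e : ∀ s, c (φ s) = c' s) : D r c ≃ D r c' where
  toFun := act φ e
  invFun := act φ.symm (fun s => by rw [← e, Equiv.apply_symm_apply])
  left_inv a := by
    funext s
    apply Fin.ext
    show (a (φ (φ.symm s)) : ℕ) = a s
    rw [Equiv.apply_symm_apply]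
  right_inv a := by
    funext s
    apply Fin.ext
    show (a (φ.symm (φ s)) : ℕ) = a s
    rw [Equiv.symm_apply_apply]

end Pool.Agent.MUW
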