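import Pool.Agent.MUT.Defs
import Pool.Agent.MUW.Mat

/-!
# MUW: definitions

Objects generated by `V_1, …, V_l` and by objects for which the Tate property is known, where the image of the group
contains a Zariski dense subset of `SL(V_1) × ⋯ × SL(V_l)`, independently of the known objects.
-/

namespace Pool.Agent.MUW

open CategoryTheory MonoidalCategory Limits TensorProduct Pool.Agent.KTT Pool.Agent.MUT

universe v u w w'

section Mat

variable {F : Type w} [Field F] {l : ℕ} {r : Fin l → ℕ}

/-- `kr c h` on functions with values in a vector space. -/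
def kv {S : Type} [Fintype S] [DecidableEq S] (c : S → Fin l) (h : Tup F r) {P : Type*}
    [AddCommGroup P] [Module F P] (x : D r c → P) : D r c → P := fun a => ∑ b, kr c h a b • x b

end Mat

section Cat

variable {C : Type u} [Category.{v} C] [Preadditive C] [HasBinaryBiproducts C]
  [MonoidalCategory C] [RightRigidCategory C]

/-- The objects generated by the objects with the property `P` under finite direct sums, tensor
products, duals and direct summands. -/
inductive Ths (P : C → Prop) : C → Prop
  | base (X : C) (h : P X) : Ths P X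
  | zero (X : C) (h : IsZero X) : Ths P X
  | sum (X Y : C) (hX : Ths P X) (hY : Ths P Y) : Ths P (X ⊞ Y)
  | tensor (X Y : C) (hX : Ths P X) (hY : Ths P Y) : Ths P (X ⊗ Y)
  | dual (X : C) (hX : Ths P X) : Ths P Xᘁ
  | summand (X Y : C) (i : X ⟶ Y) (p : Y ⟶ X) (h : i ≫ p = 𝟙 X) (hY : Ths P Y) : Ths P X

variable {F : Type w} [Field F] (H : C ⥤ ModuleCat.{w} F)

/-- The generator `∑ sgn(σ) b_(σ 1) ⊗ ⋯ ⊗ b_(σ n)` of the determinant line. -/
noncomputable def dv [H.Monoidal] {X : C} {n : ℕ} (b : Fin n → H.obj X) : H.obj (pw X n) :=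
  ∑ σ : Equiv.Perm (Fin n), ((Equiv.Perm.sign σ : ℤ) : F) • ml H n fun t => b (σ t)

/-- The object `B` is generated by `V_1, …, V_l` and by the objects of a class `R` which contains the
determinants of the `V_i`. The invariants in the objects of `R` are algebraic, and the elements of
`G` which act trivially on the objects of `R` are Zariski dense in the product of the `SL(V_i)`. -/
structure WeilType [BraidedCategory C] [H.Monoidal] {G : Type w'} [Group G] (ρ : G →* Aut H)
    (B : C) where
  tens : ∀ g, NatTrans.IsMonoidal (ρ g).hom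
  l : ℕ
  r : Fin l → ℕ
  V : Fin l → C
  /-- bases of the `H(V_i)` -/
  b : ∀ i, Module.Basis (Fin (r i)) F (H.obj (V i))
  /-- the exchange of `V_i` and `V_k` is the commutativity isomorphism, up to a sign -/
  braid : ∃ s : F, (s = 1 ∨ s = -1) ∧ ∀ (i k : Fin l) (x : H.obj (V i)) (y : H.obj (V k)),
    (H.map (β_ (V i) (V k)).hom).hom (tm H x y) = s • tm H y x
  R : C → Prop
  unit : R (𝟙_ C)
  tensor : ∀ X Y, R X → R Y → R (X ⊗ Y)
  dual : ∀ X, R X → R Xᘁ
  tate : ∀ X, R X → fixed H ρ X ≤ alg H X ∧ Semisimple H ρ X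
  /-- the determinant of `V_i` belongs to `R` -/
  det : ∀ i, ∃ D, R D ∧ Module.finrank F (H.obj D) = 1 ∧
    (∃ f ∈ ah H D (pw (V i) (r i)), ∃ d, f d = dv H (b i)) ∧
    ∃ f ∈ ah H (pw (V i) (r i)) D, f (dv H (b i)) ≠ 0
  dense : Dense {h : Tup F r | ∃ g, (∀ X, R X → ∀ v, ((ρ g).hom.app X).hom v = v) ∧
    ∀ i x, ((ρ g).hom.app (V i)).hom (b i x) = ∑ y, h i y x • b i y}
  gen : Ths (fun X => R X ∨ ∃ i, X = V i) B

end Cat

end Pool.Agent.MUW
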