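import Pool.Agent.MUW.Schur

/-!
# MUW: the invariants of the product of the `SL(V_i)` in a tensor product of the `V_i`

Suppose there is an invariant `x ≠ 0`. If `ζ` is a primitive root of unity of order `r i` (`r i > 0`), the element `(1, …, ζ, …, 1)` acts by `ζ ^ #{s | c s = i}`, so
`r i ∣ #{s | c s = i}`, and there is a bijection `φ` as below for suitable `k`, `γ` (if some `r (c s) = 0` then `D r c` is empty). With one such `φ`, `y = dl F φ` satisfies `kr c h y = y` and
`(kr c h)ᵀ y = y` if `Sl h`, and `⟨y, y⟩ = ∏ (r (γ κ))! ≠ 0`; for every invariant `x` the operator `z ↦ ⟨y, z⟩ x` commutes with all `kr c h`, `Sl h`, so by `comm_dense` (`Γ = {h | Sl h}`) it is a combination of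
permutations, and `x` is a combination of the `pm σ _ (dl F φ) = dl F φ'`.
-/

set_option linter.unusedSectionVars false
set_option linter.unusedVariables false

namespace Pool.Agent.MUW

universe w

variable (F : Type w) [Field F] {l : ℕ} {r : Fin l → ℕ}

/-- The product of the determinant tensors of the blocks `κ`, of colour `γ κ`. -/
noncomputable def dl {k n : ℕ} {c : Fin n → Fin l} {γ : Fin k → Fin l}
    (φ : Fin n ≃ Σ κ : Fin k, Fin (r (γ κ))) (a : D r c) : F :=
  ∏ κ, Matrix.det (Matrix.of fun p q : Fin (r (γ κ)) =>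
    if (a (φ.symm ⟨κ, p⟩) : ℕ) = (q : ℕ) then (1 : F) else 0)

/-- the colours of the blocks -/
private abbrev ftc {k : ℕ} (γ : Fin k → Fin l) : (Σ κ : Fin k, Fin (r (γ κ))) → Fin l :=
  fun x => γ x.1

/-- the product of the determinant tensors, in the standard order of the slots -/
private noncomputable def ft0 {k : ℕ} (γ : Fin k → Fin l) (a : D r (ftc (r := r) γ)) : F :=
  ∏ κ, Matrix.det (Matrix.of fun p q : Fin (r (γ κ)) =>
    if (a ⟨κ, p⟩ : ℕ) = (q : ℕ) then (1 : F) else 0)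

variable {F}

private theorem ft_blk {m : ℕ} (M : Matrix (Fin m) (Fin m) F) (a : Fin m → Fin m) :
    ∑ b : Fin m → Fin m, (∏ p, M (a p) (b p)) *
      Matrix.det (Matrix.of fun p q : Fin m => if (b p : ℕ) = (q : ℕ) then (1 : F) else 0) =
    Matrix.det (Matrix.of fun p q : Fin m => if (a p : ℕ) = (q : ℕ) then (1 : F) else 0) *
      M.det := by
  have h1 : ∀ b : Fin m → Fin m,
      (Matrix.of fun p q : Fin m => if (b p : ℕ) = (q : ℕ) then (1 : F) else 0) =
      Matrix.of fun p : Fin m => (fun q => if b p = q then (1 : F) else 0) := by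
    intro b
    ext p q
    simp only [Matrix.of_apply, Fin.ext_iff]
  have h2 : (Matrix.of fun p : Fin m => (fun q => if a p = q then (1 : F) else 0)) * M =
      Matrix.of fun p : Fin m => ∑ j, M (a p) j • (fun q => if j = q then (1 : F) else 0) := by
    ext p q
    rw [Matrix.mul_apply, Matrix.of_apply, Finset.sum_apply]
    simp only [Matrix.of_apply, Pi.smul_apply, smul_eq_mul, ite_mul, one_mul, zero_mul, mul_ite,
      mul_one, mul_zero]
    rw [Finset.sum_ite_eq, if_pos (Finset.mem_univ _), Finset.sum_ite_eq', if_pos (Finset.mem_univ _)]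
  rw [h1, ← Matrix.det_mul, h2]
  have h3 := (Matrix.detRowAlternating (R := F) (n := Fin m)).toMultilinearMap.map_sum
    (fun (p : Fin m) (j : Fin m) => M (a p) j • (fun q => if j = q then (1 : F) else 0))
  refine Eq.trans ?_ h3.symm
  refine Finset.sum_congr rfl fun b _ => ?_
  rw [h1]
  refine Eq.trans ?_ (MultilinearMap.map_smul_univ _ (fun p => M (a p) (b p))
    (fun p => (fun q => if b p = q then (1 : F) else 0))).symm
  rfl

private theorem ft_inv {k : ℕ} (γ : Fin k → Fin l) (h : Tup F r) (hh : Sl h) :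
    (kr (ftc (r := r) γ) h).mulVec (ft0 F γ) = ft0 F γ := by
  funext a
  show ∑ b : D r (ftc (r := r) γ), (∏ x : (Σ κ : Fin k, Fin (r (γ κ))), h (γ x.1) (a x) (b x)) *
    ft0 F γ b = ft0 F γ a
  have h1 : ∀ b : D r (ftc (r := r) γ),
      (∏ x : (Σ κ : Fin k, Fin (r (γ κ))), h (γ x.1) (a x) (b x)) * ft0 F γ b =
      ∏ κ, ((∏ p, h (γ κ) (a ⟨κ, p⟩) (b ⟨κ, p⟩)) *
        Matrix.det (Matrix.of fun p q : Fin (r (γ κ)) =>
          if (b ⟨κ, p⟩ : ℕ) = (q : ℕ) then (1 : F) else 0)) := by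
    intro b
    rw [Finset.prod_mul_distrib, Fintype.prod_sigma]
    rfl
  rw [Finset.sum_congr rfl fun b _ => h1 b]
  let E : D r (ftc (r := r) γ) ≃ ((κ : Fin k) → Fin (r (γ κ)) → Fin (r (γ κ))) :=
    Equiv.piCurry fun κ (_ : Fin (r (γ κ))) => Fin (r (γ κ))
  have h2 := Equiv.sum_comp E (fun b => ∏ κ, ((∏ p, h (γ κ) (a ⟨κ, p⟩) (b κ p)) *
        Matrix.det (Matrix.of fun p q : Fin (r (γ κ)) =>
          if (b κ p : ℕ) = (q : ℕ) then (1 : F) else 0)))
  refine Eq.trans h2 ?_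
  have h3 := Finset.prod_univ_sum (fun κ : Fin k => (Finset.univ : Finset (Fin (r (γ κ)) → Fin (r (γ κ)))))
    (fun κ b => ((∏ p, h (γ κ) (a ⟨κ, p⟩) (b p)) *
        Matrix.det (Matrix.of fun p q : Fin (r (γ κ)) =>
          if (b p : ℕ) = (q : ℕ) then (1 : F) else 0)))
  rw [Fintype.piFinset_univ] at h3
  refine Eq.trans h3.symm ?_
  refine Finset.prod_congr rfl fun κ _ => ?_
  have h4 := ft_blk (h (γ κ)) (fun p => a ⟨κ, p⟩)
  refine Eq.trans h4 ?_
  rw [hh, mul_one]

private theorem ft_pos [CharZero F] {k : ℕ} (γ : Fin k → Fin l) :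
    ∑ a : D r (ftc (r := r) γ), ft0 F γ a * ft0 F γ a ≠ 0 := by
  let z : D r (ftc (r := r) γ) → ℤ := fun a =>
    ∏ κ, Matrix.det (Matrix.of fun p q : Fin (r (γ κ)) =>
      if (a ⟨κ, p⟩ : ℕ) = (q : ℕ) then (1 : ℤ) else 0)
  have h1 : ∀ a, ft0 F γ a = ((z a : ℤ) : F) := by
    intro a
    show _ = (Int.castRingHom F) (∏ κ, _)
    rw [map_prod]
    refine Finset.prod_congr rfl fun κ _ => ?_
    rw [RingHom.map_det]
    congr 1
    ext p q
    simp only [Matrix.of_apply, RingHom.mapMatrix_apply, Matrix.map_apply]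
    split_ifs with h
    · rw [map_one]
    · rw [map_zero]
  have h2 : ∑ a : D r (ftc (r := r) γ), ft0 F γ a * ft0 F γ a = ((∑ a, z a * z a : ℤ) : F) := by
    rw [Int.cast_sum]
    refine Finset.sum_congr rfl fun a _ => ?_
    rw [h1, Int.cast_mul]
  rw [h2, Int.cast_ne_zero]
  let a0 : D r (ftc (r := r) γ) := fun x => x.2
  have h3 : z a0 = 1 := by
    refine Finset.prod_eq_one fun κ _ => ?_
    have h4 : (Matrix.of fun p q : Fin (r (γ κ)) =>
      if (a0 ⟨κ, p⟩ : ℕ) = (q : ℕ) then (1 : ℤ) else 0) = 1 := by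
      ext p q
      rw [Matrix.of_apply, Matrix.one_apply]
      simp only [a0, Fin.ext_iff]
    rw [h4, Matrix.det_one]
  have h5 : 0 < ∑ a, z a * z a := by
    refine Finset.sum_pos' (fun a _ => mul_self_nonneg _) ⟨a0, Finset.mem_univ _, ?_⟩
    rw [h3]
    norm_num
  exact h5.ne'

private theorem ft_dl {k n : ℕ} {c : Fin n → Fin l} {γ : Fin k → Fin l}
    (φ : Fin n ≃ Σ κ : Fin k, Fin (r (γ κ))) (e : ∀ s, c (φ.symm s) = ftc (r := r) γ s) :
    (dl F φ : D r c → F) = pm φ.symm e (ft0 F γ) := rfl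

private theorem ft_scal {S : Type} [Fintype S] [DecidableEq S] (c : S → Fin l) (t : Fin l → F) :
    kr c (fun i => t i • (1 : Matrix (Fin (r i)) (Fin (r i)) F)) = (∏ s, t (c s)) • 1 := by
  ext a b
  change ∏ s, (t (c s) • (1 : Matrix (Fin (r (c s))) (Fin (r (c s))) F)) (a s) (b s) = _
  simp only [Matrix.smul_apply, smul_eq_mul, Finset.prod_mul_distrib]
  congr 1
  by_cases hab : a = b
  · subst hab
    rw [Matrix.one_apply_eq]
    exact Finset.prod_eq_one fun s _ => Matrix.one_apply_eq _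
  · rw [Matrix.one_apply_ne hab]
    obtain ⟨s, hs⟩ : ∃ s, a s ≠ b s := by
      by_contra hcon
      push Not at hcon
      exact hab (funext hcon)
    exact Finset.prod_eq_zero (Finset.mem_univ s) (Matrix.one_apply_ne hs)

private theorem ft_card [CharZero F] [IsAlgClosed F] {n : ℕ} (c : Fin n → Fin l)
    (x : D r c → F) (hx : ∀ h : Tup F r, Sl h → (kr c h).mulVec x = x) (h0 : x ≠ 0) (i : Fin l) :
    r i ∣ (Finset.univ.filter fun s => c s = i).card := by
  obtain ⟨a, ha⟩ := Function.ne_iff.1 h0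
  rcases Nat.eq_zero_or_pos (r i) with hr | hr
  · rw [hr, zero_dvd_iff, Finset.card_eq_zero, Finset.filter_eq_empty_iff]
    intro s _ hs
    have h1 : 0 < r (c s) := Nat.lt_of_le_of_lt (Nat.zero_le _) (a s).2
    rw [hs, hr] at h1
    exact Nat.not_lt_zero _ h1
  · have : NeZero (r i) := ⟨hr.ne'⟩
    have : NeZero ((r i : ℕ) : F) := ⟨Nat.cast_ne_zero.2 hr.ne'⟩
    obtain ⟨ζ, hζ⟩ := HasEnoughRootsOfUnity.exists_primitiveRoot F (r i)
    let t : Fin l → F := fun j => if j = i then ζ else 1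
    have h1 := hx (fun j => t j • (1 : Matrix (Fin (r j)) (Fin (r j)) F)) (fun j => by
      rw [Matrix.det_smul, Matrix.det_one, mul_one, Fintype.card_fin]
      by_cases hj : j = i
      · rw [hj]
        simp only [t, if_pos]
        exact hζ.pow_eq_one
      · simp only [t, if_neg hj, one_pow])
    rw [ft_scal, Matrix.smul_mulVec, Matrix.one_mulVec] at h1
    have h2 := congrFun h1 a
    rw [Pi.smul_apply, smul_eq_mul] at h2
    have h3 : ∏ s, t (c s) = 1 := mul_right_cancel₀ ha (h2.trans (one_mul _).symm)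
    have h4 : ∏ s, t (c s) = ζ ^ (Finset.univ.filter fun s => c s = i).card := by
      rw [Finset.prod_ite, Finset.prod_const, Finset.prod_const_one, mul_one]
    rw [h4] at h3
    exact hζ.dvd_of_pow_eq_one _ h3

private theorem ft_bij {n : ℕ} (c : Fin n → Fin l)
    (hc : ∀ i, r i ∣ (Finset.univ.filter fun s => c s = i).card) :
    ∃ (k : ℕ) (γ : Fin k → Fin l) (φ : Fin n ≃ Σ κ : Fin k, Fin (r (γ κ))),
      ∀ s, c s = γ (φ s).1 := by
  choose m hm using hc
  let e : (Σ i : Fin l, Fin (m i)) ≃ Fin (∑ i, m i) := finSigmaFinEquiv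
  let γ : Fin (∑ i, m i) → Fin l := fun κ => (e.symm κ).1
  have h1 : ∀ i, Nonempty ({s // c s = i} ≃ {x : (Σ κ : Fin (∑ i, m i), Fin (r (γ κ))) // γ x.1 = i}) := by
    intro i
    refine ⟨Fintype.equivOfCardEq ?_⟩
    have hγ : ∀ x, γ (e x) = x.1 := fun x => congrArg Sigma.fst (e.symm_apply_apply x)
    rw [Fintype.card_subtype, hm, Fintype.card_subtype, Finset.card_filter, Fintype.sum_sigma]
    have h2 : ∀ κ : Fin (∑ i, m i), (∑ p : Fin (r (γ κ)), if γ (⟨κ, p⟩ :
        (Σ κ : Fin (∑ i, m i), Fin (r (γ κ)))).1 = i then 1 else 0) =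
        (fun j => if j = i then r j else 0) (γ κ) := by
      intro κ
      by_cases hκ : γ κ = i
      · simp only [hκ, if_true, Finset.sum_const, Finset.card_univ, Fintype.card_fin, smul_eq_mul,
          mul_one]
      · simp only [hκ, if_false, Finset.sum_const_zero]
    rw [Finset.sum_congr rfl fun κ _ => h2 κ, ← Equiv.sum_comp e]
    simp only [hγ]
    rw [Fintype.sum_sigma]
    simp only [Finset.sum_const, Finset.card_univ, Fintype.card_fin, smul_eq_mul, mul_ite,
      mul_zero]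
    rw [Finset.sum_ite_eq', if_pos (Finset.mem_univ _), mul_comm]
  refine ⟨∑ i, m i, γ, Equiv.ofFiberEquiv (f := c)
    (g := fun x : (Σ κ : Fin (∑ i, m i), Fin (r (γ κ))) => γ x.1) fun i => (h1 i).some, fun s => ?_⟩
  exact (Equiv.ofFiberEquiv_map (f := c)
    (g := fun x : (Σ κ : Fin (∑ i, m i), Fin (r (γ κ))) => γ x.1) (fun i => (h1 i).some) s).symm

theorem fft [CharZero F] [IsAlgClosed F] {n : ℕ} (c : Fin n → Fin l) :
    (∀ x : D r c → F, (∀ h : Tup F r, Sl h → (kr c h).mulVec x = x) → x = 0) ∨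
    ∃ (k : ℕ) (γ : Fin k → Fin l), ∀ x : D r c → F,
      (∀ h : Tup F r, Sl h → (kr c h).mulVec x = x) → x ∈ Submodule.span F {y : D r c → F |
        ∃ φ : Fin n ≃ Σ κ : Fin k, Fin (r (γ κ)), (∀ s, c s = γ (φ s).1) ∧ y = dl F φ} := by
  by_cases hx0 : ∀ x : D r c → F, (∀ h : Tup F r, Sl h → (kr c h).mulVec x = x) → x = 0
  · exact Or.inl hx0
  right
  push Not at hx0
  obtain ⟨x₀, hx1, hx2⟩ := hx0
  obtain ⟨k, γ, φ, hφ⟩ := ft_bij c (ft_card c x₀ hx1 hx2)
  refine ⟨k, γ, fun x hx => ?_⟩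
  have e : ∀ s, c (φ.symm s) = ftc (r := r) γ s := fun s => by
    rw [hφ, Equiv.apply_symm_apply]
  let y : D r c → F := dl F φ
  have hy1 : ∀ h : Tup F r, Sl h → (kr c h).mulVec y = y := by
    intro h hh
    show (kr c h).mulVec (pm φ.symm e (ft0 F γ)) = pm φ.symm e (ft0 F γ)
    rw [← pm_kr, ft_inv γ h hh]
  have hy2 : ∀ h : Tup F r, Sl h → (kr c h).vecMul y = y := by
    intro h hh
    rw [← Matrix.mulVec_transpose]
    have h1 : (kr c h).transpose = kr c fun i => (h i).transpose := rfl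
    rw [h1]
    exact hy1 _ fun i => (Matrix.det_transpose (h i)).trans (hh i)
  have hy3 : y ⬝ᵥ y ≠ 0 := by
    have h1 : y ⬝ᵥ y = ∑ a : D r (ftc (r := r) γ), ft0 F γ a * ft0 F γ a := by
      refine Eq.trans ?_ (Equiv.sum_comp (actE φ.symm e) fun a => ft0 F γ a * ft0 F γ a)
      rfl
    rw [h1]
    exact ft_pos γ
  let f : (D r c → F) →ₗ[F] (D r c → F) :=
    { toFun := fun z => (y ⬝ᵥ z) • x
      map_add' := fun z z' => by rw [dotProduct_add, add_smul]
      map_smul' := fun t z => by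
        rw [dotProduct_smul, smul_eq_mul, mul_smul, RingHom.id_apply] }
  have hf : f ∈ Submodule.span F {p : (D r c → F) →ₗ[F] (D r c → F) |
      ∃ (σ : Equiv.Perm (Fin n)) (e : ∀ s, c (σ s) = c s), p = pm σ e} := by
    refine comm_dense (Γ := {h | Sl h}) (fun p hp h hh => hp h hh) c f fun h hh => ?_
    refine LinearMap.ext fun z => ?_
    show (y ⬝ᵥ (kr c h).mulVec z) • x = (kr c h).mulVec ((y ⬝ᵥ z) • x)
    rw [Matrix.mulVec_smul, hx h hh, Matrix.dotProduct_mulVec, hy2 h hh]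
  have h1 : x = (y ⬝ᵥ y)⁻¹ • f y := by
    show x = (y ⬝ᵥ y)⁻¹ • (y ⬝ᵥ y) • x
    rw [smul_smul, inv_mul_cancel₀ hy3, one_smul]
  rw [h1]
  refine Submodule.smul_mem _ _ ?_
  refine Submodule.span_induction (p := fun g _ => g y ∈ Submodule.span F {y : D r c → F |
        ∃ φ : Fin n ≃ Σ κ : Fin k, Fin (r (γ κ)), (∀ s, c s = γ (φ s).1) ∧ y = dl F φ})
      ?_ ?_ ?_ ?_ hf
  · rintro _ ⟨σ, eσ, rfl⟩
    refine Submodule.subset_span ⟨σ.symm.trans φ, fun s => ?_, ?_⟩
    · have h2 := eσ (σ.symm s)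
      rw [Equiv.apply_symm_apply] at h2
      rw [Equiv.trans_apply, ← hφ, h2]
    · rfl
  · exact Submodule.zero_mem _
  · intro g g' _ _ hg hg'
    exact Submodule.add_mem _ hg hg'
  · intro t g _ hg
    exact Submodule.smul_mem _ _ hg

end Pool.Agent.MUW
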