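import Pool.Agent.MUW.Act
import Pool.Agent.MUW.Fft
import Pool.Agent.MUT.PermU
import Pool.Agent.MUT.Flat

/-!
# MUW: the products of determinants are algebraic

Induction on `k` (as in `MUT.Flat`): `D = D_(γ 0) ⊗ (⋯)`, the map `D_(γ 0) → V^(⊗ r) → U^(⊗ r)` (`ah_pw`), `cat_ml` and `perm_ml` for the given `φ`.
-/

set_option linter.unusedSectionVars false
set_option linter.unusedVariables false

namespace Pool.Agent.MUW

open CategoryTheory MonoidalCategory Limits TensorProduct Pool.Agent.KTT Pool.Agent.MUT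

universe v u w w'

variable {C : Type u} [Category.{v} C] [MonoidalCategory C] [BraidedCategory C]
  {F : Type w} [Field F] (H : C ⥤ ModuleCat.{w} F) [H.Monoidal]
  {l : ℕ} {r : Fin l → ℕ} {V : Fin l → C}
  (b : ∀ i, Module.Basis (Fin (r i)) F (H.obj (V i))) {U : C} (inc : ∀ i, V i ⟶ U)

/-- the vectors of a family of permutations -/
private noncomputable def DetX {k : ℕ} {γ : Fin k → Fin l}
    (τ : ∀ κ, Equiv.Perm (Fin (r (γ κ)))) (x : Σ κ : Fin k, Fin (r (γ κ))) : H.obj U :=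
  jj H b inc (γ x.1) (τ x.1 x.2)

/-- the signed sum over the families of permutations -/
private noncomputable def DetW {k n : ℕ} {γ : Fin k → Fin l}
    (φ : Fin n ≃ Σ κ : Fin k, Fin (r (γ κ))) : H.obj (pw U n) :=
  ∑ τ : (∀ κ, Equiv.Perm (Fin (r (γ κ)))), (∏ κ, ((Equiv.Perm.sign (τ κ) : ℤ) : F)) •
    ml H n (DetX H b inc τ ∘ φ)

private theorem Det_eval {l : ℕ} {r : Fin l → ℕ} {k n : ℕ} {γ : Fin k → Fin l}
    (φ : Fin n ≃ Σ κ : Fin k, Fin (r (γ κ)))
    (m : ∀ κ, Fin (r (γ κ)) → Fin (r (γ κ))) (x : Σ κ : Fin k, Fin (r (γ κ))) :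
    ((m (φ (φ.symm x)).1 (φ (φ.symm x)).2 : Fin _) : ℕ) = m x.1 x.2 := by
  rw [Equiv.apply_symm_apply]

private theorem Det_perm (F : Type w) [Field F] {n : ℕ} (τ : Equiv.Perm (Fin n)) :
    Matrix.det (Matrix.of fun p q : Fin n => if ((τ p : Fin n) : ℕ) = (q : ℕ) then (1 : F) else 0) =
      ((Equiv.Perm.sign τ : ℤ) : F) := by
  rw [← Matrix.det_permutation]
  congr 1
  ext p q
  show (if ((τ p : Fin n) : ℕ) = (q : ℕ) then (1 : F) else 0) = (Equiv.toPEquiv τ).toMatrix p q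
  rw [PEquiv.toMatrix_apply]
  by_cases h : τ p = q
  · rw [if_pos (by rw [h]), if_pos]
    simp [h]
  · rw [if_neg (fun h' => h (Fin.ext h')), if_neg]
    simp [h]

/-- the sum over all labels is the signed sum over the families of permutations -/
private theorem Det_sum {k n : ℕ} {γ : Fin k → Fin l} (c : Fin n → Fin l)
    (φ : Fin n ≃ Σ κ : Fin k, Fin (r (γ κ))) (hc : ∀ s, c s = γ (φ s).1) :
    DetW H b inc φ = ∑ a : D r c, dl F φ a • ml H n fun s => jj H b inc (c s) (a s) := by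
  obtain rfl : c = fun s => γ (φ s).1 := funext hc
  unfold DetW
  refine Fintype.sum_of_injective
    (fun (τ : ∀ κ, Equiv.Perm (Fin (r (γ κ)))) (s : Fin n) => τ (φ s).1 (φ s).2) ?_ _ _ ?_ ?_
  · intro τ τ' h
    funext κ
    refine Equiv.ext fun p => ?_
    apply Fin.ext
    have h1 := congrFun h (φ.symm ⟨κ, p⟩)
    have h2 := congrArg (fun x : Fin _ => (x : ℕ)) h1
    have h3 := Det_eval φ (fun κ => ⇑(τ κ)) ⟨κ, p⟩
    have h4 := Det_eval φ (fun κ => ⇑(τ' κ)) ⟨κ, p⟩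
    exact h3.symm.trans (h2.trans h4)
  · intro a ha
    have h0 : dl F φ a = 0 := by
      by_contra hne
      apply ha
      have h1 : ∀ κ, Matrix.det (Matrix.of fun p q : Fin (r (γ κ)) =>
          if (a (φ.symm ⟨κ, p⟩) : ℕ) = (q : ℕ) then (1 : F) else 0) ≠ 0 := fun κ h =>
        hne (Finset.prod_eq_zero (Finset.mem_univ κ) h)
      have h2 : ∀ κ (p : Fin (r (γ κ))), (a (φ.symm ⟨κ, p⟩) : ℕ) < r (γ κ) := by
        intro κ p
        have h3 : (φ (φ.symm ⟨κ, p⟩)).1 = κ := by rw [Equiv.apply_symm_apply]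
        exact lt_of_lt_of_eq (a (φ.symm ⟨κ, p⟩)).2 (congrArg (fun x => r (γ x)) h3)
      have h3 : ∀ κ, Function.Injective fun p : Fin (r (γ κ)) =>
          (⟨a (φ.symm ⟨κ, p⟩), h2 κ p⟩ : Fin (r (γ κ))) := by
        intro κ p p' hp
        by_contra hpp
        refine h1 κ (Matrix.det_zero_of_row_eq hpp ?_)
        funext q
        have h4 : (a (φ.symm ⟨κ, p⟩) : ℕ) = a (φ.symm ⟨κ, p'⟩) := congrArg Fin.val hp
        show (if (a (φ.symm ⟨κ, p⟩) : ℕ) = (q : ℕ) then (1 : F) else 0) =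
          if (a (φ.symm ⟨κ, p'⟩) : ℕ) = (q : ℕ) then (1 : F) else 0
        rw [h4]
      refine ⟨fun κ => Equiv.ofBijective _ (Finite.injective_iff_bijective.1 (h3 κ)), ?_⟩
      funext s
      apply Fin.ext
      show (a (φ.symm ⟨(φ s).1, (φ s).2⟩) : ℕ) = a s
      have h5 : φ.symm ⟨(φ s).1, (φ s).2⟩ = s := φ.symm_apply_apply s
      rw [h5]
    rw [h0, zero_smul]
  · intro τ
    have h0 : dl F φ (c := fun s => γ (φ s).1) (fun s => τ (φ s).1 (φ s).2) =
        ∏ κ, ((Equiv.Perm.sign (τ κ) : ℤ) : F) := by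
      unfold dl
      refine Finset.prod_congr rfl fun κ _ => ?_
      rw [← Det_perm F (τ κ)]
      congr 1
      ext p q
      rw [Matrix.of_apply, Matrix.of_apply]
      have h3 := Det_eval φ (fun κ => ⇑(τ κ)) ⟨κ, p⟩
      show (if ((τ (φ (φ.symm ⟨κ, p⟩)).1 (φ (φ.symm ⟨κ, p⟩)).2 : Fin _) : ℕ) = (q : ℕ) then (1 : F)
        else 0) = _
      rw [h3]
    rw [h0]
    rfl

/-- change of the bijection -/
private theorem Det_change (hU : Br H U U) {k n n' : ℕ} {γ : Fin k → Fin l}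
    (φ : Fin n ≃ Σ κ : Fin k, Fin (r (γ κ))) (φ' : Fin n' ≃ Σ κ : Fin k, Fin (r (γ κ))) :
    ∃ A ∈ ah H (pw U n) (pw U n'), A (DetW H b inc φ) = DetW H b inc φ' := by
  obtain rfl : n = n' := by
    have h := Fintype.card_congr (φ.trans φ'.symm)
    simpa using h
  obtain ⟨A, hA, hA'⟩ := perm_ml H hU n (φ'.trans φ.symm)
  refine ⟨A, hA, ?_⟩
  unfold DetW
  rw [map_sum]
  refine Finset.sum_congr rfl fun τ _ => ?_
  rw [map_smul, hA']
  congr 2
  funext s
  show DetX H b inc τ (φ (φ.symm (φ' s))) = DetX H b inc τ (φ' s)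
  rw [Equiv.apply_symm_apply]

/-- the first block and the other blocks -/
private theorem Det_split {l : ℕ} (r : Fin l → ℕ) {k : ℕ} (γ : Fin (k + 1) → Fin l) :
    ∃ e : Fin (r (γ 0)) ⊕ (Σ κ : Fin k, Fin (r (γ κ.succ))) ≃ Σ κ : Fin (k + 1), Fin (r (γ κ)),
      (∀ p, e (Sum.inl p) = ⟨0, p⟩) ∧ ∀ x, e (Sum.inr x) = ⟨x.1.succ, x.2⟩ := by
  let f : Fin (r (γ 0)) ⊕ (Σ κ : Fin k, Fin (r (γ κ.succ))) → Σ κ : Fin (k + 1), Fin (r (γ κ)) :=
    Sum.elim (fun p => ⟨0, p⟩) fun x => ⟨x.1.succ, x.2⟩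
  have hf : Function.Bijective f := by
    constructor
    · rintro (p | ⟨κ, p⟩) (q | ⟨κ', q⟩) h
      · have h1 : (⟨0, p⟩ : Σ κ : Fin (k + 1), Fin (r (γ κ))) = ⟨0, q⟩ := h
        simpa using h1
      · have h1 : (⟨0, p⟩ : Σ κ : Fin (k + 1), Fin (r (γ κ))) = ⟨κ'.succ, q⟩ := h
        exact absurd (congrArg Sigma.fst h1) (Fin.succ_ne_zero κ').symm
      · have h1 : (⟨κ.succ, p⟩ : Σ κ : Fin (k + 1), Fin (r (γ κ))) = ⟨0, q⟩ := h
        exact absurd (congrArg Sigma.fst h1) (Fin.succ_ne_zero κ)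
      · have h1 : (⟨κ.succ, p⟩ : Σ κ : Fin (k + 1), Fin (r (γ κ))) = ⟨κ'.succ, q⟩ := h
        have h2 : κ = κ' := Fin.succ_injective k (congrArg Sigma.fst h1)
        subst h2
        have h3 : p = q := by simpa using h1
        rw [h3]
    · rintro ⟨κ, p⟩
      revert p
      refine Fin.cases ?_ ?_ κ
      · intro p
        exact ⟨Sum.inl p, rfl⟩
      · intro κ' p
        exact ⟨Sum.inr ⟨κ', p⟩, rfl⟩
  exact ⟨Equiv.ofBijective f hf, fun p => rfl, fun x => rfl⟩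

/-- `tm` as a bilinear map -/
private noncomputable def Det_tm (X Y : C) : H.obj X →ₗ[F] H.obj Y →ₗ[F] H.obj (X ⊗ Y) :=
  LinearMap.mk₂ F (fun x y => tm H x y) (fun x x' y => tm_add_left H x x' y)
    (fun c x y => tm_smul_left H c x y) (fun x y y' => tm_add_right H x y y')
    (fun c x y => tm_smul_right H c x y)

private theorem Det_tm_apply {X Y : C} (x : H.obj X) (y : H.obj Y) :
    Det_tm H X Y x y = tm H x y := rfl

private theorem Det_tm_sum {X Y : C} {α β : Type} [Fintype α] [Fintype β] (x : α → H.obj X)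
    (y : β → H.obj Y) : tm H (∑ i, x i) (∑ j, y j) = ∑ i, ∑ j, tm H (x i) (y j) := by
  rw [← Det_tm_apply, map_sum (Det_tm H X Y), LinearMap.sum_apply]
  refine Finset.sum_congr rfl fun i _ => ?_
  rw [map_sum]
  rfl

private theorem Det_finrank {X Y : C} (hX : Module.finrank F (H.obj X) = 1)
    (hY : Module.finrank F (H.obj Y) = 1) : Module.finrank F (H.obj (X ⊗ Y)) = 1 := by
  rw [← (Functor.Monoidal.μIso H X Y).toLinearEquiv.finrank_eq]
  have h : Module.finrank F (TensorProduct F (H.obj X) (H.obj Y)) = 1 := by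
    rw [Module.finrank_tensorProduct, hX, hY]
  exact h

private theorem Det_aux (hU : Br H U U) (R : C → Prop) (unit : R (𝟙_ C))
    (tensor : ∀ X Y, R X → R Y → R (X ⊗ Y))
    (det : ∀ i, ∃ Z, R Z ∧ Module.finrank F (H.obj Z) = 1 ∧ ∃ f ∈ ah H Z (pw (V i) (r i)),
      ∃ d, f d = dv H (b i)) (k : ℕ) : ∀ γ : Fin k → Fin l,
    ∃ Z, R Z ∧ Module.finrank F (H.obj Z) = 1 ∧ ∃ d : H.obj Z, ∀ (n : ℕ)
      (φ : Fin n ≃ Σ κ : Fin k, Fin (r (γ κ))),
      ∃ f ∈ ah H Z (pw U n), f d = DetW H b inc φ := by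
  induction k with
  | zero =>
    intro γ
    refine ⟨𝟙_ C, unit, ?_, un H, fun n φ => ?_⟩
    · rw [← (Functor.Monoidal.εIso H).toLinearEquiv.finrank_eq]
      exact Module.finrank_self F
    · obtain rfl : n = 0 := by
        have h := Fintype.card_congr φ
        simpa using h
      refine ⟨LinearMap.id, ah_id H _, ?_⟩
      unfold DetW
      rw [Fintype.sum_unique, Finset.univ_eq_empty, Finset.prod_empty, one_smul]
      rfl
  | succ k ih =>
    intro γ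
    obtain ⟨Z', hZ', hr', d', h'⟩ := ih fun κ => γ κ.succ
    obtain ⟨Z₀, hZ₀, hr₀, f₀, hf₀, d₀, hd₀⟩ := det (γ 0)
    let φ' : Fin (Fintype.card (Σ κ : Fin k, Fin (r (γ κ.succ)))) ≃
      Σ κ : Fin k, Fin (r (γ κ.succ)) := (Fintype.equivFin _).symm
    obtain ⟨f', hf', hd'⟩ := h' _ φ'
    obtain ⟨g₀, hg₀, hg₀'⟩ := ah_pw H (ah_map H (inc (γ 0))) (r (γ 0))
    obtain ⟨φc, A, hA, A', _, hA'⟩ := cat_ml H U (r (γ 0))
      (Fintype.card (Σ κ : Fin k, Fin (r (γ κ.succ))))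
    obtain ⟨e, he, he'⟩ := Det_split r γ
    let φ₁ := φc.trans ((Equiv.sumCongr (Equiv.refl _) φ').trans e)
    have key : A (tl H (g₀ ∘ₗ f₀) f' (tm H d₀ d')) = DetW H b inc φ₁ := by
      rw [tl_tm, LinearMap.comp_apply, hd₀, hd']
      unfold dv DetW
      rw [map_sum, Det_tm_sum, map_sum]
      rw [← (Fin.consEquiv fun κ => Equiv.Perm (Fin (r (γ κ)))).sum_comp, Fintype.sum_prod_type]
      refine Finset.sum_congr rfl fun σ _ => ?_
      rw [map_sum]
      refine Finset.sum_congr rfl fun τ _ => ?_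
      rw [map_smul g₀, hg₀', tm_smul_left, tm_smul_right, map_smul, map_smul, (hA' _ _).1,
        smul_smul, Fin.prod_univ_succ]
      congr 1
      congr 1
      funext s
      rw [Function.comp_apply, Function.comp_apply]
      show _ = DetX H b inc (Fin.consEquiv (fun κ => Equiv.Perm (Fin (r (γ κ)))) (σ, τ))
        (e (Sum.map id φ' (φc s)))
      rcases φc s with p | q
      · rw [Sum.elim_inl, Sum.map_inl, he]
        rfl
      · rw [Sum.elim_inr, Sum.map_inr, he']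
        rfl
    refine ⟨Z₀ ⊗ Z', tensor _ _ hZ₀ hZ', Det_finrank H hr₀ hr', tm H d₀ d', fun n φ => ?_⟩
    obtain ⟨B, hB, hB'⟩ := Det_change H b inc hU φ₁ φ
    refine ⟨B ∘ₗ A ∘ₗ tl H (g₀ ∘ₗ f₀) f',
      ah_comp H (ah_comp H (ah_tl H (ah_comp H hf₀ hg₀) hf') hA) hB, ?_⟩
    rw [LinearMap.comp_apply, LinearMap.comp_apply, key, hB']

theorem det_up (hU : Br H U U) (R : C → Prop) (unit : R (𝟙_ C))
    (tensor : ∀ X Y, R X → R Y → R (X ⊗ Y))
    (det : ∀ i, ∃ Z, R Z ∧ Module.finrank F (H.obj Z) = 1 ∧ ∃ f ∈ ah H Z (pw (V i) (r i)),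
      ∃ d, f d = dv H (b i)) (k : ℕ) (γ : Fin k → Fin l) :
    ∃ Z, R Z ∧ Module.finrank F (H.obj Z) = 1 ∧ ∃ d : H.obj Z, ∀ (n : ℕ) (c : Fin n → Fin l)
      (φ : Fin n ≃ Σ κ : Fin k, Fin (r (γ κ))), (∀ s, c s = γ (φ s).1) →
      ∃ f ∈ ah H Z (pw U n),
        f d = ∑ a : D r c, dl F φ a • ml H n fun s => jj H b inc (c s) (a s) := by
  obtain ⟨Z, hZ, hr, d, h⟩ := Det_aux H b inc hU R unit tensor det k γ
  refine ⟨Z, hZ, hr, d, fun n c φ hc => ?_⟩
  obtain ⟨f, hf, hf'⟩ := h n φ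
  exact ⟨f, hf, hf'.trans (Det_sum H b inc c φ hc)⟩

end Pool.Agent.MUW
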