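import Pool.Agent.MUW.Act

/-!
# MUW: `V_c ⊗ L` in coordinates

From `pv_emb`, tensored with the identity of `L`.
-/

set_option linter.unusedSectionVars false
set_option linter.unusedVariables false

namespace Pool.Agent.MUW

open CategoryTheory MonoidalCategory Limits TensorProduct Pool.Agent.KTT Pool.Agent.MUT

universe v u w w'

variable {C : Type u} [Category.{v} C] [MonoidalCategory C]
  {F : Type w} [Field F] (H : C ⥤ ModuleCat.{w} F) [H.Monoidal]
  {l : ℕ} {r : Fin l → ℕ} {V : Fin l → C}
  (b : ∀ i, Module.Basis (Fin (r i)) F (H.obj (V i))) {U L : C} (inc : ∀ i, V i ⟶ U)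

/-- a linear map to functions, with values in `H(L)` -/
private theorem emb_ext {X : C} {A : Type} (E : H.obj X →ₗ[F] (A → F)) (L : C) :
    ∃ E' : H.obj (X ⊗ L) →ₗ[F] (A → H.obj L), ∀ x y, E' (tm H x y) = fun a => E x a • y := by
  let B : H.obj X →ₗ[F] H.obj L →ₗ[F] (A → H.obj L) :=
    LinearMap.mk₂ F (fun x y => fun a => E x a • y)
      (fun x x' y => by
        funext a
        show E (x + x') a • y = E x a • y + E x' a • y
        rw [map_add, Pi.add_apply, add_smul])
      (fun c x y => by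
        funext a
        show E (c • x) a • y = c • (E x a • y)
        rw [map_smul, Pi.smul_apply, smul_smul, smul_eq_mul])
      (fun x y y' => by
        funext a
        show E x a • (y + y') = E x a • y + E x a • y'
        rw [smul_add])
      (fun c x y => by
        funext a
        show E x a • (c • y) = c • (E x a • y)
        rw [smul_comm])
  refine ⟨TensorProduct.lift B ∘ₗ (Functor.OplaxMonoidal.δ H X L).hom, fun x y => ?_⟩
  have h : (Functor.OplaxMonoidal.δ H X L).hom (tm H x y) = x ⊗ₜ[F] y :=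
    LinearMap.congr_fun (congrArg ModuleCat.Hom.hom (Functor.Monoidal.μ_δ H X L)) (x ⊗ₜ[F] y)
  rw [LinearMap.comp_apply]
  refine Eq.trans (congrArg (TensorProduct.lift B) h) ?_
  rw [TensorProduct.lift.tmul]
  rfl

private theorem emb_sum {X : C} {A : Type} [Fintype A] (w : A → F) (x : A → H.obj X) (y : H.obj L) :
    tm H (∑ a, w a • x a) y = ∑ a, tm H (x a) (w a • y) := by
  classical
  have key : ∀ s : Finset A, tm H (∑ a ∈ s, w a • x a) y = ∑ a ∈ s, tm H (x a) (w a • y) := by
    intro s
    induction s using Finset.induction_on with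
    | empty =>
      rw [Finset.sum_empty, Finset.sum_empty]
      have h := tm_smul_left H (0 : F) (0 : H.obj X) y
      rwa [zero_smul, zero_smul] at h
    | insert a s ha ih =>
      rw [Finset.sum_insert ha, Finset.sum_insert ha, tm_add_left, ih, tm_smul_left, tm_smul_right]
  exact key Finset.univ

theorem vc_emb (prj : ∀ i, U ⟶ V i) (hp : ∀ i, inc i ≫ prj i = 𝟙 (V i)) (n : ℕ)
    (c : Fin n → Fin l) (L : C) :
    ∃ f ∈ ah H (pv V n c ⊗ L) (pw U n ⊗ L), ∃ g ∈ ah H (pw U n ⊗ L) (pv V n c ⊗ L),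
      (∀ v, g (f v) = v) ∧ ∃ E : H.obj (pv V n c ⊗ L) →ₗ[F] (D r c → H.obj L),
        ∀ v, f v = vc H b inc c (E v) := by
  obtain ⟨f, hf, g, hg, hgf, E, hE⟩ := pv_emb H b inc prj hp n c
  obtain ⟨E', hE'⟩ := emb_ext H E L
  obtain ⟨φ, hφ⟩ := vc_lin H b inc (L := L) c
  refine ⟨tl H f LinearMap.id, ah_tl H hf (ah_id H L), tl H g LinearMap.id, ah_tl H hg (ah_id H L),
    ?_, E', ?_⟩
  · have h1 : tl H g LinearMap.id ∘ₗ tl H f LinearMap.id =
        (LinearMap.id : H.obj (pv V n c ⊗ L) →ₗ[F] H.obj (pv V n c ⊗ L)) := by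
      refine tm_ext H fun x y => ?_
      rw [LinearMap.comp_apply, tl_tm, tl_tm, hgf]
      rfl
    exact fun v => LinearMap.congr_fun h1 v
  · have h1 : tl H f LinearMap.id = φ ∘ₗ E' := by
      refine tm_ext H fun x y => ?_
      rw [LinearMap.comp_apply, tl_tm, hφ, hE', hE]
      exact emb_sum H _ _ y
    intro v
    rw [h1, LinearMap.comp_apply, hφ]

end Pool.Agent.MUW
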