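import Pool.Agent.MUW.Fft
import Pool.Agent.MUW.Inv

/-!
# MUW: the first fundamental theorem, vector valued

From `fft` with coordinates of `P` (choose a basis of the span of the `dl F φ` among the `dl F φ`).
-/

set_option linter.unusedSectionVars false
set_option linter.unusedVariables false

namespace Pool.Agent.MUW

universe w

variable {F : Type w} [Field F] {l : ℕ} {r : Fin l → ℕ}

theorem fft_vec [CharZero F] [IsAlgClosed F] {n : ℕ} (c : Fin n → Fin l) {P : Type*}
    [AddCommGroup P] [Module F P] [FiniteDimensional F P] (x : D r c → P)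
    (hx : ∀ h : Tup F r, Sl h → kv c h x = x) :
    ∃ (k : ℕ) (γ : Fin k → Fin l) (m : ℕ) (φ : Fin m → (Fin n ≃ Σ κ : Fin k, Fin (r (γ κ))))
      (p : Fin m → P), (∀ j s, c s = γ (φ j s).1) ∧
      LinearIndependent F (fun j => (dl F (φ j) : D r c → F)) ∧
      x = fun a => ∑ j, dl F (φ j) a • p j := by
  classical
  set B := Module.finBasis F P with hB
  have hinv : ∀ i, ∀ h : Tup F r, Sl h →
      (kr c h).mulVec (fun a => B.repr (x a) i) = fun a => B.repr (x a) i := by
    intro i h hh
    funext a
    have h1 : ∑ b, kr c h a b • x b = x a := congrFun (hx h hh) a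
    have h2 : B.repr (∑ b, kr c h a b • x b) i = B.repr (x a) i := by rw [h1]
    rw [← h2, map_sum, Finsupp.finsetSum_apply]
    simp only [map_smul, Finsupp.smul_apply, smul_eq_mul]
    rfl
  rcases fft (F := F) (r := r) c with h0 | ⟨k, γ, hk⟩
  · refine ⟨0, fun j => j.elim0, 0, fun j => j.elim0, fun j => j.elim0, fun j => j.elim0,
      linearIndependent_empty_type, ?_⟩
    funext a
    rw [Finset.univ_eq_empty, Finset.sum_empty]
    apply B.repr.injective
    ext i
    rw [map_zero, Finsupp.zero_apply]
    exact congrFun (h0 _ (hinv i)) a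
  · obtain ⟨b, hb1, hb2, hb3⟩ := exists_linearIndependent F {y : D r c → F |
        ∃ φ : Fin n ≃ Σ κ : Fin k, Fin (r (γ κ)), (∀ s, c s = γ (φ s).1) ∧ y = dl F φ}
    have hfin : Finite b := hb3.finite
    have hFt : Fintype b := Fintype.ofFinite b
    set m := Fintype.card b with hm
    set e : Fin m ≃ b := (Fintype.equivFin b).symm with he
    choose ph hph1 hph2 using fun y : b => hb1 y.2
    have hli : LinearIndependent F (fun j : Fin m => (dl F (ph (e j)) : D r c → F)) := by
      have h1 : (fun j : Fin m => (dl F (ph (e j)) : D r c → F)) = (Subtype.val : b → D r c → F) ∘ e := by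
        funext j
        exact (hph2 (e j)).symm
      rw [h1]
      exact hb3.comp _ e.injective
    have hsp : ∀ i, ∃ q : Fin m → F, (fun a => B.repr (x a) i) =
        fun a => ∑ j, q j * dl F (ph (e j)) a := by
      intro i
      have h1 := hk _ (hinv i)
      rw [← hb2] at h1
      have h2 : b = Set.range (fun j : Fin m => (dl F (ph (e j)) : D r c → F)) := by
        ext y
        constructor
        · intro hy
          refine ⟨e.symm ⟨y, hy⟩, ?_⟩
          change dl F (ph (e (e.symm ⟨y, hy⟩))) = y
          rw [← hph2, Equiv.apply_symm_apply]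
        · rintro ⟨j, rfl⟩
          change dl F (ph (e j)) ∈ b
          rw [← hph2]
          exact (e j).2
      rw [h2, Submodule.mem_span_range_iff_exists_fun] at h1
      obtain ⟨q, hq⟩ := h1
      refine ⟨q, ?_⟩
      rw [← hq]
      funext a
      rw [Finset.sum_apply]
      rfl
    choose q hq using hsp
    refine ⟨k, γ, m, fun j => ph (e j), fun j => ∑ i, q i j • B i, fun j s => hph1 (e j) s, hli, ?_⟩
    funext a
    rw [← B.sum_repr (x a)]
    have h3 : ∀ i, B.repr (x a) i = ∑ j, q i j * dl F (ph (e j)) a := fun i => congrFun (hq i) a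
    simp only [h3, Finset.smul_sum, Finset.sum_smul, smul_smul]
    rw [Finset.sum_comm]
    refine Finset.sum_congr rfl fun j _ => Finset.sum_congr rfl fun i _ => ?_
    rw [mul_comm]

end Pool.Agent.MUW
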