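import Pool.Agent.MUW.Defs
import Pool.Agent.MUT.Ah

/-!
# MUW: algebraic retracts

`Ret H X Y`: `X` is a retract of `Y` by algebraic linear maps.
-/

set_option linter.unusedSectionVars false
set_option linter.unusedVariables false

namespace Pool.Agent.MUW

open CategoryTheory MonoidalCategory Limits TensorProduct Pool.Agent.KTT Pool.Agent.MUT

universe v u w w'

section Pair

variable {C : Type u} [Category.{v} C] [MonoidalCategory C]

private theorem ret_hz {D : Type*}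
    [Category* D] [MonoidalCategory D] (H : C ⥤ D) [H.Monoidal] (X Y : C) [ExactPairing X Y] :
    H.obj Y ◁ (Functor.LaxMonoidal.ε H ≫ H.map (η_ X Y) ≫ Functor.OplaxMonoidal.δ H X Y) ≫
      (α_ (H.obj Y) (H.obj X) (H.obj Y)).inv ≫
      (Functor.LaxMonoidal.μ H Y X ≫ H.map (ε_ X Y) ≫ Functor.OplaxMonoidal.η H) ▷ H.obj Y =
      (ρ_ (H.obj Y)).hom ≫ (λ_ (H.obj Y)).inv := by
  have h := congrArg H.map (ExactPairing.coevaluation_evaluation X Y)
  rw [H.map_comp, H.map_comp, H.map_comp, Functor.Monoidal.map_whiskerLeft,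
    Functor.Monoidal.map_whiskerRight, Functor.Monoidal.map_associator_inv,
    Functor.Monoidal.map_rightUnitor, Functor.Monoidal.map_leftUnitor_inv] at h
  simp only [Category.assoc, Functor.Monoidal.μ_δ_assoc] at h
  have h2 := congrArg (fun f => (H.obj Y ◁ Functor.LaxMonoidal.ε H ≫
    Functor.LaxMonoidal.μ H Y (𝟙_ C)) ≫ f ≫
    (Functor.OplaxMonoidal.δ H (𝟙_ C) Y ≫ Functor.OplaxMonoidal.η H ▷ H.obj Y)) h
  simp only [Category.assoc, Functor.Monoidal.μ_δ_assoc, Functor.Monoidal.whiskerLeft_ε_η_assoc,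
    Functor.Monoidal.whiskerRight_ε_η, Category.comp_id] at h2
  simp only [MonoidalCategory.whiskerLeft_comp, comp_whiskerRight, Category.assoc]
  exact h2

/-- the contraction `V ⊗ W → W` with the first factor, given by `y` -/
private noncomputable def ret_ct {F : Type w} [Field F] {V W : ModuleCat.{w} F}
    (e : W ⊗ V ⟶ 𝟙_ (ModuleCat.{w} F)) (y : W) : (V ⊗[F] W) →ₗ[F] W :=
  TensorProduct.lift ((LinearMap.lsmul F W).comp (e.hom.comp (TensorProduct.mk F W V y)))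

private theorem ret_zig {F : Type w} [Field F] (V W : ModuleCat.{w} F)
    (c : 𝟙_ (ModuleCat.{w} F) ⟶ V ⊗ W) (e : W ⊗ V ⟶ 𝟙_ (ModuleCat.{w} F))
    (h : W ◁ c ≫ (α_ W V W).inv ≫ e ▷ W = (ρ_ W).hom ≫ (λ_ W).inv) (y : W) :
    ret_ct e y (c.hom (1 : F)) = y := by
  have key : ∀ t : (V ⊗ W : ModuleCat.{w} F),
      (λ_ W).hom.hom ((e ▷ W).hom ((α_ W V W).inv.hom (y ⊗ₜ[F] t))) = ret_ct e y t := by
    intro t
    induction t using TensorProduct.induction_on with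
    | zero => rw [TensorProduct.tmul_zero, map_zero, map_zero, map_zero, map_zero]
    | tmul a b => rfl
    | add s t hs ht => rw [TensorProduct.tmul_add, map_add, map_add, map_add, map_add, hs, ht]
  have h4 := congrArg (fun f => (λ_ W).hom.hom (f.hom (y ⊗ₜ[F] (1 : F)))) h
  have h5 : (W ◁ c ≫ (α_ W V W).inv ≫ e ▷ W).hom (y ⊗ₜ[F] (1 : F)) =
      (e ▷ W).hom ((α_ W V W).inv.hom (y ⊗ₜ[F] (c.hom (1 : F)))) := rfl
  have h6 : (λ_ W).hom.hom (((ρ_ W).hom ≫ (λ_ W).inv).hom (y ⊗ₜ[F] (1 : F))) = y := by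
    have h7 : (λ_ W).hom.hom (((ρ_ W).hom ≫ (λ_ W).inv).hom (y ⊗ₜ[F] (1 : F))) =
      (((ρ_ W).hom ≫ (λ_ W).inv) ≫ (λ_ W).hom).hom (y ⊗ₜ[F] (1 : F)) := rfl
    rw [h7, Category.assoc, Iso.inv_hom_id, Category.comp_id]
    exact one_smul F y
  rw [← key]
  exact h4.trans h6

variable {F : Type w} [Field F] (H : C ⥤ ModuleCat.{w} F) [H.Monoidal]

/-- the pairing of `H(Yᘁ)` and `H(Y)` -/
private noncomputable def ret_e (Y : C)
    [HasRightDual Y] : H.obj Yᘁ ⊗ H.obj Y ⟶ 𝟙_ (ModuleCat.{w} F) :=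
  Functor.LaxMonoidal.μ H Yᘁ Y ≫ H.map (ε_ Y Yᘁ) ≫ Functor.OplaxMonoidal.η H

private noncomputable def ret_c (Y : C)
    [HasRightDual Y] : 𝟙_ (ModuleCat.{w} F) ⟶ H.obj Y ⊗ H.obj Yᘁ :=
  Functor.LaxMonoidal.ε H ≫ H.map (η_ Y Yᘁ) ≫ Functor.OplaxMonoidal.δ H Y Yᘁ

/-- the pairing as a bilinear map -/
private noncomputable def ret_p (Y : C) [HasRightDual Y] :
    H.obj Yᘁ →ₗ[F] H.obj Y →ₗ[F] F :=
  (TensorProduct.mk F (H.obj Yᘁ) (H.obj Y)).compr₂ (ret_e H Y).hom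

private theorem ret_p_inj {Y : C} [HasRightDual Y] {y z : H.obj Yᘁ}
    (h : ∀ a, ret_p H Y y a = ret_p H Y z a) : y = z := by
  have h1 : ret_ct (ret_e H Y) y = ret_ct (ret_e H Y) z := by
    refine TensorProduct.ext' fun a b => ?_
    have h2 : ∀ y, ret_ct (ret_e H Y) y (a ⊗ₜ[F] b) = (ret_p H Y y a) • b := fun _ => rfl
    rw [h2, h2, h]
  rw [← ret_zig (H.obj Y) (H.obj Yᘁ) (ret_c H Y) (ret_e H Y) (ret_hz H Y Yᘁ) y, h1]
  exact ret_zig (H.obj Y) (H.obj Yᘁ) (ret_c H Y) (ret_e H Y) (ret_hz H Y Yᘁ) z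

private theorem ret_p_map {X Y : C} [HasRightDual X] [HasRightDual Y] (s : X ⟶ Y)
    (y : H.obj Yᘁ) (x : H.obj X) :
    ret_p H X ((H.map (rightAdjointMate s)).hom y) x = ret_p H Y y ((H.map s).hom x) := by
  have h0 : ∀ (Z : C) [HasRightDual Z] (a : H.obj Zᘁ) (b : H.obj Z), ret_p H Z a b =
      (Functor.OplaxMonoidal.η H).hom ((H.map (ε_ Z Zᘁ)).hom (tm H a b)) := fun _ _ _ _ => rfl
  have h1 : tm H ((H.map (rightAdjointMate s)).hom y) x = (H.map (rightAdjointMate s ▷ X)).hom (tm H y x) := by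
    rw [← tensorHom_id, map_tm, H.map_id]
    rfl
  have h2 : tm H y ((H.map s).hom x) = (H.map (Yᘁ ◁ s)).hom (tm H y x) := by
    rw [← id_tensorHom, map_tm, H.map_id]
    rfl
  have h3 := congrArg (fun f => (H.map f).hom (tm H y x)) (rightAdjointMate_comp_evaluation s)
  simp only [H.map_comp, ModuleCat.hom_comp, LinearMap.comp_apply] at h3
  rw [h0, h0, h1, h2, h3]

/-- the transposed map -/
private theorem ret_tr {X Y : C} [HasRightDual X] [HasRightDual Y] {f : H.obj X →ₗ[F] H.obj Y}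
    (hf : f ∈ ah H X Y) : ∃ f' ∈ ah H Yᘁ Xᘁ, ∀ y x, ret_p H X (f' y) x = ret_p H Y y (f x) := by
  induction hf using Submodule.span_induction with
  | mem f hf =>
    obtain ⟨s, rfl⟩ := hf
    exact ⟨_, ah_map H (rightAdjointMate s), ret_p_map H s⟩
  | zero =>
    refine ⟨0, Submodule.zero_mem _, fun y x => ?_⟩
    rw [LinearMap.zero_apply, LinearMap.zero_apply, map_zero, map_zero, LinearMap.zero_apply]
  | add f g _ _ hf hg =>
    obtain ⟨f', hf', h1⟩ := hf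
    obtain ⟨g', hg', h2⟩ := hg
    refine ⟨f' + g', Submodule.add_mem _ hf' hg', fun y x => ?_⟩
    rw [LinearMap.add_apply, LinearMap.add_apply, map_add, map_add, LinearMap.add_apply, h1, h2]
  | smul c f _ hf =>
    obtain ⟨f', hf', h1⟩ := hf
    refine ⟨c • f', Submodule.smul_mem _ c hf', fun y x => ?_⟩
    rw [LinearMap.smul_apply, LinearMap.smul_apply, map_smul, map_smul, LinearMap.smul_apply, h1]

end Pair

variable {C : Type u} [Category.{v} C] [MonoidalCategory C]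
  {F : Type w} [Field F] (H : C ⥤ ModuleCat.{w} F)

/-- `X` is a retract of `Y` by algebraic linear maps. -/
def Ret (X Y : C) : Prop := ∃ f ∈ ah H X Y, ∃ g ∈ ah H Y X, ∀ v, g (f v) = v

theorem ret_iso {X Y : C} (e : X ≅ Y) : Ret H X Y := by
  refine ⟨_, ah_map H e.hom, _, ah_map H e.inv, fun v => ?_⟩
  have h : H.map e.hom ≫ H.map e.inv = 𝟙 _ := by
    rw [← H.map_comp, e.hom_inv_id, H.map_id]
  exact LinearMap.congr_fun (congrArg ModuleCat.Hom.hom h) v

theorem ret_trans {X Y Z : C} (h : Ret H X Y) (h' : Ret H Y Z) : Ret H X Z := by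
  obtain ⟨f, hf, g, hg, h1⟩ := h
  obtain ⟨f', hf', g', hg', h2⟩ := h'
  refine ⟨f' ∘ₗ f, ah_comp H hf hf', g ∘ₗ g', ah_comp H hg' hg, fun v => ?_⟩
  rw [LinearMap.comp_apply, LinearMap.comp_apply, h2, h1]

variable [H.Monoidal]

theorem ret_tensor {X Y X' Y' : C} (h : Ret H X X') (h' : Ret H Y Y') :
    Ret H (X ⊗ Y) (X' ⊗ Y') := by
  obtain ⟨f, hf, g, hg, h1⟩ := h
  obtain ⟨f', hf', g', hg', h2⟩ := h'
  refine ⟨tl H f f', ah_tl H hf hf', tl H g g', ah_tl H hg hg', fun v => ?_⟩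
  have h3 : tl H g g' ∘ₗ tl H f f' = LinearMap.id := by
    refine tm_ext H fun x y => ?_
    rw [LinearMap.comp_apply, tl_tm, tl_tm, h1, h2]
    rfl
  exact LinearMap.congr_fun h3 v

theorem ret_dual {X Y : C} [HasRightDual X] [HasRightDual Y] (h : Ret H X Y) : Ret H Xᘁ Yᘁ := by
  obtain ⟨f, hf, g, hg, h1⟩ := h
  obtain ⟨f', hf', h2⟩ := ret_tr H hf
  obtain ⟨g', hg', h3⟩ := ret_tr H hg
  refine ⟨g', hg', f', hf', fun v => ret_p_inj H fun a => ?_⟩
  rw [h2, h3, h1]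

theorem alg_ah {X Y : C} {f : H.obj X →ₗ[F] H.obj Y} (hf : f ∈ ah H X Y) {v : H.obj X}
    (hv : v ∈ alg H X) : f v ∈ alg H Y := by
  induction hf using Submodule.span_induction with
  | mem f hf =>
    obtain ⟨s, rfl⟩ := hf
    have h : alg H X ≤ (alg H Y).comap (H.map s).hom := by
      refine Submodule.span_le.2 ?_
      rintro _ ⟨g, rfl⟩
      refine Submodule.subset_span ⟨g ≫ s, ?_⟩
      rw [H.map_comp, ModuleCat.hom_comp, LinearMap.comp_apply]
    exact h hv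
  | zero =>
    rw [LinearMap.zero_apply]
    exact Submodule.zero_mem _
  | add f g _ _ hf hg =>
    rw [LinearMap.add_apply]
    exact Submodule.add_mem _ hf hg
  | smul c f _ hf =>
    rw [LinearMap.smul_apply]
    exact Submodule.smul_mem _ c hf

variable {G : Type w'} [Group G] (ρ : G →* Aut H)

theorem ret_tate {X Y : C} (h : Ret H X Y) (hY : fixed H ρ Y ≤ alg H Y) :
    fixed H ρ X ≤ alg H X := by
  obtain ⟨f, hf, g, hg, h1⟩ := h
  intro v hv
  rw [← h1 v]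
  refine alg_ah H hg (hY fun a => ?_)
  have h2 := nat_ah H (ρ a).hom hf v
  rw [hv a] at h2
  exact h2.symm

theorem ret_ss {X Y : C} (h : Ret H X Y) (hY : Semisimple H ρ Y) : Semisimple H ρ X := by
  obtain ⟨f, hf, g, hg, h1⟩ := h
  intro W hW
  obtain ⟨W', hW', hc⟩ := hY (W.comap g) (by
    intro a v hv
    rw [Submodule.mem_comap, nat_ah H (ρ a).hom hg v]
    exact hW a _ hv)
  refine ⟨W'.map g, ?_, ?_, ?_⟩
  · rintro a _ ⟨v, hv, rfl⟩
    exact ⟨_, hW' a v hv, nat_ah H (ρ a).hom hg v⟩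
  · rw [Submodule.disjoint_def]
    rintro _ hw ⟨v, hv, rfl⟩
    have h0 : v = 0 := (Submodule.disjoint_def.1 hc.disjoint) v hw hv
    rw [h0, map_zero]
  · rw [codisjoint_iff, eq_top_iff]
    intro x _
    have hx : f x ∈ W.comap g ⊔ W' := by
      rw [hc.sup_eq_top]; trivial
    obtain ⟨a, ha, b, hb, hab⟩ := Submodule.mem_sup.1 hx
    rw [← h1 x, ← hab, map_add]
    exact Submodule.add_mem_sup ha (Submodule.mem_map_of_mem hb)

end Pool.Agent.MUW
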