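import Pool.Agent.MUW.Ths
import Pool.Agent.MUW.Ret

/-!
# MUW: normal forms

`pv V n c = V (c 0) ⊗ (V (c 1) ⊗ ⋯)`. Every mixed word in the `V i` and the objects of rank one is an algebraic retract of
some `pv V n c ⊗ L`, if this holds for the duals of the `V i`.
-/

set_option linter.unusedSectionVars false
set_option linter.unusedVariables false

namespace Pool.Agent.MUW

open CategoryTheory MonoidalCategory Limits TensorProduct Pool.Agent.KTT Pool.Agent.MUT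

universe v u w w'

variable {C : Type u} [Category.{v} C] [MonoidalCategory C]

/-- `V (c 0) ⊗ (V (c 1) ⊗ ⋯)` -/
def pv {l : ℕ} (V : Fin l → C) : (n : ℕ) → (Fin n → Fin l) → C
  | 0, _ => 𝟙_ C
  | n + 1, c => V (c 0) ⊗ pv V n fun t => c t.succ

variable {F : Type w} [Field F] (H : C ⥤ ModuleCat.{w} F) [H.Monoidal]

/-- `Z` is an algebraic retract of some `pv V n c ⊗ L`, `L` in `R`. -/
def Nf {l : ℕ} (V : Fin l → C) (R : C → Prop) (Z : C) : Prop :=
  ∃ (n : ℕ) (c : Fin n → Fin l) (L : C), R L ∧ Ret H Z (pv V n c ⊗ L)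

theorem pv_const {l : ℕ} (V : Fin l → C) (n : ℕ) (i : Fin l) :
    pv V n (fun _ => i) = pw (V i) n := by
  induction n with
  | zero => rfl
  | succ n ih =>
    change V i ⊗ pv V n (fun _ => i) = V i ⊗ pw (V i) n
    rw [ih]

/-- The tensor product of two objects `pv`. -/
private theorem nf_append {l : ℕ} (V : Fin l → C) (m : ℕ) (d : Fin m → Fin l) :
    ∀ (n : ℕ) (c : Fin n → Fin l), ∃ (N : ℕ) (e : Fin N → Fin l),
      Nonempty (pv V n c ⊗ pv V m d ≅ pv V N e)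
  | 0, _ => ⟨m, d, ⟨λ_ (pv V m d)⟩⟩
  | n + 1, c => by
    obtain ⟨N, e, ⟨i⟩⟩ := nf_append V m d n fun t => c t.succ
    refine ⟨N + 1, Fin.cons (c 0) e, ⟨?_⟩⟩
    exact α_ (V (c 0)) (pv V n fun t => c t.succ) (pv V m d) ≪≫ whiskerLeftIso (V (c 0)) i

/-- The exchange of the middle factors. -/
private noncomputable def nf_mid [BraidedCategory C] (A D A' D' : C) :
    (A ⊗ D) ⊗ (A' ⊗ D') ≅ (A ⊗ A') ⊗ (D ⊗ D') :=
  α_ A D (A' ⊗ D') ≪≫
    whiskerLeftIso A ((α_ D A' D').symm ≪≫ whiskerRightIso (β_ D A') D' ≪≫ α_ A' D D') ≪≫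
    (α_ A A' (D ⊗ D')).symm

private theorem nf_ret {l : ℕ} {V : Fin l → C} {R : C → Prop} {X Y : C} (h : Ret H X Y)
    (hY : Nf H V R Y) : Nf H V R X := by
  obtain ⟨n, c, L, hL, h'⟩ := hY
  exact ⟨n, c, L, hL, ret_trans H h h'⟩

private theorem nf_tensor [BraidedCategory C] {l : ℕ} {V : Fin l → C} {R : C → Prop}
    (tensor : ∀ X Y, R X → R Y → R (X ⊗ Y)) {X Y : C} (hX : Nf H V R X) (hY : Nf H V R Y) :
    Nf H V R (X ⊗ Y) := by
  obtain ⟨n, c, L, hL, h⟩ := hX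
  obtain ⟨m, d, L', hL', h'⟩ := hY
  obtain ⟨N, e, ⟨i⟩⟩ := nf_append V m d n c
  refine ⟨N, e, L ⊗ L', tensor L L' hL hL', ret_trans H (ret_tensor H h h') ?_⟩
  exact ret_iso H (nf_mid (pv V n c) L (pv V m d) L' ≪≫ whiskerRightIso i (L ⊗ L'))

private theorem nf_mem {l : ℕ} (V : Fin l → C) {R : C → Prop} {X : C} (hX : R X) :
    Nf H V R X :=
  ⟨0, Fin.elim0, X, hX, ret_iso H (λ_ X).symm⟩

/-- The dual of the unit. -/
private noncomputable def nf_unit [RightRigidCategory C] {l : ℕ} (V : Fin l → C)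
    (c : Fin 0 → Fin l) : (pv V 0 c)ᘁ ≅ 𝟙_ C :=
  rightDualIso (HasRightDual.exact : ExactPairing (pv V 0 c) (pv V 0 c)ᘁ)
    (exactPairingUnit : ExactPairing (𝟙_ C) (𝟙_ C))

private theorem nf_pv_dual [RightRigidCategory C] [BraidedCategory C] {l : ℕ} (V : Fin l → C)
    (R : C → Prop) (unit : R (𝟙_ C)) (tensor : ∀ X Y, R X → R Y → R (X ⊗ Y))
    (hV : ∀ i, Nf H V R (V i)ᘁ) : ∀ (n : ℕ) (c : Fin n → Fin l), Nf H V R (pv V n c)ᘁ
  | 0, c => nf_ret H (ret_iso H (nf_unit V c)) (nf_mem H V unit)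
  | n + 1, c => nf_ret H (ret_iso H (rightDualTensorIso (V (c 0)) (pv V n fun t => c t.succ)))
      (nf_tensor H tensor (nf_pv_dual V R unit tensor hV n fun t => c t.succ) (hV (c 0)))

theorem nf_word [RightRigidCategory C] [BraidedCategory C] {l : ℕ} (V : Fin l → C) (R : C → Prop)
    (unit : R (𝟙_ C)) (tensor : ∀ X Y, R X → R Y → R (X ⊗ Y)) (dual : ∀ X, R X → R Xᘁ)
    (hV : ∀ i, Nf H V R (V i)ᘁ) {Z : C} (hZ : MW (fun X => R X ∨ ∃ i, X = V i) Z) :
    Nf H V R Z := by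
  induction hZ with
  | base X h =>
    rcases h with h | ⟨i, rfl⟩
    · exact nf_mem H V h
    · exact ⟨1, fun _ => i, 𝟙_ C, unit, ret_iso H ((ρ_ (V i)).symm ≪≫ (ρ_ (V i ⊗ 𝟙_ C)).symm)⟩
  | tensor X Y _ _ ihX ihY => exact nf_tensor H tensor ihX ihY
  | dual X _ ih =>
    obtain ⟨n, c, L, hL, h⟩ := ih
    refine nf_ret H (ret_dual H h) (nf_ret H (ret_iso H (rightDualTensorIso (pv V n c) L)) ?_)
    exact nf_tensor H tensor (nf_mem H V (dual L hL)) (nf_pv_dual H V R unit tensor hV n c)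

end Pool.Agent.MUW
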