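import Pool.Agent.MUW.Mat

/-!
# MUW: symmetric matrices are combinations of tensor powers (polarization)

Port of `MUT.Pol` to variable dimensions. A linear functional which vanishes on all `kr c h` is a polynomial in the
coordinates of `h` which vanishes identically, so its coefficients are zero. The coefficient of a monomial is the sum of
the values at the matrix units `a, b` with this monomial, and the matrix `X` is constant on these pairs.
-/

set_option linter.unusedSectionVars false
set_option linter.unusedVariables false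

namespace Pool.Agent.MUW

universe w

variable {F : Type w} [Field F] {l : ℕ} {r : Fin l → ℕ}

/-- the coordinate of a slot -/
private def pix {S : Type} (c : S → Fin l) (a b : D r c) (s : S) : Crd r := ⟨c s, a s, b s⟩

/-- the monomial of a matrix unit -/
private noncomputable def mon {S : Type} [Fintype S] (c : S → Fin l) (a b : D r c) :
    Crd r →₀ ℕ :=
  ∑ s, Finsupp.single (pix c a b s) 1

private theorem mon_apply {S : Type} [Fintype S] (c : S → Fin l) (a b : D r c) (x : Crd r) :
    mon c a b x = (Finset.univ.filter fun s => pix c a b s = x).card := by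
  unfold mon
  rw [Finsupp.finsetSum_apply, Finset.card_filter]
  exact Finset.sum_congr rfl fun s _ => Finsupp.single_apply

private theorem pix_eq {S : Type} {c : S → Fin l} {a b a' b' : D r c} {s t : S}
    (h : pix c a b s = pix c a' b' t) (e : c s = c t) :
    Fin.cast (congrArg r e) (a s) = a' t ∧ Fin.cast (congrArg r e) (b s) = b' t := by
  have h1 : ∀ (i j : Fin l) (e : i = j) (x y : Fin (r i)) (x' y' : Fin (r j)),
      (⟨i, x, y⟩ : Crd r) = ⟨j, x', y'⟩ →
        Fin.cast (congrArg r e) x = x' ∧ Fin.cast (congrArg r e) y = y' := by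
    rintro i _ rfl x y x' y' h
    have h2 := eq_of_heq (Sigma.mk.inj h).2
    exact ⟨(Prod.mk.inj h2).1, (Prod.mk.inj h2).2⟩
  exact h1 _ _ e _ _ _ _ h

private theorem mon_perm {S : Type} [Fintype S] [DecidableEq S] (c : S → Fin l) {a b a' b' : D r c}
    (h : mon c a b = mon c a' b') :
    ∃ (σ : Equiv.Perm S) (e : ∀ s, c (σ s) = c s), act σ e a = a' ∧ act σ e b = b' := by
  have h2 : ∀ x : Crd r,
      Nonempty ({s // pix c a' b' s = x} ≃ {s // pix c a b s = x}) := by
    intro x
    refine ⟨Fintype.equivOfCardEq ?_⟩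
    rw [Fintype.card_subtype, Fintype.card_subtype, ← mon_apply, ← mon_apply, h]
  have h3 := Equiv.ofFiberEquiv_map (f := fun s => pix c a' b' s) (g := fun s => pix c a b s)
    fun x => (h2 x).some
  let σ : Equiv.Perm S := Equiv.ofFiberEquiv (f := fun s => pix c a' b' s)
    (g := fun s => pix c a b s) fun x => (h2 x).some
  have e : ∀ s, c (σ s) = c s := fun s => congrArg Sigma.fst (h3 s)
  refine ⟨σ, e, ?_, ?_⟩
  · funext s
    exact (pix_eq (h3 s) (e s)).1
  · funext s
    exact (pix_eq (h3 s) (e s)).2

private theorem mon_eval {S : Type} [Fintype S] (c : S → Fin l) (a b : D r c) (z : F)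
    (v : Crd r → F) :
    MvPolynomial.eval v (MvPolynomial.monomial (mon c a b) z) = z * ∏ s, v (pix c a b s) := by
  have h1 : MvPolynomial.monomial (mon c a b) (1 : F) = ∏ s, MvPolynomial.X (pix c a b s) := by
    unfold mon
    rw [MvPolynomial.monomial_sum_one]
    rfl
  have h2 : MvPolynomial.monomial (mon c a b) z =
      MvPolynomial.C z * MvPolynomial.monomial (mon c a b) 1 := by
    rw [MvPolynomial.C_mul_monomial, mul_one]
  rw [h2, map_mul, MvPolynomial.eval_C, h1, map_prod]
  congr 1
  exact Finset.prod_congr rfl fun s _ => MvPolynomial.eval_X _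

private theorem pol_coeff [CharZero F] {S : Type} [Fintype S] [DecidableEq S] (c : S → Fin l)
    (z : D r c → D r c → F)
    (hc : ∀ h : Tup F r, ∑ a, ∑ b, kr c h a b * z a b = 0) (μ : Crd r →₀ ℕ) :
    ∑ a : D r c, ∑ b : D r c, (if mon c a b = μ then z a b else 0) = 0 := by
  classical
  have hp : (∑ a : D r c, ∑ b : D r c, MvPolynomial.monomial (mon c a b) (z a b)) = 0 := by
    refine MvPolynomial.funext fun v => ?_
    rw [map_zero, map_sum, ← hc fun i => Matrix.of fun s t => v ⟨i, s, t⟩]
    refine Finset.sum_congr rfl fun a _ => ?_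
    rw [map_sum]
    refine Finset.sum_congr rfl fun b _ => ?_
    rw [mon_eval, mul_comm]
    rfl
  have h1 := congrArg (MvPolynomial.coeff μ) hp
  rw [MvPolynomial.coeff_zero, MvPolynomial.coeff_sum] at h1
  refine Eq.trans (Finset.sum_congr rfl fun a _ => ?_) h1
  rw [MvPolynomial.coeff_sum]
  exact Finset.sum_congr rfl fun b _ => (MvPolynomial.coeff_monomial μ (mon c a b) (z a b)).symm

private theorem pol_sum {S : Type} [Fintype S] [DecidableEq S] (c : S → Fin l)
    (X : Matrix (D r c) (D r c) F)
    (hX : ∀ (σ : Equiv.Perm S) (e : ∀ s, c (σ s) = c s) (a b : D r c),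
      X (act σ e a) (act σ e b) = X a b)
    (z : D r c → D r c → F)
    (hc : ∀ μ : Crd r →₀ ℕ,
      ∑ a : D r c, ∑ b : D r c, (if mon c a b = μ then z a b else 0) = 0) :
    ∑ a, ∑ b, X a b * z a b = 0 := by
  classical
  have h3 : ∑ a : D r c, ∑ b : D r c, X a b * z a b =
      ∑ x : D r c × D r c, X x.1 x.2 * z x.1 x.2 :=
    (Fintype.sum_prod_type fun x : D r c × D r c => X x.1 x.2 * z x.1 x.2).symm
  have hmap : ∀ x ∈ (Finset.univ : Finset (D r c × D r c)), mon c x.1 x.2 ∈
      (Finset.univ : Finset (D r c × D r c)).image (fun x => mon c x.1 x.2) := by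
    intro x hx
    rw [Finset.mem_image]
    exact ⟨x, hx, rfl⟩
  rw [h3, ← Finset.sum_fiberwise_of_maps_to hmap
    fun x : D r c × D r c => X x.1 x.2 * z x.1 x.2]
  refine Finset.sum_eq_zero fun μ hμ => ?_
  obtain ⟨y, _, hy⟩ := Finset.mem_image.1 hμ
  have h4 : ∀ x ∈ (Finset.univ : Finset (D r c × D r c)).filter
      (fun x => mon c x.1 x.2 = μ), X x.1 x.2 * z x.1 x.2 = X y.1 y.2 * z x.1 x.2 := by
    intro x hx
    obtain ⟨σ, h0, h5, h6⟩ := mon_perm c (hy.trans (Finset.mem_filter.1 hx).2.symm)
    rw [← h5, ← h6, hX σ h0]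
  have h5 : ∑ x ∈ (Finset.univ : Finset (D r c × D r c)).filter
      (fun x => mon c x.1 x.2 = μ), z x.1 x.2 = 0 := by
    rw [Finset.sum_filter]
    exact (Fintype.sum_prod_type fun x : D r c × D r c =>
      if mon c x.1 x.2 = μ then z x.1 x.2 else 0).trans (hc μ)
  rw [Finset.sum_congr rfl h4, ← Finset.mul_sum, h5, mul_zero]

/-- a matrix which is invariant under the permutations of the slots which preserve the colours is
a combination of the matrices `kr c h` -/
theorem sym_mem_span [CharZero F] {S : Type} [Fintype S] [DecidableEq S] (c : S → Fin l)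
    (X : Matrix (D r c) (D r c) F)
    (hX : ∀ (σ : Equiv.Perm S) (e : ∀ s, c (σ s) = c s) (a b : D r c),
      X (act σ e a) (act σ e b) = X a b) :
    X ∈ Submodule.span F (Set.range (kr (F := F) (r := r) c)) := by
  classical
  by_contra hmem
  obtain ⟨f, hf, hf0⟩ := Submodule.exists_dual_map_eq_bot_of_notMem hmem inferInstance
  have hfs : ∀ M : Matrix (D r c) (D r c) F,
      f M = ∑ a, ∑ b, M a b * f (Matrix.single a b 1) := by
    intro M
    conv_lhs => rw [Matrix.matrix_eq_sum_single M]
    rw [map_sum]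
    refine Finset.sum_congr rfl fun a _ => ?_
    rw [map_sum]
    refine Finset.sum_congr rfl fun b _ => ?_
    rw [← smul_eq_mul, ← map_smul, Matrix.smul_single, smul_eq_mul, mul_one]
  have hfk : ∀ h : Tup F r, ∑ a, ∑ b, kr c h a b * f (Matrix.single a b 1) = 0 := by
    intro h
    have h1 : f (kr c h) ∈ (Submodule.span F (Set.range (kr (F := F) (r := r) c))).map f :=
      Submodule.mem_map_of_mem (Submodule.subset_span ⟨h, rfl⟩)
    rw [hf0] at h1
    rw [← hfs]
    exact (Submodule.mem_bot F).1 h1
  exact hf ((hfs X).trans (pol_sum c X hX _ (pol_coeff c _ hfk)))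

end Pool.Agent.MUW
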