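import Pool.Agent.MUW.Pol
import Pool.Agent.MUW.Dens
import Pool.Agent.MUM.L.DC

/-!
# MUW: Schur-Weyl duality with colours and variable dimensions, for a Zariski dense set

Port of `MUT.Schur`. The group is the group of the permutations of `S` which preserve `c`, with the representation
`σ ↦ pm σ`. Its commutant consists of the matrices as in `sym_mem_span`, so by `span_dense` of the combinations of the
`kr c h`, `h ∈ Γ`; `MUM.comm_comm` and `MUM.exists_compl` give both theorems.
-/

set_option linter.unusedSectionVars false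
set_option linter.unusedVariables false

namespace Pool.Agent.MUW

universe w

variable {F : Type w} [Field F] {l : ℕ} {r : Fin l → ℕ}

/-- the permutations which preserve the colours -/
private def mG {S : Type} (c : S → Fin l) : Subgroup (Equiv.Perm S) where
  carrier := {σ | ∀ s, c (σ s) = c s}
  mul_mem' := fun {σ τ} hσ hτ s => by rw [Equiv.Perm.mul_apply, hσ, hτ]
  one_mem' := fun s => rfl
  inv_mem' := fun {σ} hσ s => by
    have h := hσ (σ⁻¹ s)
    have h1 : σ (σ⁻¹ s) = s := σ.apply_symm_apply s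
    rw [h1] at h
    exact h.symm

/-- the representation -/
private def mR (F : Type w) [Field F] (r : Fin l → ℕ) {S : Type} (c : S → Fin l) :
    Representation F (mG c) (D r c → F) where
  toFun σ := pm (r := r) (σ : Equiv.Perm S) σ.2
  map_one' := rfl
  map_mul' σ τ := by
    refine LinearMap.ext fun x => ?_
    funext a
    refine congrArg x ?_
    funext s
    exact Fin.ext rfl

theorem pm_kr {S S' : Type} [Fintype S] [DecidableEq S] [Fintype S'] [DecidableEq S']
    {c : S → Fin l} {c' : S' → Fin l} (φ : S' ≃ S) (e : ∀ s, c (φ s) = c' s) (h : Tup F r)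
    (x : D r c' → F) : pm φ e ((kr c' h).mulVec x) = (kr c h).mulVec (pm φ e x) := by
  funext a
  show ∑ b, kr c' h (act φ e a) b * x b = ∑ b, kr c h a b * x (act φ e b)
  rw [← Equiv.sum_comp (actE φ e)]
  refine Finset.sum_congr rfl fun b _ => ?_
  show kr c' h (act φ e a) (act φ e b) * x (act φ e b) = _
  rw [kr_act]

private theorem m_sym {S : Type} [Fintype S] [DecidableEq S] {c : S → Fin l}
    (X : Matrix (D r c) (D r c) F) (σ : Equiv.Perm S) (e : ∀ s, c (σ s) = c s)
    (h : ∀ v, pm σ e (X.mulVec v) = X.mulVec (pm σ e v)) (a b : D r c) :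
    X (act σ e a) (act σ e b) = X a b := by
  have h1 := congrFun (h (Pi.single (act σ e b) 1)) a
  have h2 : pm (F := F) (r := r) σ e (Pi.single (act σ e b) 1) = Pi.single b 1 := by
    funext d
    show (Pi.single (act σ e b) 1 : D r c → F) (act σ e d) = (Pi.single b 1 : D r c → F) d
    by_cases hc : d = b
    · subst hc
      rw [Pi.single_eq_same, Pi.single_eq_same]
    · have hc' : act σ e d ≠ act σ e b := fun e' => hc ((actE σ e).injective e')
      rw [Pi.single_eq_of_ne hc', Pi.single_eq_of_ne hc]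
  rw [h2] at h1
  have h3 : pm (F := F) (r := r) σ e (X.mulVec (Pi.single (act σ e b) 1)) a =
      X (act σ e a) (act σ e b) := by
    show X.mulVec (Pi.single (act σ e b) 1) (act σ e a) = _
    rw [Matrix.mulVec_single_one]
    rfl
  rw [h3, Matrix.mulVec_single_one] at h1
  exact h1

/-- the commutant -/
private theorem m_span [CharZero F] [IsAlgClosed F] {Γ : Set (Tup F r)} (hΓ : Dense Γ)
    {S : Type} [Fintype S] [DecidableEq S] (c : S → Fin l)
    (T : (D r c → F) →ₗ[F] (D r c → F)) (hT : MUM.Comm (mR F r c) T) :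
    ∃ X ∈ Submodule.span F (kr (F := F) c '' Γ), T = Matrix.mulVecLin X := by
  have h1 : ∀ v, T v = (LinearMap.toMatrix' T).mulVec v := by
    intro v
    rw [← Matrix.toLin'_apply, Matrix.toLin'_toMatrix']
  refine ⟨LinearMap.toMatrix' T, ?_, LinearMap.ext h1⟩
  have h2 : LinearMap.toMatrix' T ∈ Submodule.span F (Set.range (kr (F := F) (r := r) c)) := by
    refine sym_mem_span c _ fun σ hσ a b => ?_
    refine m_sym _ σ hσ (fun v => ?_) a b
    rw [← h1, ← h1]
    exact LinearMap.congr_fun (hT ⟨σ, hσ⟩) v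
  refine (Submodule.span_le.2 ?_) h2
  rintro _ ⟨h, rfl⟩
  exact span_dense hΓ c h

private theorem m_kr_comm {S : Type} [Fintype S] [DecidableEq S] (c : S → Fin l)
    (h : Tup F r) : MUM.Comm (mR F r c) (kr c h).mulVecLin := by
  rintro ⟨σ, hσ⟩
  refine LinearMap.ext fun v => ?_
  exact pm_kr σ hσ h v

private theorem m_smul {S : Type} [Fintype S] [DecidableEq S] {c : S → Fin l} (x : F)
    (X : Matrix (D r c) (D r c) F) : (x • X).mulVecLin = x • X.mulVecLin := by
  ext v i
  simp

/-- an endomorphism which commutes with a Zariski dense subset is a combination of permutations -/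
theorem comm_dense [CharZero F] [IsAlgClosed F] {Γ : Set (Tup F r)} (hΓ : Dense Γ) {S : Type}
    [Fintype S] [DecidableEq S] (c : S → Fin l) (f : (D r c → F) →ₗ[F] (D r c → F))
    (hf : ∀ h ∈ Γ, f ∘ₗ (kr c h).mulVecLin = (kr c h).mulVecLin ∘ₗ f) :
    f ∈ Submodule.span F {p | ∃ (σ : Equiv.Perm S) (e : ∀ s, c (σ s) = c s), p = pm σ e} := by
  have h1 : f ∈ Submodule.span F (Set.range (mR F r c)) := by
    refine MUM.comm_comm (mR F r c) f fun T hT => ?_
    obtain ⟨X, hX, rfl⟩ := m_span hΓ c T hT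
    refine Submodule.span_induction (p := fun X _ => f ∘ₗ X.mulVecLin = X.mulVecLin ∘ₗ f)
      ?_ ?_ ?_ ?_ hX
    · rintro _ ⟨h', hh', rfl⟩
      exact hf h' hh'
    · rw [Matrix.mulVecLin_zero, LinearMap.comp_zero, LinearMap.zero_comp]
    · intro X Y _ _ hX hY
      rw [Matrix.mulVecLin_add, LinearMap.comp_add, LinearMap.add_comp, hX, hY]
    · intro x X _ hX
      rw [m_smul, LinearMap.comp_smul, LinearMap.smul_comp, hX]
  refine (Submodule.span_le.2 ?_) h1
  rintro _ ⟨⟨σ, hσ⟩, rfl⟩
  exact Submodule.subset_span ⟨σ, hσ, rfl⟩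

/-- the same for two words with the same colours -/
theorem comm_dense₂ [CharZero F] [IsAlgClosed F] {Γ : Set (Tup F r)} (hΓ : Dense Γ) {S S' : Type}
    [Fintype S] [DecidableEq S] [Fintype S'] [DecidableEq S'] (c : S → Fin l) (c' : S' → Fin l)
    (φ : S ≃ S') (e : ∀ s, c' (φ s) = c s) (f : (D r c → F) →ₗ[F] (D r c' → F))
    (hf : ∀ h ∈ Γ, f ∘ₗ (kr c h).mulVecLin = (kr c' h).mulVecLin ∘ₗ f) :
    f ∈ Submodule.span F {p | ∃ (σ : S ≃ S') (e : ∀ s, c' (σ s) = c s), p = pm σ e} := by
  have e' : ∀ s, c (φ.symm s) = c' s := fun s => by rw [← e, Equiv.apply_symm_apply]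
  have h1 : pm φ.symm e' ∘ₗ f ∈ Submodule.span F
      {p | ∃ (σ : Equiv.Perm S) (e : ∀ s, c (σ s) = c s), p = pm (F := F) (r := r) σ e} := by
    refine comm_dense hΓ c _ fun h hh => ?_
    refine LinearMap.ext fun x => ?_
    have h2 := LinearMap.congr_fun (hf h hh) x
    simp only [LinearMap.comp_apply, Matrix.mulVecLin_apply] at h2 ⊢
    rw [h2, pm_kr]
  have h2 : f = pm φ e ∘ₗ (pm φ.symm e' ∘ₗ f) := by
    refine LinearMap.ext fun x => ?_
    funext a
    refine congrArg (f x) ?_
    funext s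
    apply Fin.ext
    show (a s : ℕ) = a (φ (φ.symm s))
    rw [Equiv.apply_symm_apply]
  rw [h2]
  have h3 : Submodule.span F
      {p | ∃ (σ : Equiv.Perm S) (e : ∀ s, c (σ s) = c s), p = pm (F := F) (r := r) σ e} ≤
      (Submodule.span F {p | ∃ (σ : S ≃ S') (e : ∀ s, c' (σ s) = c s),
        p = pm (F := F) (r := r) σ e}).comap (LinearMap.llcomp F _ _ _ (pm φ e)) := by
    refine Submodule.span_le.2 ?_
    rintro _ ⟨σ, hσ, rfl⟩
    refine Submodule.subset_span ⟨σ.trans φ, fun s => (e (σ s)).trans (hσ s), ?_⟩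
    refine LinearMap.ext fun x => ?_
    funext a
    show x (act σ hσ (act φ e a)) = x (act _ _ a)
    rw [act_act]
  exact h3 h1

theorem compl_dense [CharZero F] [IsAlgClosed F] {Γ : Set (Tup F r)} (hΓ : Dense Γ) {S : Type}
    [Fintype S] [DecidableEq S] (c : S → Fin l) (W : Submodule F (D r c → F))
    (hW : ∀ h ∈ Γ, ∀ v ∈ W, (kr c h).mulVec v ∈ W) :
    ∃ W' : Submodule F (D r c → F), (∀ h ∈ Γ, ∀ v ∈ W', (kr c h).mulVec v ∈ W') ∧
      IsCompl W W' := by
  obtain ⟨W', h1, h2⟩ := MUM.exists_compl (mR F r c) W (fun T hT => by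
    obtain ⟨X, hX, rfl⟩ := m_span hΓ c T hT
    refine Submodule.span_induction (p := fun X _ => ∀ v ∈ W, X.mulVecLin v ∈ W)
      ?_ ?_ ?_ ?_ hX
    · rintro _ ⟨h', hh', rfl⟩
      exact hW h' hh'
    · intro v _
      rw [Matrix.mulVecLin_zero]
      exact W.zero_mem
    · intro X Y _ _ hX hY v hv
      rw [Matrix.mulVecLin_add]
      exact W.add_mem (hX v hv) (hY v hv)
    · intro x X _ hX v hv
      rw [m_smul]
      exact W.smul_mem x (hX v hv))
  exact ⟨W', fun h _ v hv => h2 _ (m_kr_comm c h) v hv, h1⟩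

/-- a map which commutes with a Zariski dense subset commutes with everything -/
theorem comm_all [IsAlgClosed F] {Γ : Set (Tup F r)} (hΓ : Dense Γ) {S S' : Type}
    [Fintype S] [DecidableEq S] [Fintype S'] [DecidableEq S'] (c : S → Fin l) (c' : S' → Fin l)
    (f : (D r c → F) →ₗ[F] (D r c' → F))
    (hf : ∀ h ∈ Γ, f ∘ₗ (kr c h).mulVecLin = (kr c' h).mulVecLin ∘ₗ f) (h : Tup F r) (hh : Sl h) :
    f ∘ₗ (kr c h).mulVecLin = (kr c' h).mulVecLin ∘ₗ f := by
  classical
  refine LinearMap.ext fun x => ?_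
  funext a
  let M : Matrix (D r c') (D r c) F := LinearMap.toMatrix' f
  have hM : ∀ v, f v = M.mulVec v := fun v => by
    rw [← Matrix.toLin'_apply, Matrix.toLin'_toMatrix']
  let p : MvPolynomial (Crd r) F :=
    (∑ b, MvPolynomial.C (M a b) * ∑ b', (∏ s, MvPolynomial.X ⟨c s, b s, b' s⟩) *
      MvPolynomial.C (x b')) -
    ∑ b, (∏ s, MvPolynomial.X ⟨c' s, a s, b s⟩) * MvPolynomial.C (f x b)
  have hp : ∀ g : Tup F r, MvPolynomial.eval (crd g) p =
      f ((kr c g).mulVec x) a - (kr c' g).mulVec (f x) a := by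
    intro g
    simp only [p, map_sub, map_sum, map_mul, map_prod, MvPolynomial.eval_C, MvPolynomial.eval_X]
    rw [hM ((kr c g).mulVec x)]
    rfl
  have h1 := hΓ p (fun g hg => by
    rw [hp, sub_eq_zero]
    exact congrFun (LinearMap.congr_fun (hf g hg) x) a) h hh
  rw [hp, sub_eq_zero] at h1
  exact h1

end Pool.Agent.MUW
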