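import Pool.Agent.MUW.Det
import Pool.Agent.MUW.Fv
import Pool.Agent.MUW.Cv
import Pool.Agent.MUW.Emb
import Pool.Agent.KTT.Rigid

/-!
# MUW: the invariants in `V_c ⊗ L` are algebraic, and `V_c ⊗ L` is semisimple

`U`, `inc`, `prj` from `exists_univ`; `f`, `g`, `E` from `vc_emb`. `pv_tate`: for `v` fixed and `x = E v` the vector `f v = vc c x` is fixed. The `g` which act
trivially on `H(L)` give `kv c h x = x` for `h` in the dense set, so for all `Sl h`. `fft_vec`: `x = ∑ dl φ_j • p_j`;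
`det_up`: `D`, `d`, `f_j` with `f_j d = ∑ dl φ_j a • ml (jj ∘ a)`, so `vc c x = ∑ (f_j ⊗ id) (d ⊗ p_j)`, and `d ⊗ p_j` is fixed because the `dl φ_j` are independent.
`pv_ss`: the image of a stable subspace under `E` is stable under `kv c h` for all `Sl h`, and under `1 ⊗ g`; `compl_vec`, then `comap E`.
-/

set_option linter.unusedSectionVars false
set_option linter.unusedVariables false

namespace Pool.Agent.MUW

open CategoryTheory MonoidalCategory Limits TensorProduct Pool.Agent.KTT Pool.Agent.MUT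

universe v u w w'

section Lin

variable {C : Type u} [Category.{v} C] [MonoidalCategory C]
  {F : Type w} [Field F] (H : C ⥤ ModuleCat.{w} F) [H.Monoidal]

private noncomputable def ta_B (X Y : C) : H.obj X →ₗ[F] H.obj Y →ₗ[F] H.obj (X ⊗ Y) :=
  LinearMap.mk₂ F (fun x y => tm H x y) (tm_add_left H) (tm_smul_left H) (tm_add_right H)
    (tm_smul_right H)

private theorem ta_sum_right {ι : Type*} (s : Finset ι) {X Y : C} (x : H.obj X)
    (y : ι → H.obj Y) : tm H x (∑ i ∈ s, y i) = ∑ i ∈ s, tm H x (y i) :=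
  map_sum (ta_B H X Y x) y s

private theorem ta_sum_left {ι : Type*} (s : Finset ι) {X Y : C} (x : ι → H.obj X)
    (y : H.obj Y) : tm H (∑ i ∈ s, x i) y = ∑ i ∈ s, tm H (x i) y :=
  map_sum ((ta_B H X Y).flip y) x s

private theorem ta_zero_left {X Y : C} (y : H.obj Y) : tm H (0 : H.obj X) y = 0 :=
  map_zero ((ta_B H X Y).flip y)

end Lin

section Kv

variable {F : Type w} [Field F] {l : ℕ} {r : Fin l → ℕ} {S : Type} [Fintype S] [DecidableEq S]
  {P : Type*} [AddCommGroup P] [Module F P]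

private theorem ta_kv_mul (c : S → Fin l) (h h' : Tup F r) (x : D r c → P) :
    kv c h (kv c h' x) = kv c (fun i => h i * h' i) x := by
  funext a
  show ∑ b, kr c h a b • ∑ b', kr c h' b b' • x b' = ∑ b', kr c (fun i => h i * h' i) a b' • x b'
  rw [kr_mul]
  simp only [Matrix.mul_apply, Finset.smul_sum, Finset.sum_smul, smul_smul]
  exact Finset.sum_comm

private theorem ta_kv_one (c : S → Fin l) (x : D r c → P) :
    kv c (fun i => (1 : Matrix (Fin (r i)) (Fin (r i)) F)) x = x := by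
  funext a
  show ∑ b, kr c (fun i => (1 : Matrix (Fin (r i)) (Fin (r i)) F)) a b • x b = x a
  rw [kr_one]
  simp only [Matrix.one_apply, ite_smul, one_smul, zero_smul, Finset.sum_ite_eq, Finset.mem_univ,
    if_true]

private theorem ta_kv_inv (c : S → Fin l) {h : Tup F r} (hh : Sl h) (x : D r c → P) :
    kv c (fun i => (h i)⁻¹) (kv c h x) = x := by
  rw [ta_kv_mul]
  have h1 : (fun i => (h i)⁻¹ * h i) = fun i => (1 : Matrix (Fin (r i)) (Fin (r i)) F) := by
    funext i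
    exact Matrix.nonsing_inv_mul _ (by rw [hh i]; exact isUnit_one)
  rw [h1, ta_kv_one]

private theorem ta_sl_inv {h : Tup F r} (hh : Sl h) : Sl fun i => (h i)⁻¹ := by
  intro i
  rw [Matrix.det_nonsing_inv, hh i, Ring.inverse_one]

end Kv

variable {C : Type u} [Category.{v} C] [Preadditive C] [HasBinaryBiproducts C]
  [MonoidalCategory C] [MonoidalPreadditive C] [RightRigidCategory C] [BraidedCategory C]
  {F : Type w} [Field F] [CharZero F] [IsAlgClosed F] {H : C ⥤ ModuleCat.{w} F} [H.Additive]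
  [H.Monoidal] {G : Type w'} [Group G] {ρ : G →* Aut H} {B : C}

/-- the coordinates of `V_c ⊗ L` and the operation of the group -/
private theorem ta_setup (M : WeilType H ρ B) (n : ℕ) (c : Fin n → Fin M.l) (L : C) :
    ∃ (U : C) (inc : ∀ i, M.V i ⟶ U) (φ : (D M.r c → H.obj L) →ₗ[F] H.obj (pw U n ⊗ L)),
      Br H U U ∧ (∀ x, φ x = vc H M.b inc c x) ∧ Function.Injective φ ∧
      ∃ f ∈ ah H (pv M.V n c ⊗ L) (pw U n ⊗ L), ∃ g ∈ ah H (pw U n ⊗ L) (pv M.V n c ⊗ L),
      (∀ v, g (f v) = v) ∧ ∃ E : H.obj (pv M.V n c ⊗ L) →ₗ[F] (D M.r c → H.obj L),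
        (∀ v, f v = φ (E v)) ∧ Function.Injective E ∧
        ∀ (g : G) (v : H.obj (pv M.V n c ⊗ L)),
          φ (E (((ρ g).hom.app _).hom v)) = ((ρ g).hom.app _).hom (φ (E v)) := by
  obtain ⟨U, inc, prj, hp, hU⟩ := exists_univ H M.V M.braid
  obtain ⟨φ, hφ⟩ := vc_lin H M.b inc (L := L) c
  have hi : ∀ i, Function.Injective (H.map (inc i)).hom := by
    intro i x y hxy
    have h1 : ∀ z, (H.map (prj i)).hom ((H.map (inc i)).hom z) = z := by
      intro z
      have h2 : H.map (inc i) ≫ H.map (prj i) = 𝟙 _ := by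
        rw [← H.map_comp, hp, H.map_id]
      exact LinearMap.congr_fun (congrArg ModuleCat.Hom.hom h2) z
    rw [← h1 x, ← h1 y, hxy]
  have hφi : Function.Injective φ := by
    rw [injective_iff_map_eq_zero]
    intro x hx
    rw [hφ] at hx
    exact vc_inj H M.b inc hi c x hx
  obtain ⟨f, hf, g, hg, hgf, E, hE⟩ := vc_emb H M.b inc prj hp n c L
  have hE' : ∀ v, f v = φ (E v) := fun v => by rw [hφ, hE]
  refine ⟨U, inc, φ, hU, hφ, hφi, f, hf, g, hg, hgf, E, hE', ?_, ?_⟩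
  · intro x y hxy
    rw [← hgf x, ← hgf y, hE', hE', hxy]
  · intro σ v
    rw [← hE', ← hE', nat_ah H (ρ σ).hom hf]

private theorem ta_act (M : WeilType H ρ B) {n : ℕ} (c : Fin n → Fin M.l) {L U : C} (hL : M.R L)
    (inc : ∀ i, M.V i ⟶ U) {g : G} {h : Tup F M.r} (hg : ∀ X, M.R X → ∀ v, ((ρ g).hom.app X).hom v = v)
    (hh : ∀ i x, ((ρ g).hom.app (M.V i)).hom (M.b i x) = ∑ y, h i y x • M.b i y)
    (x : D M.r c → H.obj L) : ((ρ g).hom.app (pw U n ⊗ L)).hom (vc H M.b inc c x) =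
      vc H M.b inc c (kv c h x) := by
  rw [vc_act H M.b inc ρ M.tens (t := fun _ => 1) (h := h)
    (fun i x => by rw [hh, one_smul]) c x, Finset.prod_const_one, one_smul]
  congr 2
  funext a
  exact hg L hL _

theorem pv_tate (M : WeilType H ρ B) (n : ℕ) (c : Fin n → Fin M.l) (L : C) (hL : M.R L) :
    fixed H ρ (pv M.V n c ⊗ L) ≤ alg H (pv M.V n c ⊗ L) := by
  intro v hv
  obtain ⟨U, inc, φ, hU, hφ, hφi, f, hf, g, hg, hgf, E, hE, hEi, hact⟩ := ta_setup M n c L
  have hfix : ∀ σ : G, ((ρ σ).hom.app _).hom (φ (E v)) = φ (E v) := by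
    intro σ
    rw [← hact, hv σ]
  -- the coordinates are invariant under the product of the special linear groups
  have hinv : ∀ h : Tup F M.r, Sl h → kv c h (E v) = E v := by
    refine fun h hh => inv_sl M.dense c (E v) (fun h' hh' => ?_) h hh
    obtain ⟨σ, hσ, hσ'⟩ := hh'
    refine hφi ?_
    rw [hφ, ← ta_act M c hL inc hσ hσ', ← hφ, hfix]
  have : FiniteDimensional F (H.obj L) := finite_of_rigid H L
  obtain ⟨k, γ, m, ψ, p, hψ, hind, hx⟩ := fft_vec c (E v) hinv
  obtain ⟨Z, hZ, hZ1, d, hd⟩ := det_up H M.b inc hU M.R M.unit M.tensor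
    (fun i => by
      obtain ⟨D, h1, h2, h3, -⟩ := M.det i
      exact ⟨D, h1, h2, h3⟩) k γ
  choose f' hf' hf'd using fun j => hd n c (ψ j) (hψ j)
  -- the vector as a sum
  have hsum : ∀ q : Fin m → H.obj L, φ (fun a => ∑ j, dl F (ψ j) a • q j) =
      ∑ j, tm H (f' j d) (q j) := by
    intro q
    rw [hφ]
    unfold vc
    simp only [hf'd, ta_sum_right, ta_sum_left, tm_smul_left, tm_smul_right]
    exact Finset.sum_comm
  have hfd : f v = ∑ j, tl H (f' j) LinearMap.id (tm H d (p j)) := by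
    rw [hE]
    conv_lhs => rw [hx]
    rw [hsum]
    exact Finset.sum_congr rfl fun j _ => by rw [tl_tm, LinearMap.id_apply]
  have hmem : ∀ j, tm H d (p j) ∈ fixed H ρ (Z ⊗ L) := by
    intro j σ
    have := M.tens σ
    by_cases hd0 : d = 0
    · rw [hd0, ta_zero_left, map_zero]
    obtain ⟨s, hs⟩ := (finrank_eq_one_iff_of_nonzero' d hd0).1 hZ1 (((ρ σ).hom.app Z).hom d)
    have h1 := hfix σ
    conv_lhs at h1 => rw [hx, hsum, map_sum]
    have h2 : ∀ j, ((ρ σ).hom.app (pw U n ⊗ L)).hom (tm H (f' j d) (p j)) =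
        tm H (f' j d) (s • ((ρ σ).hom.app L).hom (p j)) := by
      intro j
      rw [nat_tm, ← nat_ah H (ρ σ).hom (hf' j), ← hs, map_smul, tm_smul_left, tm_smul_right]
    simp only [h2] at h1
    rw [← hsum] at h1
    have h3 := hφi h1
    rw [hx] at h3
    have h4 : ∀ a : D M.r c, ∑ j, dl F (ψ j) a • (s • ((ρ σ).hom.app L).hom (p j) - p j) = 0 := by
      intro a
      have h5 := congrFun h3 a
      simp only [smul_sub, Finset.sum_sub_distrib]
      exact sub_eq_zero.2 h5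
    have h6 : ∀ j, s • ((ρ σ).hom.app L).hom (p j) - p j = 0 := by
      intro j
      rw [← Module.forall_dual_apply_eq_zero_iff F]
      intro lam
      refine Fintype.linearIndependent_iff.1 hind
        (fun j => lam (s • ((ρ σ).hom.app L).hom (p j) - p j)) ?_ j
      funext a
      rw [Finset.sum_apply, Pi.zero_apply, ← map_zero lam, ← h4 a, map_sum]
      refine Finset.sum_congr rfl fun j _ => ?_
      rw [Pi.smul_apply, smul_eq_mul, map_smul, smul_eq_mul, mul_comm]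
    rw [nat_tm, ← hs, tm_smul_left, ← tm_smul_right, sub_eq_zero.1 (h6 j)]
  have halg : f v ∈ alg H (pw U n ⊗ L) := by
    rw [hfd]
    refine Submodule.sum_mem _ fun j _ => ?_
    exact alg_ah H (ah_tl H (hf' j) (ah_id H L)) ((M.tate _ (M.tensor _ _ hZ hL)).1 (hmem j))
  have h1 := alg_ah H hg halg
  rwa [hgf] at h1

theorem pv_ss (M : WeilType H ρ B) (n : ℕ) (c : Fin n → Fin M.l) (L : C) (hL : M.R L) :
    Semisimple H ρ (pv M.V n c ⊗ L) := by
  intro W hW
  obtain ⟨U, inc, φ, hU, hφ, hφi, f, hf, g, hg, hgf, E, hE, hEi, hact⟩ := ta_setup M n c L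
  have : FiniteDimensional F (H.obj L) := finite_of_rigid H L
  have hX1 : ∀ h : Tup F M.r, Sl h → ∀ x ∈ W.map E, kv c h x ∈ W.map E := by
    intro h hh
    refine stab_sl M.dense c (W.map E) (fun h' hh' => ?_) h hh
    obtain ⟨σ, hσ, hσ'⟩ := hh'
    rintro _ ⟨v, hv, rfl⟩
    refine ⟨((ρ σ).hom.app _).hom v, hW σ v hv, hφi ?_⟩
    rw [hact, hφ, hφ, ta_act M c hL inc hσ hσ']
  -- the operation of the group in coordinates
  have hgr : ∀ σ : G, ∃ (h : Tup F M.r) (t : F), Sl h ∧ t ≠ 0 ∧ ∀ v,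
      E (((ρ σ).hom.app _).hom v) = t • kv c h fun a => ((ρ σ).hom.app L).hom (E v a) := by
    intro σ
    obtain ⟨h, t, h1, h2, h3⟩ := exists_sl H M.b ρ σ
    refine ⟨h, ∏ s, t (c s), h1, Finset.prod_ne_zero_iff.2 fun s _ => h2 _, fun v => hφi ?_⟩
    rw [hact, hφ, vc_act H M.b inc ρ M.tens h3 c, map_smul, hφ]
  have hX2 : ∀ σ : G, ∀ x ∈ W.map E, (fun a => ((ρ σ).hom.app L).hom (x a)) ∈ W.map E := by
    rintro σ _ ⟨v, hv, rfl⟩
    obtain ⟨h, t, h1, h2, h3⟩ := hgr σ
    have h4 : kv c h (fun a => ((ρ σ).hom.app L).hom (E v a)) ∈ W.map E := by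
      have h5 : E (((ρ σ).hom.app _).hom v) ∈ W.map E := ⟨_, hW σ v hv, rfl⟩
      rw [h3] at h5
      have h6 := Submodule.smul_mem _ t⁻¹ h5
      rwa [smul_smul, inv_mul_cancel₀ h2, one_smul] at h6
    have h7 := hX1 _ (ta_sl_inv h1) _ h4
    rwa [ta_kv_inv c h1] at h7
  obtain ⟨X', hX'1, hX'2, hX'⟩ := compl_vec c (fun σ : G => ((ρ σ).hom.app L).hom)
    (M.tate L hL).2 (W.map E) hX1 hX2
  refine ⟨X'.comap E, ?_, ?_⟩
  · intro σ v hv
    obtain ⟨h, t, h1, h2, h3⟩ := hgr σ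
    show E _ ∈ X'
    rw [h3]
    exact Submodule.smul_mem _ _ (hX'1 h h1 _ (hX'2 σ _ hv))
  · rw [isCompl_iff, disjoint_iff, codisjoint_iff]
    constructor
    · rw [eq_bot_iff]
      rintro v ⟨h1, h2⟩
      have h3 : E v ∈ W.map E ⊓ X' := ⟨⟨v, h1, rfl⟩, h2⟩
      rw [hX'.inf_eq_bot, Submodule.mem_bot] at h3
      exact (Submodule.mem_bot F).2 (hEi (by rw [h3, map_zero]))
    · rw [eq_top_iff]
      rintro v -
      have h1 : E v ∈ W.map E ⊔ X' := by
        rw [hX'.sup_eq_top]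
        exact Submodule.mem_top
      obtain ⟨_, ⟨w, hw, rfl⟩, x', hx', h2⟩ := Submodule.mem_sup.1 h1
      refine Submodule.mem_sup.2 ⟨w, hw, v - w, ?_, add_sub_cancel _ _⟩
      show E (v - w) ∈ X'
      rw [map_sub, ← h2, add_sub_cancel_left]
      exact hx'

end Pool.Agent.MUW
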