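import Pool.Agent.MUW.Defs
import Pool.Agent.KTT.Words

/-!
# MUW: mixed words

`MW P`: words in the objects with the property `P` and their duals. Every object of `Ths P` is a retract of a finite sum of such words (port of `Pool.Agent.KTT.Words`).
-/

set_option linter.unusedSectionVars false
set_option linter.unusedVariables false

namespace Pool.Agent.MUW

open CategoryTheory MonoidalCategory Limits Pool.Agent.KTT

universe v u

variable {C : Type u} [Category.{v} C] [MonoidalCategory C] [RightRigidCategory C]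

/-- Tensor words in the objects with the property `P` and their duals. -/
inductive MW (P : C → Prop) : C → Prop
  | base (X : C) (h : P X) : MW P X
  | tensor (X Y : C) (hX : MW P X) (hY : MW P Y) : MW P (X ⊗ Y)
  | dual (X : C) (hX : MW P X) : MW P Xᘁ

variable [Preadditive C] [HasBinaryBiproducts C] [MonoidalPreadditive C]

/-- Finite sums of mixed words. -/
private inductive SumWord (P : C → Prop) : C → Prop
  | word (X : C) (h : MW P X) : SumWord P X
  | sum (X Y : C) (hX : SumWord P X) (hY : SumWord P Y) : SumWord P (X ⊞ Y)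

private def Retr (X Y : C) : Prop := ∃ (i : X ⟶ Y) (p : Y ⟶ X), i ≫ p = 𝟙 X

private theorem retr_trans {X Y Z : C} (h : Retr X Y) (h' : Retr Y Z) : Retr X Z := by
  obtain ⟨i, p, h⟩ := h
  obtain ⟨j, q, h'⟩ := h'
  refine ⟨i ≫ j, q ≫ p, ?_⟩
  rw [Category.assoc, ← Category.assoc j, h', Category.id_comp, h]

private theorem retr_sum {X Y X' Y' : C} (h : Retr X X') (h' : Retr Y Y') :
    Retr (X ⊞ Y) (X' ⊞ Y') := by
  obtain ⟨i, p, h⟩ := h
  obtain ⟨j, q, h'⟩ := h'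
  refine ⟨biprod.map i j, biprod.map p q, ?_⟩
  ext <;> simp [h, h']

private theorem retr_tensor {X Y X' Y' : C} (h : Retr X X') (h' : Retr Y Y') :
    Retr (X ⊗ Y) (X' ⊗ Y') := by
  obtain ⟨i, p, h⟩ := h
  obtain ⟨j, q, h'⟩ := h'
  refine ⟨i ⊗ₘ j, p ⊗ₘ q, ?_⟩
  rw [MonoidalCategory.tensorHom_comp_tensorHom, h, h', MonoidalCategory.id_tensorHom_id]

private theorem retr_dual {X Y : C} (h : Retr X Y) : Retr Xᘁ Yᘁ := by
  obtain ⟨i, p, h⟩ := h
  refine ⟨rightAdjointMate p, rightAdjointMate i, ?_⟩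
  rw [← comp_rightAdjointMate, h, rightAdjointMate_id]

private theorem dual_add {X Y : C} (f g : X ⟶ Y) :
    rightAdjointMate (f + g) = rightAdjointMate f + rightAdjointMate g := by
  unfold rightAdjointMate
  simp only [MonoidalPreadditive.add_whiskerRight, MonoidalPreadditive.whiskerLeft_add,
    Preadditive.add_comp, Preadditive.comp_add]

private theorem retr_left (X Y Z : C) : Retr (X ⊗ (Y ⊞ Z)) ((X ⊗ Y) ⊞ (X ⊗ Z)) := by
  refine ⟨biprod.lift (X ◁ biprod.fst) (X ◁ biprod.snd),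
    biprod.desc (X ◁ biprod.inl) (X ◁ biprod.inr), ?_⟩
  rw [biprod.lift_desc, ← MonoidalCategory.whiskerLeft_comp, ← MonoidalCategory.whiskerLeft_comp,
    ← MonoidalPreadditive.whiskerLeft_add, biprod.total, MonoidalCategory.whiskerLeft_id]

private theorem retr_right (X Y Z : C) : Retr ((Y ⊞ Z) ⊗ X) ((Y ⊗ X) ⊞ (Z ⊗ X)) := by
  refine ⟨biprod.lift (biprod.fst ▷ X) (biprod.snd ▷ X),
    biprod.desc (biprod.inl ▷ X) (biprod.inr ▷ X), ?_⟩
  rw [biprod.lift_desc, ← comp_whiskerRight, ← comp_whiskerRight,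
    ← MonoidalPreadditive.add_whiskerRight, biprod.total, id_whiskerRight]

private theorem retr_dual_sum (X Y : C) : Retr (X ⊞ Y)ᘁ (Xᘁ ⊞ Yᘁ) := by
  refine ⟨biprod.lift (rightAdjointMate (biprod.inl : X ⟶ X ⊞ Y))
      (rightAdjointMate (biprod.inr : Y ⟶ X ⊞ Y)),
    biprod.desc (rightAdjointMate (biprod.fst : X ⊞ Y ⟶ X))
      (rightAdjointMate (biprod.snd : X ⊞ Y ⟶ Y)), ?_⟩
  rw [biprod.lift_desc, ← comp_rightAdjointMate, ← comp_rightAdjointMate, ← dual_add,
    biprod.total, rightAdjointMate_id]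

private theorem sw_tensor_word (P : C → Prop) (X Y : C) (hX : MW P X) (hY : SumWord P Y) :
    ∃ S, SumWord P S ∧ Retr (X ⊗ Y) S := by
  induction hY with
  | word Y h => exact ⟨X ⊗ Y, SumWord.word _ (MW.tensor X Y hX h), 𝟙 _, 𝟙 _, by simp⟩
  | sum Y Z hY hZ ihY ihZ =>
    obtain ⟨S, hS, h1⟩ := ihY
    obtain ⟨S', hS', h2⟩ := ihZ
    exact ⟨S ⊞ S', SumWord.sum _ _ hS hS', retr_trans (retr_left X Y Z) (retr_sum h1 h2)⟩

private theorem sw_tensor (P : C → Prop) (X Y : C) (hX : SumWord P X) (hY : SumWord P Y) :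
    ∃ S, SumWord P S ∧ Retr (X ⊗ Y) S := by
  induction hX with
  | word X h => exact sw_tensor_word P X Y h hY
  | sum X Z hX hZ ihX ihZ =>
    obtain ⟨S, hS, h1⟩ := ihX
    obtain ⟨S', hS', h2⟩ := ihZ
    exact ⟨S ⊞ S', SumWord.sum _ _ hS hS', retr_trans (retr_right Y X Z) (retr_sum h1 h2)⟩

private theorem sw_dual (P : C → Prop) (X : C) (hX : SumWord P X) :
    ∃ S, SumWord P S ∧ Retr Xᘁ S := by
  induction hX with
  | word X h => exact ⟨Xᘁ, SumWord.word _ (MW.dual X h), 𝟙 _, 𝟙 _, by simp⟩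
  | sum X Z hX hZ ihX ihZ =>
    obtain ⟨S, hS, h1⟩ := ihX
    obtain ⟨S', hS', h2⟩ := ihZ
    exact ⟨S ⊞ S', SumWord.sum _ _ hS hS', retr_trans (retr_dual_sum X Z) (retr_sum h1 h2)⟩

private theorem sw_ths (P : C → Prop) (hP : ∃ X, P X) (M : C) (hM : Ths P M) :
    ∃ S, SumWord P S ∧ Retr M S := by
  induction hM with
  | base X h => exact ⟨X, SumWord.word _ (MW.base X h), 𝟙 _, 𝟙 _, by simp⟩
  | zero X h =>
    obtain ⟨B, hB⟩ := hP
    exact ⟨B, SumWord.word _ (MW.base B hB), 0, 0, h.eq_of_src _ _⟩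
  | sum X Y hX hY ihX ihY =>
    obtain ⟨S, hS, h1⟩ := ihX
    obtain ⟨S', hS', h2⟩ := ihY
    exact ⟨S ⊞ S', SumWord.sum _ _ hS hS', retr_sum h1 h2⟩
  | tensor X Y hX hY ihX ihY =>
    obtain ⟨S, hS, h1⟩ := ihX
    obtain ⟨S', hS', h2⟩ := ihY
    obtain ⟨S'', hS'', h3⟩ := sw_tensor P S S' hS hS'
    exact ⟨S'', hS'', retr_trans (retr_tensor h1 h2) h3⟩
  | dual X hX ihX =>
    obtain ⟨S, hS, h1⟩ := ihX
    obtain ⟨S', hS', h2⟩ := sw_dual P S hS
    exact ⟨S', hS', retr_trans (retr_dual h1) h2⟩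
  | summand X Y i p h hY ihY =>
    obtain ⟨S, hS, h1⟩ := ihY
    exact ⟨S, hS, retr_trans ⟨i, p, h⟩ h1⟩

theorem ths_induction (P Q : C → Prop) (hP : ∃ X, P X) (hw : ∀ M, MW P M → Q M)
    (hs : ∀ X Y, Q X → Q Y → Q (X ⊞ Y))
    (hr : ∀ (X Y : C) (i : X ⟶ Y) (p : Y ⟶ X), i ≫ p = 𝟙 X → Q Y → Q X) :
    ∀ M, Ths P M → Q M := by
  intro M hM
  obtain ⟨S, hS, i, p, h⟩ := sw_ths P hP M hM
  have hQ : Q S := by
    clear h i p
    induction hS with
    | word X h => exact hw X h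
    | sum X Y _ _ ihX ihY => exact hs X Y ihX ihY
  exact hr M S i p h hQ

theorem ths_word {P : C → Prop} {B W : C} (h : Word B W) (hB : Ths P B) : Ths P W := by
  induction h with
  | base => exact hB
  | tensor X Y _ _ hX hY => exact Ths.tensor X Y hX hY
  | dual X _ hX => exact Ths.dual X hX

end Pool.Agent.MUW
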