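import Pool.Agent.MUW.Nf
import Pool.Agent.MUT.Ml

/-!
# MUW: an object which contains all `V i`

`exists_univ`: for `l = 0` the unit object, otherwise the direct sum of the `V i`. `pv_emb`: `pv V n c` is an algebraic
retract of `pw U n`, and its image is spanned by the products of the basis vectors of the `V (c t)`.
-/

set_option linter.unusedSectionVars false
set_option linter.unusedVariables false

namespace Pool.Agent.MUW

open CategoryTheory MonoidalCategory Limits TensorProduct Pool.Agent.KTT Pool.Agent.MUT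

universe v u w w'

variable {C : Type u} [Category.{v} C] [MonoidalCategory C]
  {F : Type w} [Field F] (H : C ⥤ ModuleCat.{w} F) [H.Monoidal]

/-- `tm` as a bilinear map -/
private noncomputable def uni_tmL (X Y : C) : H.obj X →ₗ[F] H.obj Y →ₗ[F] H.obj (X ⊗ Y) :=
  LinearMap.mk₂ F (fun x y => tm H x y) (fun x x' y => tm_add_left H x x' y)
    (fun c x y => tm_smul_left H c x y) (fun x y y' => tm_add_right H x y y')
    (fun c x y => tm_smul_right H c x y)

private theorem uni_tmL_apply {X Y : C} (x : H.obj X) (y : H.obj Y) :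
    uni_tmL H X Y x y = tm H x y := rfl

private theorem uni_unit (z : H.obj (𝟙_ C)) :
    z = ((Functor.OplaxMonoidal.η H).hom z : F) • un H := by
  have h : (Functor.LaxMonoidal.ε H).hom ((Functor.OplaxMonoidal.η H).hom z) = z :=
    LinearMap.congr_fun (congrArg ModuleCat.Hom.hom (Functor.Monoidal.η_ε H)) z
  unfold un
  rw [← map_smul]
  have h1 : ((Functor.OplaxMonoidal.η H).hom z : F) • (1 : F) =
      ((Functor.OplaxMonoidal.η H).hom z : F) := by rw [smul_eq_mul, mul_one]
  exact h.symm.trans (congrArg (Functor.LaxMonoidal.ε H).hom h1.symm)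

private theorem uni_br_unit [BraidedCategory C] : Br H (𝟙_ C) (𝟙_ C) := by
  refine ⟨1, Or.inl rfl, fun x y => ?_⟩
  rw [one_smul, braiding_tensorUnit_left, H.map_comp, ModuleCat.hom_comp, LinearMap.comp_apply]
  rw [uni_unit H x, tm_smul_left, map_smul, left_tm, map_smul, right_inv_tm, tm_smul_right]

/-- the direct sum -/
private theorem uni_sum [Preadditive C] [HasBinaryBiproducts C] {l : ℕ} (V : Fin (l + 1) → C) :
    ∃ (U : C) (inc : ∀ i, V i ⟶ U) (prj : ∀ i, U ⟶ V i), (∀ i, inc i ≫ prj i = 𝟙 (V i)) ∧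
      ∑ i, prj i ≫ inc i = 𝟙 U := by
  induction l with
  | zero =>
    have h0 : ∀ i : Fin (0 + 1), i = 0 := fun i => Subsingleton.elim (α := Fin 1) i 0
    refine ⟨V 0, fun i => eqToHom (congrArg V (h0 i)),
      fun i => eqToHom (congrArg V (h0 i).symm), fun i => ?_, ?_⟩
    · simp
    · simp
  | succ l ih =>
    obtain ⟨U, inc, prj, h1, h2⟩ := ih fun i => V i.succ
    refine ⟨V 0 ⊞ U, fun i => Fin.cases (motive := fun i => V i ⟶ V 0 ⊞ U) biprod.inl
      (fun i => inc i ≫ biprod.inr) i, fun i => Fin.cases (motive := fun i => V 0 ⊞ U ⟶ V i)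
      biprod.fst (fun i => biprod.snd ≫ prj i) i, fun i => ?_, ?_⟩
    · refine Fin.cases ?_ (fun i => ?_) i
      · simp
      · have h3 := h1 i
        simp only [Fin.cases_succ, Category.assoc, BinaryBicone.inr_snd_assoc]
        exact h3
    · rw [Fin.sum_univ_succ]
      simp only [Fin.cases_zero, Fin.cases_succ, Category.assoc]
      have h3 : ∑ i, biprod.snd ≫ prj i ≫ inc i ≫ biprod.inr =
          (biprod.snd : V 0 ⊞ U ⟶ U) ≫ (∑ i, prj i ≫ inc i) ≫ (biprod.inr : U ⟶ V 0 ⊞ U) := by
        rw [Preadditive.sum_comp, Preadditive.comp_sum]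
        simp only [Category.assoc]
      rw [h3, h2, Category.id_comp, biprod.total]

private theorem uni_nat [BraidedCategory C] {X X' Y Y' : C} (f : X ⟶ Y) (g : X' ⟶ Y')
    (x : H.obj X) (y : H.obj X') :
    (H.map (β_ Y Y').hom).hom (tm H ((H.map f).hom x) ((H.map g).hom y)) =
      (H.map (g ⊗ₘ f)).hom ((H.map (β_ X X').hom).hom (tm H x y)) := by
  rw [← map_tm, ← LinearMap.comp_apply, ← ModuleCat.hom_comp, ← H.map_comp,
    BraidedCategory.braiding_naturality, H.map_comp, ModuleCat.hom_comp, LinearMap.comp_apply]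

theorem exists_univ [Preadditive C] [HasBinaryBiproducts C] [MonoidalPreadditive C]
    [BraidedCategory C] [H.Additive] {l : ℕ} (V : Fin l → C)
    (hV : ∃ s : F, (s = 1 ∨ s = -1) ∧ ∀ (i k : Fin l) (x : H.obj (V i)) (y : H.obj (V k)),
      (H.map (β_ (V i) (V k)).hom).hom (tm H x y) = s • tm H y x) :
    ∃ (U : C) (inc : ∀ i, V i ⟶ U) (prj : ∀ i, U ⟶ V i), (∀ i, inc i ≫ prj i = 𝟙 (V i)) ∧
      Br H U U := by
  cases l with
  | zero => exact ⟨𝟙_ C, fun i => i.elim0, fun i => i.elim0, fun i => i.elim0, uni_br_unit H⟩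
  | succ l =>
    obtain ⟨s, hs, hV⟩ := hV
    obtain ⟨U, inc, prj, h1, h2⟩ := uni_sum V
    refine ⟨U, inc, prj, h1, s, hs, fun x y => ?_⟩
    have key : ∀ z : H.obj U, z = ∑ i, (H.map (inc i)).hom ((H.map (prj i)).hom z) := by
      intro z
      have h3 : (H.map (∑ i, prj i ≫ inc i)).hom z = z := by
        rw [h2, H.map_id, ModuleCat.hom_id, LinearMap.id_apply]
      rw [H.map_sum, ModuleCat.hom_sum, LinearMap.sum_apply] at h3
      conv_lhs => rw [← h3]
      refine Finset.sum_congr rfl fun i _ => ?_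
      rw [H.map_comp, ModuleCat.hom_comp, LinearMap.comp_apply]
    have h4 : ∀ i k, (H.map (β_ U U).hom).hom
        (tm H ((H.map (inc i)).hom ((H.map (prj i)).hom x))
          ((H.map (inc k)).hom ((H.map (prj k)).hom y))) =
        s • tm H ((H.map (inc k)).hom ((H.map (prj k)).hom y))
          ((H.map (inc i)).hom ((H.map (prj i)).hom x)) := by
      intro i k
      rw [uni_nat, hV, map_smul, map_tm]
    rw [← uni_tmL_apply, ← uni_tmL_apply]
    rw [key x, key y]
    simp only [map_sum, LinearMap.sum_apply, uni_tmL_apply]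
    rw [Finset.smul_sum, Finset.sum_comm]
    refine Finset.sum_congr rfl fun k _ => ?_
    rw [Finset.smul_sum]
    refine Finset.sum_congr rfl fun i _ => ?_
    exact h4 k i

variable {l : ℕ} {r : Fin l → ℕ} {V : Fin l → C}
  (b : ∀ i, Module.Basis (Fin (r i)) F (H.obj (V i))) {U : C} (inc : ∀ i, V i ⟶ U)

/-- the basis vectors of the `V i` in `H(U)` -/
noncomputable def jj (i : Fin l) (x : Fin (r i)) : H.obj U := (H.map (inc i)).hom (b i x)

private theorem uni_fun2 {X Y : C} (f : H.obj X →ₗ[F] F) (g : H.obj Y →ₗ[F] F) :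
    ∃ Θ : H.obj (X ⊗ Y) →ₗ[F] F, ∀ x y, Θ (tm H x y) = f x * g y := by
  refine ⟨LinearMap.mul' F F ∘ₗ TensorProduct.map f g ∘ₗ (Functor.OplaxMonoidal.δ H X Y).hom,
    fun x y => ?_⟩
  have h : (Functor.OplaxMonoidal.δ H X Y).hom (tm H x y) = x ⊗ₜ[F] y :=
    LinearMap.congr_fun (congrArg ModuleCat.Hom.hom (Functor.Monoidal.μ_δ H X Y)) (x ⊗ₜ[F] y)
  rw [LinearMap.comp_apply, LinearMap.comp_apply]
  refine Eq.trans (congrArg (fun z => LinearMap.mul' F F (TensorProduct.map f g z)) h) ?_
  show LinearMap.mul' F F (TensorProduct.map f g (x ⊗ₜ[F] y)) = f x * g y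
  rw [TensorProduct.map_tmul, LinearMap.mul'_apply]

theorem pv_emb (prj : ∀ i, U ⟶ V i) (hp : ∀ i, inc i ≫ prj i = 𝟙 (V i)) (n : ℕ)
    (c : Fin n → Fin l) :
    ∃ f ∈ ah H (pv V n c) (pw U n), ∃ g ∈ ah H (pw U n) (pv V n c), (∀ v, g (f v) = v) ∧
      ∃ E : H.obj (pv V n c) →ₗ[F] (D r c → F),
        ∀ v, f v = ∑ a, E v a • ml H n fun t => jj H b inc (c t) (a t) := by
  induction n with
  | zero =>
    refine ⟨LinearMap.id, ah_id H _, LinearMap.id, ah_id H _, fun v => rfl,
      LinearMap.pi fun _ => (Functor.OplaxMonoidal.η H).hom, fun v => ?_⟩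
    rw [Finset.univ_unique, Finset.sum_singleton]
    exact uni_unit H v
  | succ n ih =>
    obtain ⟨f', hf', g', hg', hgf, E', hE'⟩ := ih fun t => c t.succ
    have hΘ : ∀ a : D r c, ∃ Θ : H.obj (V (c 0) ⊗ pv V n fun t => c t.succ) →ₗ[F] F,
        ∀ x y, Θ (tm H x y) = (b (c 0)).coord (a 0) x * E' y (fun t => a t.succ) := by
      intro a
      exact uni_fun2 H ((b (c 0)).coord (a 0)) ((LinearMap.proj (fun t : Fin n => a t.succ)) ∘ₗ E')
    choose Θ hΘ using hΘ
    refine ⟨tl H (H.map (inc (c 0))).hom f', ah_tl H (ah_map H _) hf',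
      tl H (H.map (prj (c 0))).hom g', ah_tl H (ah_map H _) hg', ?_, LinearMap.pi Θ, ?_⟩
    · intro v
      have h1 : tl H (H.map (prj (c 0))).hom g' ∘ₗ tl H (H.map (inc (c 0))).hom f' =
          LinearMap.id := by
        refine tm_ext H fun x y => ?_
        rw [LinearMap.comp_apply, tl_tm, tl_tm, hgf, LinearMap.id_apply, ← LinearMap.comp_apply,
          ← ModuleCat.hom_comp, ← H.map_comp, hp, H.map_id, ModuleCat.hom_id, LinearMap.id_apply]
      exact LinearMap.congr_fun h1 v
    · intro v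
      have h1 : tl H (H.map (inc (c 0))).hom f' =
          ∑ a : D r c, (Θ a).smulRight (tm H (jj H b inc (c 0) (a 0))
            (ml H n fun t => jj H b inc (c t.succ) (a t.succ)) : H.obj (U ⊗ pw U n)) := by
        refine tm_ext H fun x y => ?_
        rw [tl_tm, LinearMap.sum_apply]
        simp only [LinearMap.smulRight_apply, hΘ]
        rw [← Equiv.sum_comp (Fin.consEquiv fun s : Fin (n + 1) => Fin (r (c s))),
          Fintype.sum_prod_type]
        have h2 : (H.map (inc (c 0))).hom x =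
            ∑ i, (b (c 0)).coord i x • jj H b inc (c 0) i := by
          conv_lhs => rw [← (b (c 0)).sum_repr x]
          rw [map_sum]
          refine Finset.sum_congr rfl fun i _ => ?_
          rw [map_smul]
          rfl
        rw [h2, hE' y, ← uni_tmL_apply]
        simp only [map_sum, LinearMap.sum_apply, map_smul, LinearMap.smul_apply, uni_tmL_apply]
        simp only [Finset.smul_sum]
        rw [Finset.sum_comm]
        refine Finset.sum_congr rfl fun i _ => ?_
        refine Finset.sum_congr rfl fun a _ => ?_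
        rw [smul_smul, mul_comm]
        rfl
      have h3 : ∀ (w : D r c → H.obj (U ⊗ pw U n)) (v : H.obj (V (c 0) ⊗ pv V n fun t => c t.succ)),
          (∑ a : D r c, (Θ a).smulRight (w a)) v = ∑ a : D r c, Θ a v • w a := by
        intro w v
        rw [LinearMap.sum_apply]
        rfl
      exact (LinearMap.congr_fun h1 v).trans (h3 _ v)

end Pool.Agent.MUW
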